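import Pool.Agent.Y977.CH.Geo

/-!
Deterministic criteria for the Hausdorff dimension of a measure on the circle.
-/

open MeasureTheory ProbabilityTheory Filter Topology Set
open scoped ENNReal NNReal

namespace Pool.Agent.Y977.CH

open Pool.Agent.Results.MP_ab74d4_pr.ChaosConvergence

/-- The Hausdorff dimension of a measure on the circle: the infimum of the Hausdorff dimensions
of the Borel sets whose complement is a null set. -/
noncomputable def dimMeasure (μ : Measure S1) : ℝ≥0∞ :=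
  ⨅ (A : Set S1) (_ : MeasurableSet A ∧ μ Aᶜ = 0), dimH A

/-- The balls of level `m`. -/
noncomputable def bb (m j : ℕ) : Set S1 := Metric.ball (pt (2 ^ m) j) (10 / 2 ^ m)

lemma isOpen_bb (m j : ℕ) : IsOpen (bb m j) := Metric.isOpen_ball

/-- Mass distribution principle in the form used below. -/
lemma mass_distribution (μ : Measure S1) [IsFiniteMeasure μ] (E : Set S1) (hE : MeasurableSet E)
    (hE0 : μ E ≠ 0) (t : ℝ) (ht : 0 < t) (m0 : ℕ)
    (hball : ∀ m, m0 ≤ m → ∀ z ∈ E, μ (E ∩ Metric.closedBall z (1 / 2 ^ m))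
      ≤ ENNReal.ofReal ((2 ^ (-t)) ^ m))
    (A : Set S1) (hA : MeasurableSet A) (hμA : μ Aᶜ = 0) : ENNReal.ofReal t ≤ dimH A := by
  have hset : ∀ m, m0 ≤ m → ∀ s : Set S1, Metric.ediam s ≤ ENNReal.ofReal (1 / 2 ^ m) →
      μ (s ∩ E) ≤ ENNReal.ofReal ((2 ^ (-t)) ^ m) := by
    intro m hm s hs
    rcases (s ∩ E).eq_empty_or_nonempty with h0 | ⟨z, hz⟩
    · rw [h0]; simp
    · refine le_trans (measure_mono ?_) (hball m hm z hz.2)
      intro y hy
      refine ⟨hy.2, ?_⟩
      rw [Metric.mem_closedBall]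
      have h1 : edist y z ≤ ENNReal.ofReal (1 / 2 ^ m) :=
        (Metric.edist_le_ediam_of_mem hy.1 hz.1).trans hs
      rw [edist_dist] at h1
      exact (ENNReal.ofReal_le_ofReal_iff (by positivity)).mp h1
  have hlim0 : ∀ s : Set S1, Metric.ediam s = 0 → μ (s ∩ E) = 0 := by
    intro s hs
    have h1 : ∀ᶠ m : ℕ in atTop, μ (s ∩ E) ≤ ENNReal.ofReal ((2 ^ (-t)) ^ m) := by
      filter_upwards [eventually_ge_atTop m0] with m hm
      exact hset m hm s (by rw [hs]; exact zero_le)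
    have h2 : Tendsto (fun m : ℕ => ENNReal.ofReal (((2 : ℝ) ^ (-t)) ^ m)) atTop (𝓝 0) := by
      rw [← ENNReal.ofReal_zero]
      apply ENNReal.tendsto_ofReal
      apply tendsto_pow_atTop_nhds_zero_of_lt_one (by positivity)
      exact Real.rpow_lt_one_of_one_lt_of_neg (by norm_num) (by linarith)
    exact le_antisymm (ge_of_tendsto h2 h1) zero_le
  have hH : ENNReal.ofReal (2 ^ (-t)) • μ.restrict E ≤ μH[t] := by
    apply Measure.le_hausdorffMeasure t _ (ENNReal.ofReal (1 / 2 ^ m0))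
      (ENNReal.ofReal_pos.mpr (by positivity))
    intro s hs
    rw [Measure.smul_apply, Measure.restrict_apply' hE, smul_eq_mul]
    rcases eq_or_ne (Metric.ediam s) 0 with h0 | h0
    · rw [hlim0 s h0]; simp
    · have hfin : Metric.ediam s ≠ ⊤ := ne_top_of_le_ne_top ENNReal.ofReal_ne_top hs
      set d : ℝ := (Metric.ediam s).toReal with hd
      have hdpos : 0 < d := ENNReal.toReal_pos h0 hfin
      have hds : Metric.ediam s = ENNReal.ofReal d := (ENNReal.ofReal_toReal hfin).symm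
      have hdle : d ≤ 1 / 2 ^ m0 := by
        rw [hds] at hs
        exact (ENNReal.ofReal_le_ofReal_iff (by positivity)).mp hs
      obtain ⟨m, hm1, hm2, hm3⟩ : ∃ m, m0 ≤ m ∧ d ≤ 1 / 2 ^ m ∧ 1 / 2 ^ (m + 1) < d := by
        have hex : ∃ m : ℕ, 1 / 2 ^ (m + 1) < d := by
          obtain ⟨m, hm⟩ := pow_unbounded_of_one_lt (1 / d) (by norm_num : (1 : ℝ) < 2)
          refine ⟨m, ?_⟩
          rw [div_lt_iff₀ hdpos] at hm
          rw [div_lt_iff₀ (by positivity), pow_succ]
          nlinarith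
        classical
        refine ⟨Nat.find hex, ?_, ?_, Nat.find_spec hex⟩
        · by_contra hcon
          push Not at hcon
          have h1 := Nat.find_spec hex
          have h2 : (1 : ℝ) / 2 ^ m0 ≤ 1 / 2 ^ (Nat.find hex + 1) := by
            apply one_div_le_one_div_of_le (by positivity)
            exact pow_le_pow_right₀ (by norm_num) hcon
          linarith
        · rcases Nat.eq_zero_or_pos (Nat.find hex) with h1 | h1
          · rw [h1]
            have : (1 : ℝ) / 2 ^ m0 ≤ 1 / 2 ^ 0 := by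
              apply one_div_le_one_div_of_le (by positivity)
              exact pow_le_pow_right₀ (by norm_num) (Nat.zero_le _)
            linarith
          · have := Nat.find_min hex (m := Nat.find hex - 1) (by omega)
            rw [Nat.sub_add_cancel h1] at this
            exact not_lt.mp this
      have h1 := hset m hm1 s (by rw [hds]; exact ENNReal.ofReal_le_ofReal hm2)
      calc ENNReal.ofReal (2 ^ (-t)) * μ (s ∩ E)
          ≤ ENNReal.ofReal (2 ^ (-t)) * ENNReal.ofReal ((2 ^ (-t)) ^ m) := by gcongr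
        _ = ENNReal.ofReal ((1 / 2 ^ (m + 1)) ^ t) := by
            rw [← ENNReal.ofReal_mul (by positivity), ← pow_succ']
            congr 1
            rw [Real.rpow_neg (by norm_num), inv_pow, one_div, Real.inv_rpow (by positivity),
              ← Real.rpow_natCast, ← Real.rpow_natCast, ← Real.rpow_mul (by norm_num),
              ← Real.rpow_mul (by norm_num), mul_comm]
        _ ≤ ENNReal.ofReal (d ^ t) := by
            apply ENNReal.ofReal_le_ofReal
            exact Real.rpow_le_rpow (by positivity) hm3.le ht.le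
        _ = Metric.ediam s ^ t := by
            rw [hds, ENNReal.ofReal_rpow_of_pos hdpos]
  have hne : μH[t] A ≠ 0 := by
    intro h0
    have h1 := hH A
    rw [h0, Measure.smul_apply, Measure.restrict_apply' hE, smul_eq_mul] at h1
    have h2 : ENNReal.ofReal (2 ^ (-t)) * μ (A ∩ E) = 0 := le_antisymm h1 zero_le
    rcases mul_eq_zero.mp h2 with h3 | h3
    · rw [ENNReal.ofReal_eq_zero] at h3
      have : (0 : ℝ) < 2 ^ (-t) := by positivity
      linarith
    · apply hE0
      apply le_antisymm _ zero_le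
      calc μ E ≤ μ ((A ∩ E) ∪ Aᶜ) := by
            apply measure_mono
            intro x hx
            by_cases hxA : x ∈ A
            · exact Or.inl ⟨hxA, hx⟩
            · exact Or.inr hxA
        _ ≤ μ (A ∩ E) + μ Aᶜ := measure_union_le _ _
        _ = 0 := by rw [h3, hμA, add_zero]
  have h4 : μH[((t.toNNReal : ℝ≥0) : ℝ)] A ≠ 0 := by
    rw [Real.coe_toNNReal t ht.le]; exact hne
  have h5 := le_dimH_of_hausdorffMeasure_ne_zero h4
  exact h5

/-- Lower bound for the dimension from a restricted energy. -/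
lemma lower_dim (μ : Measure S1) [IsFiniteMeasure μ] (J : Set S1) (hJ : MeasurableSet J)
    (hJ0 : μ J ≠ 0) (G : ℕ → Set S1) (hG : ∀ m, MeasurableSet (G m)) (t : ℝ) (ht : 0 < t)
    (h1 : ∑' m, μ (J \ G m) ≠ ⊤)
    (h2 : ∑' m : ℕ, ENNReal.ofReal ((2 ^ t) ^ m) *
      ∑ j ∈ Finset.range (2 ^ m), μ (bb m j ∩ J ∩ G m) ^ 2 ≠ ⊤)
    (A : Set S1) (hA : MeasurableSet A) (hμA : μ Aᶜ = 0) : ENNReal.ofReal t ≤ dimH A := by
  classical
  set thr : ℕ → ℝ≥0∞ := fun m => ENNReal.ofReal ((2 ^ (-t)) ^ m) with hthr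
  have hinv : ∀ m : ℕ, ENNReal.ofReal (((2 : ℝ) ^ t) ^ m) * thr m = 1 := by
    intro m
    rw [hthr, ← ENNReal.ofReal_mul (by positivity), ← mul_pow, ← Real.rpow_add (by norm_num)]
    simp
  set S : ℕ → ℕ → Set S1 := fun m j => bb m j ∩ J ∩ G m with hS
  have hSm : ∀ m j, MeasurableSet (S m j) := fun m j =>
    ((isOpen_bb m j).measurableSet.inter hJ).inter (hG m)
  set Bad : ℕ → Set S1 := fun m => ⋃ j ∈ (Finset.range (2 ^ m)).filter (fun j => thr m < μ (S m j)),
    S m j with hBad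
  have hBadm : ∀ m, MeasurableSet (Bad m) := fun m =>
    Finset.measurableSet_biUnion _ fun j _ => hSm m j
  have hBadle : ∀ m, μ (Bad m) ≤ ENNReal.ofReal ((2 ^ t) ^ m) *
      ∑ j ∈ Finset.range (2 ^ m), μ (S m j) ^ 2 := by
    intro m
    refine (measure_biUnion_finset_le _ _).trans ?_
    rw [Finset.mul_sum]
    refine le_trans (Finset.sum_le_sum (g := fun j => ENNReal.ofReal ((2 ^ t) ^ m) * μ (S m j) ^ 2)
      ?_) (Finset.sum_le_sum_of_subset (Finset.filter_subset _ _))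
    intro j hj
    have hj2 := (Finset.mem_filter.mp hj).2
    calc μ (S m j) = (ENNReal.ofReal (((2 : ℝ) ^ t) ^ m) * thr m) * μ (S m j) := by
          rw [hinv, one_mul]
      _ ≤ (ENNReal.ofReal (((2 : ℝ) ^ t) ^ m) * μ (S m j)) * μ (S m j) := by
          gcongr
      _ = ENNReal.ofReal ((2 ^ t) ^ m) * μ (S m j) ^ 2 := by ring
  have hBadsum : ∑' m, μ (Bad m) ≠ ⊤ :=
    ne_top_of_le_ne_top h2 (ENNReal.tsum_le_tsum hBadle)
  have hae1 := ae_eventually_notMem h1
  have hae2 := ae_eventually_notMem hBadsum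
  set E : ℕ → Set S1 := fun m0 => J ∩ ⋂ m, ⋂ (_ : m0 ≤ m), (G m ∩ (Bad m)ᶜ) with hEdef
  have hEm : ∀ m0, MeasurableSet (E m0) := fun m0 =>
    hJ.inter (MeasurableSet.iInter fun m => MeasurableSet.iInter fun _ =>
      (hG m).inter (hBadm m).compl)
  have hcover : ∃ m0, μ (E m0) ≠ 0 := by
    by_contra hcon
    push Not at hcon
    apply hJ0
    have hU : μ (⋃ m0, E m0) = 0 := measure_iUnion_null hcon
    have hle : ∀ᵐ z ∂μ, z ∈ J → z ∈ ⋃ m0, E m0 := by
      filter_upwards [hae1, hae2] with z hz1 hz2 hzJ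
      obtain ⟨m0, hm0⟩ := eventually_atTop.mp (hz1.and hz2)
      refine mem_iUnion.mpr ⟨m0, hzJ, ?_⟩
      refine mem_iInter.mpr fun m => mem_iInter.mpr fun hm => ?_
      obtain ⟨a1, a2⟩ := hm0 m hm
      refine ⟨?_, a2⟩
      by_contra hcon2
      exact a1 ⟨hzJ, hcon2⟩
    have := measure_mono_ae (s := J) (t := ⋃ m0, E m0) (μ := μ) hle
    rw [hU] at this
    exact le_antisymm this zero_le
  obtain ⟨m0, hm0⟩ := hcover
  apply mass_distribution μ (E m0) (hEm m0) hm0 t ht m0 _ A hA hμA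
  intro m hm z hz
  obtain ⟨j, hj1, hj2⟩ := exists_pt (2 ^ m) (Nat.one_le_two_pow) z
  have hzm : z ∈ G m ∩ (Bad m)ᶜ := mem_iInter.mp (mem_iInter.mp hz.2 m) hm
  have hpow : (((2 ^ m : ℕ) : ℝ)) = 2 ^ m := by push_cast; ring
  rw [hpow] at hj2
  have hpos : (0 : ℝ) < 1 / 2 ^ m := by positivity
  have hzb : z ∈ bb m j := by
    unfold bb
    rw [Metric.mem_ball]
    refine lt_of_le_of_lt hj2 ?_
    have : (10 : ℝ) / 2 ^ m - 7 / 2 ^ m = 3 * (1 / 2 ^ m) := by ring
    linarith
  have hthrj : μ (S m j) ≤ thr m := by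
    by_contra hcon
    push Not at hcon
    apply hzm.2
    exact mem_biUnion (x := j) (by
      simp only [Finset.coe_filter, Finset.mem_range, mem_ofPred_eq]
      exact ⟨hj1, hcon⟩) ⟨⟨hzb, hz.1⟩, hzm.1⟩
  refine le_trans (measure_mono ?_) hthrj
  intro y hy
  have hym : y ∈ G m ∩ (Bad m)ᶜ := mem_iInter.mp (mem_iInter.mp hy.1.2 m) hm
  refine ⟨⟨?_, hy.1.1⟩, hym.1⟩
  unfold bb
  rw [Metric.mem_ball]
  have h3 := Metric.mem_closedBall.mp hy.2
  calc dist y (pt (2 ^ m) j) ≤ dist y z + dist z (pt (2 ^ m) j) := dist_triangle _ _ _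
    _ ≤ 1 / 2 ^ m + 7 / 2 ^ m := by linarith
    _ = 8 * (1 / 2 ^ m) := by ring
    _ < 10 * (1 / 2 ^ m) := by linarith
    _ = 10 / 2 ^ m := by ring

/-- The closed arcs of level `m`. -/
noncomputable def arc (m j : ℕ) : Set S1 :=
  expPoint '' Icc (2 * Real.pi * j / 2 ^ m) (2 * Real.pi * (j + 1) / 2 ^ m)

lemma ediam_arc_le (m j : ℕ) : Metric.ediam (arc m j) ≤ ENNReal.ofReal (7 / 2 ^ m) := by
  apply Metric.ediam_le
  rintro x ⟨θ, hθ, rfl⟩ y ⟨φ, hφ, rfl⟩
  rw [edist_dist]
  apply ENNReal.ofReal_le_ofReal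
  refine (dist_expPoint_le _ _).trans ?_
  have h1 : 2 * Real.pi * (j + 1) / 2 ^ m = 2 * Real.pi * j / 2 ^ m + 2 * Real.pi / 2 ^ m := by ring
  have h2 : 2 * Real.pi / 2 ^ m ≤ 7 / 2 ^ m := by
    have := Real.pi_lt_d2
    gcongr
    linarith
  rw [abs_le]
  constructor <;> linarith [hθ.1, hθ.2, hφ.1, hφ.2]

/-- Upper bound for the dimension from coverings. -/
lemma upper_dim (S : Set S1) (js : ℕ → Finset ℕ) (C t' t : ℝ) (hC : 0 ≤ C) (ht : t' < t)
    (ht0 : 0 ≤ t) (m0 : ℕ) (hcov : ∀ m, m0 ≤ m → S ⊆ ⋃ j ∈ js m, arc m j)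
    (hcard : ∀ m, m0 ≤ m → ((js m).card : ℝ) ≤ C * (2 ^ t') ^ m) :
    dimH S ≤ ENNReal.ofReal t := by
  have hr : Tendsto (fun m : ℕ => ENNReal.ofReal (7 / 2 ^ m)) atTop (𝓝 0) := by
    rw [← ENNReal.ofReal_zero]
    apply ENNReal.tendsto_ofReal
    have : Tendsto (fun m : ℕ => (7 : ℝ) * (1 / 2) ^ m) atTop (𝓝 (7 * 0)) :=
      (tendsto_pow_atTop_nhds_zero_of_lt_one (by norm_num) (by norm_num)).const_mul 7
    rw [mul_zero] at this
    refine this.congr fun m => ?_
    rw [one_div, inv_pow, div_eq_mul_inv]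
  have h1 := Measure.hausdorffMeasure_le_liminf_sum (ι := fun m => {j // j ∈ js m}) t S
    (fun m : ℕ => ENNReal.ofReal (7 / 2 ^ m)) hr (fun m j => arc m j.1)
    (Eventually.of_forall fun m j => ediam_arc_le m j.1) (by
      filter_upwards [eventually_ge_atTop m0] with m hm
      intro x hx
      obtain ⟨j, hj, hxj⟩ := mem_iUnion₂.mp (hcov m hm hx)
      exact mem_iUnion.mpr ⟨⟨j, hj⟩, hxj⟩)
  have h2 : ∀ᶠ m in atTop, ∑ j : {j // j ∈ js m}, Metric.ediam (arc m j.1) ^ t
      ≤ ENNReal.ofReal (C * 7 ^ t * (2 ^ (t' - t)) ^ m) := by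
    filter_upwards [eventually_ge_atTop m0] with m hm
    calc ∑ j : {j // j ∈ js m}, Metric.ediam (arc m j.1) ^ t
        ≤ ∑ _j : {j // j ∈ js m}, ENNReal.ofReal (7 / 2 ^ m) ^ t := by
          apply Finset.sum_le_sum
          intro j _
          exact ENNReal.rpow_le_rpow (ediam_arc_le m j.1) ht0
      _ = ENNReal.ofReal ((js m).card * (7 / 2 ^ m) ^ t) := by
          rw [Finset.sum_const, nsmul_eq_mul, ENNReal.ofReal_rpow_of_pos (by positivity),
            ENNReal.ofReal_mul (by positivity)]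
          simp
      _ ≤ ENNReal.ofReal (C * 7 ^ t * (2 ^ (t' - t)) ^ m) := by
          apply ENNReal.ofReal_le_ofReal
          have e1 : ((7 : ℝ) / 2 ^ m) ^ t = 7 ^ t * (2 ^ (-t)) ^ m := by
            rw [div_eq_mul_inv, Real.mul_rpow (by norm_num) (by positivity),
              Real.inv_rpow (by positivity), Real.rpow_neg (by norm_num), inv_pow,
              ← Real.rpow_natCast, ← Real.rpow_natCast, ← Real.rpow_mul (by norm_num),
              ← Real.rpow_mul (by norm_num), mul_comm (m : ℝ)]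
          have e2 : ((2 : ℝ) ^ (t' - t)) ^ m = (2 ^ t') ^ m * (2 ^ (-t)) ^ m := by
            rw [← mul_pow, ← Real.rpow_add (by norm_num), sub_eq_add_neg]
          rw [e1, e2]
          calc ((js m).card : ℝ) * (7 ^ t * (2 ^ (-t)) ^ m)
              ≤ (C * (2 ^ t') ^ m) * (7 ^ t * (2 ^ (-t)) ^ m) := by
                have := hcard m hm
                gcongr
            _ = C * 7 ^ t * ((2 ^ t') ^ m * (2 ^ (-t)) ^ m) := by ring
  have h3 : Tendsto (fun m : ℕ => ENNReal.ofReal (C * 7 ^ t * (2 ^ (t' - t)) ^ m)) atTop (𝓝 0) := by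
    rw [← ENNReal.ofReal_zero]
    apply ENNReal.tendsto_ofReal
    have : Tendsto (fun m : ℕ => (C * 7 ^ t) * ((2 : ℝ) ^ (t' - t)) ^ m) atTop
        (𝓝 ((C * 7 ^ t) * 0)) :=
      (tendsto_pow_atTop_nhds_zero_of_lt_one (by positivity)
        (Real.rpow_lt_one_of_one_lt_of_neg (by norm_num) (by linarith))).const_mul _
    rwa [mul_zero] at this
  have h4 : liminf (fun m => ∑ j : {j // j ∈ js m}, Metric.ediam (arc m j.1) ^ t) atTop ≤ 0 := by
    refine (liminf_le_liminf h2).trans ?_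
    exact h3.liminf_eq.le
  have h5 : μH[t] S = 0 := le_antisymm (h1.trans h4) zero_le
  have h6 : μH[((t.toNNReal : ℝ≥0) : ℝ)] S ≠ ⊤ := by
    rw [Real.coe_toNNReal t ht0, h5]
    simp
  exact dimH_le_of_hausdorffMeasure_ne_top h6

end Pool.Agent.Y977.CH
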