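import Pool.Agent.Y977.CH.Dens

/-!
First and second moments of the masses of random sets.
-/

open MeasureTheory ProbabilityTheory Filter Topology Set
open scoped ENNReal NNReal

namespace Pool.Agent.Y977.CH

open Pool.Agent.Results.MP_ab74d4_pr.ChaosConvergence

variable {Ω : Type*} {mΩ : MeasurableSpace Ω} {P : Measure Ω} {ξ : ℕ → Ω → ℂ}

instance : IsFiniteMeasure arcLength := inferInstance

/-- generic first moment bound -/
lemma first_moment [SFinite P] (F : Ω → S1 → ℝ≥0∞) (hF : Measurable (fun p : Ω × S1 => F p.1 p.2))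
    (B : Set S1) (hB : MeasurableSet B) (c : ℝ≥0∞)
    (hb : ∀ z ∈ B, ∫⁻ ω, F ω z ∂P ≤ c) :
    ∫⁻ ω, ∫⁻ z in B, F ω z ∂arcLength ∂P ≤ c * arcLength B := by
  rw [lintegral_lintegral_swap hF.aemeasurable]
  refine (setLIntegral_mono' hB hb).trans ?_
  rw [setLIntegral_const]

/-- generic second moment bound -/
lemma second_moment [SFinite P] (F : Ω → S1 → ℝ≥0∞)
    (hF : Measurable (fun p : Ω × S1 => F p.1 p.2))
    (B : Set S1) (hB : MeasurableSet B) (G : S1 → S1 → ℝ≥0∞)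
    (hG : Measurable (fun p : S1 × S1 => G p.1 p.2)) 
    (hb : ∀ z ∈ B, ∀ w ∈ B, ∫⁻ ω, F ω z * F ω w ∂P ≤ G z w) :
    ∫⁻ ω, (∫⁻ z in B, F ω z ∂arcLength) ^ 2 ∂P
      ≤ ∫⁻ z in B, ∫⁻ w in B, G z w ∂arcLength ∂arcLength := by
  set L : Measure S1 := arcLength.restrict B with hL
  have hFr : ∀ ω, Measurable (fun z => F ω z) := by
    intro ω
    have e : Measurable (fun z : S1 => ((ω, z) : Ω × S1)) := measurable_const.prodMk measurable_id
    have e2 := hF.comp e
    exact e2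
  have e1 : ∀ ω, (∫⁻ z, F ω z ∂L) ^ 2 = ∫⁻ p : S1 × S1, F ω p.1 * F ω p.2 ∂(L.prod L) := by
    intro ω
    rw [sq, lintegral_prod_mul (hFr ω).aemeasurable (hFr ω).aemeasurable]
  simp only [e1]
  have hm : Measurable (fun q : Ω × (S1 × S1) => F q.1 q.2.1 * F q.1 q.2.2) := by
    have a1 : Measurable (fun q : Ω × (S1 × S1) => ((q.1, q.2.1) : Ω × S1)) :=
      measurable_fst.prodMk (measurable_fst.comp measurable_snd)
    have a2 : Measurable (fun q : Ω × (S1 × S1) => ((q.1, q.2.2) : Ω × S1)) :=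
      measurable_fst.prodMk (measurable_snd.comp measurable_snd)
    have b1 := hF.comp a1
    have b2 := hF.comp a2
    exact b1.mul b2
  rw [lintegral_lintegral_swap hm.aemeasurable]
  rw [← lintegral_prod _ hG.aemeasurable]
  have hae : ∀ᵐ p ∂(L.prod L), p ∈ B ×ˢ B := by
    rw [hL, Measure.prod_restrict]
    exact ae_restrict_mem (hB.prod hB)
  apply lintegral_mono_ae
  filter_upwards [hae] with p hp
  exact hb p.1 hp.1 p.2 hp.2

lemma measurable_ker (a ρ : ℝ) : Measurable (fun p : S1 × S1 => ker a ρ p.1 p.2) := by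
  unfold ker
  apply Measurable.ennreal_tsum
  intro i
  apply Measurable.const_mul
  have e : (fun p : S1 × S1 => (Metric.ball p.1 (ρ / 2 ^ i)).indicator (1 : S1 → ℝ≥0∞) p.2)
      = ({p : S1 × S1 | dist p.2 p.1 < ρ / 2 ^ i}).indicator 1 := by
    funext p
    simp only [indicator, Metric.mem_ball, Pi.one_apply]
    rfl
  rw [e]
  exact measurable_one.indicator (measurableSet_lt (by fun_prop) (by fun_prop))

/-- The two point function is bounded by the dyadic kernel. -/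
lemma Hyp.cov_ker (h : Hyp P ξ) (γ D : ℝ) (M n : ℕ) (hM : 1 ≤ M) (σ δ : ℝ) (hσ : |σ| = 1)
    (hδ : 0 < δ) (z w : S1) (hz : z ∈ JJ σ δ) (hw : w ∈ JJ σ δ) (ρ : ℝ) (hρ : 2 ≤ M * ρ)
    (hd : dist z w < ρ) :
    ENNReal.ofReal (Real.exp (∑ k ∈ Finset.Ico M n,
        (qq P ξ k ((γ : ℂ) * ((z : ℂ) ^ (k + 1) + (w : ℂ) ^ (k + 1))) / 2
        - γ ^ 2 / 2 * (qq P ξ k ((z : ℂ) ^ (k + 1)) + qq P ξ k ((w : ℂ) ^ (k + 1)))) + D))
      ≤ ENNReal.ofReal (Real.exp (D + γ ^ 2 / 2 * (2 + 1 / δ))) * ker (γ ^ 2 / 2) ρ z w := by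
  have hρpos : 0 < ρ := lt_of_le_of_lt dist_nonneg hd
  rcases eq_or_ne z w with hzw | hzw
  · subst hzw
    have h1 : ker (γ ^ 2 / 2) ρ z z = ⊤ := by
      unfold ker
      rw [eq_top_iff, ← ENNReal.tsum_const_eq_top_of_ne_zero (α := ℕ) (c := 1) one_ne_zero]
      apply ENNReal.tsum_le_tsum
      intro i
      have h2 : z ∈ Metric.ball z (ρ / 2 ^ i) := Metric.mem_ball_self (by positivity)
      rw [indicator_of_mem h2, Pi.one_apply, mul_one, ← ENNReal.ofReal_one]
      apply ENNReal.ofReal_le_ofReal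
      apply one_le_pow₀
      exact Real.one_le_rpow (by norm_num) (by positivity)
    rw [h1, ENNReal.mul_top (by positivity)]
    exact le_top
  · have hdpos : 0 < dist z w := dist_pos.mpr hzw
    obtain ⟨i, hi1, hi2⟩ : ∃ i : ℕ, dist z w < ρ / 2 ^ i ∧ ρ / 2 ^ (i + 1) ≤ dist z w := by
      have hex : ∃ i : ℕ, ρ / 2 ^ i ≤ dist z w := by
        obtain ⟨i, hi⟩ := pow_unbounded_of_one_lt (ρ / dist z w) (by norm_num : (1 : ℝ) < 2)
        refine ⟨i, ?_⟩
        rw [div_lt_iff₀ hdpos] at hi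
        rw [div_le_iff₀ (by positivity)]
        linarith
      classical
      have h0 : Nat.find hex ≠ 0 := by
        intro h0
        have := Nat.find_spec hex
        rw [h0] at this
        simp at this
        linarith
      obtain ⟨i, hi⟩ := Nat.exists_eq_succ_of_ne_zero h0
      refine ⟨i, ?_, ?_⟩
      · have := Nat.find_min hex (m := i) (by omega)
        exact not_le.mp this
      · have := Nat.find_spec hex
        rw [hi] at this
        exact this
    have hnorm : ‖(z : ℂ) - w‖ = dist z w := by rw [Subtype.dist_eq, dist_eq_norm]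
    have hcond : 1 ≤ M * ‖(z : ℂ) - w‖ * 2 ^ i := by
      rw [hnorm]
      rw [div_le_iff₀ (by positivity), pow_succ] at hi2
      have hMpos : (0 : ℝ) < M := by exact_mod_cast hM
      nlinarith
    have h1 := h.sum_cov_le M n i hM z w (norm_coe z) (norm_coe w) γ hcond (2 * δ) (by positivity)
      (two_mul_le_norm_one_sub_mul σ δ hσ z w hz hw)
    have h2 : ENNReal.ofReal ((2 ^ (γ ^ 2 / 2)) ^ i) ≤ ker (γ ^ 2 / 2) ρ z w := by
      unfold ker
      refine le_trans ?_ (ENNReal.le_tsum i)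
      have h3 : w ∈ Metric.ball z (ρ / 2 ^ i) := by rw [Metric.mem_ball, dist_comm]; exact hi1
      rw [indicator_of_mem h3, Pi.one_apply, mul_one]
    refine le_trans ?_ (mul_le_mul_right h2 _)
    rw [← ENNReal.ofReal_mul (Real.exp_pos _).le]
    apply ENNReal.ofReal_le_ofReal
    rw [Real.rpow_def_of_pos (by norm_num), ← Real.exp_nat_mul, ← Real.exp_add]
    apply Real.exp_le_exp.mpr
    have h4 : 2 / (2 * δ) = 1 / δ := by field_simp
    rw [h4] at h1
    have h5 : (i : ℝ) * (Real.log 2 * (γ ^ 2 / 2)) = γ ^ 2 / 2 * (i * Real.log 2) := by ring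
    rw [h5]
    linarith

/-- Second moment of the mass of the set of points of a ball where the density at level `M` is
small. -/
lemma Hyp.second_good (h : Hyp P ξ) (γ : ℝ) (hγ : γ ^ 2 / 2 < 1) (M n : ℕ) (hM : 1 ≤ M)
    (hMn : M ≤ n) (σ δ : ℝ) (hσ : |σ| = 1) (hδ : 0 < δ) (p : S1) (b : ℝ) :
    ∫⁻ ω, (∫⁻ z in Metric.ball p (10 / M) ∩ JJ σ δ,
      {z : S1 | EE P ξ γ M ω z < b}.indicator (fun z => DD P ξ γ n ω z) z ∂arcLength) ^ 2 ∂P
      ≤ ENNReal.ofReal (20000 * Real.exp (dd P ξ (2 * |γ|) + γ ^ 2 / 2 * (2 + 1 / δ)) /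
        (1 - 2 ^ (γ ^ 2 / 2 - 1)) * Real.exp b / M ^ 2) := by
  have := h.prob
  have hMpos : (0 : ℝ) < M := by exact_mod_cast hM
  set B : Set S1 := Metric.ball p (10 / M) ∩ JJ σ δ with hB
  have hBm : MeasurableSet B := Metric.isOpen_ball.measurableSet.inter (measurableSet_JJ σ δ)
  set C : ℝ := Real.exp (dd P ξ (2 * |γ|) + γ ^ 2 / 2 * (2 + 1 / δ)) with hC
  have hCpos : 0 < C := Real.exp_pos _
  set F : Ω → S1 → ℝ≥0∞ := fun ω z =>
    {z : S1 | EE P ξ γ M ω z < b}.indicator (fun z => DD P ξ γ n ω z) z with hFdef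
  have hFm : Measurable (fun q : Ω × S1 => F q.1 q.2) := by
    have e : (fun q : Ω × S1 => F q.1 q.2) = {q : Ω × S1 | EE P ξ γ M q.1 q.2 < b}.indicator
        (fun q => DD P ξ γ n q.1 q.2) := by
      funext q
      simp only [hFdef, indicator, mem_ofPred_eq]
    rw [e]
    exact (h.measurable_DD γ n).indicator (measurableSet_lt (h.measurable_EE' γ M) measurable_const)
  have hb : ∀ z ∈ B, ∀ w ∈ B, ∫⁻ ω, F ω z * F ω w ∂P ≤
      ENNReal.ofReal (Real.exp b * C) * ker (γ ^ 2 / 2) (20 / M) z w := by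
    intro z hz w hw
    have h1 : ∀ ω, F ω z * F ω w ≤ ENNReal.ofReal (Real.exp b) *
        ENNReal.ofReal (Real.exp (EE P ξ γ n ω z + EE P ξ γ n ω w - EE P ξ γ M ω z)) := by
      intro ω
      simp only [hFdef, indicator, mem_ofPred_eq]
      split_ifs with c1 c2
      · unfold DD
        rw [← ENNReal.ofReal_mul (Real.exp_pos _).le, ← ENNReal.ofReal_mul (Real.exp_pos _).le,
          ← Real.exp_add, ← Real.exp_add]
        apply ENNReal.ofReal_le_ofReal
        apply Real.exp_le_exp.mpr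
        linarith
      · simp
      · simp
      · simp
    refine (lintegral_mono h1).trans ?_
    rw [lintegral_const_mul' _ _ ENNReal.ofReal_ne_top, ENNReal.ofReal_mul (Real.exp_pos _).le,
      mul_assoc]
    gcongr
    refine (h.moment_two γ M n hMn z w (norm_coe z) (norm_coe w)).trans ?_
    apply h.cov_ker γ _ M n hM σ δ hσ hδ z w hz.2 hw.2 (20 / M)
    · rw [mul_div_cancel₀ _ hMpos.ne']; norm_num
    · have h2 := Metric.mem_ball.mp hz.1
      have h3 := Metric.mem_ball.mp hw.1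
      calc dist z w ≤ dist z p + dist w p := dist_triangle_right _ _ _
        _ < 10 / M + 10 / M := by linarith
        _ = 20 / M := by ring
  refine (second_moment F hFm B hBm _ ((measurable_ker _ _).const_mul _) hb).trans ?_
  have hq1 : (2 : ℝ) ^ (γ ^ 2 / 2 - 1) < 1 :=
    Real.rpow_lt_one_of_one_lt_of_neg (by norm_num) (by linarith)
  have hk : ∀ z, ∫⁻ w in B, ENNReal.ofReal (Real.exp b * C) * ker (γ ^ 2 / 2) (20 / M) z w ∂arcLength
      ≤ ENNReal.ofReal (Real.exp b * C) * ENNReal.ofReal (10 * (20 / M) / (1 - 2 ^ (γ ^ 2 / 2 - 1))) := by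
    intro z
    rw [lintegral_const_mul' _ _ ENNReal.ofReal_ne_top]
    gcongr
    exact (setLIntegral_le_lintegral _ _).trans (lintegral_ker_le _ _ hγ (by positivity) z)
  refine (lintegral_mono hk).trans ?_
  rw [setLIntegral_const]
  have hBle : arcLength B ≤ ENNReal.ofReal (10 * (10 / M)) :=
    (measure_mono inter_subset_left).trans (arcLength_ball_le p _ (by positivity))
  have hden : 0 < 1 - (2 : ℝ) ^ (γ ^ 2 / 2 - 1) := by linarith
  refine (mul_le_mul_right hBle _).trans ?_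
  rw [← ENNReal.ofReal_mul (by positivity), ← ENNReal.ofReal_mul (by positivity)]
  apply ENNReal.ofReal_le_ofReal
  apply le_of_eq
  field_simp
  ring

/-- First moment of the mass of the set where the density at level `M` is atypical. -/
lemma Hyp.first_bad (h : Hyp P ξ) (γ t : ℝ) (ht : |t| ≤ 1) (M n : ℕ) (hMn : M ≤ n) (σ δ : ℝ)
    (hσ : |σ| = 1) (hδ : 0 < δ) (b : ℝ) :
    ∫⁻ ω, (∫⁻ z in JJ σ δ, {z : S1 | 0 < t * (EE P ξ γ M ω z - b)}.indicator
      (fun z => DD P ξ γ n ω z) z ∂arcLength) ∂P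
      ≤ ENNReal.ofReal (Real.exp (-(t * b) + γ ^ 2 / 4 * (t + t ^ 2) *
        (∑ k ∈ Finset.range M, 1 / ((k : ℝ) + 1)) + γ ^ 2 / 2 * |t + t ^ 2| / δ ^ 2
          + dd P ξ (2 * |γ|))) * arcLength univ := by
  have := h.prob
  set F : Ω → S1 → ℝ≥0∞ := fun ω z =>
    {z : S1 | 0 < t * (EE P ξ γ M ω z - b)}.indicator (fun z => DD P ξ γ n ω z) z with hFdef
  have hFm : Measurable (fun q : Ω × S1 => F q.1 q.2) := by
    have e : (fun q : Ω × S1 => F q.1 q.2) = {q : Ω × S1 | 0 < t * (EE P ξ γ M q.1 q.2 - b)}.indicator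
        (fun q => DD P ξ γ n q.1 q.2) := by
      funext q
      simp only [hFdef, indicator, mem_ofPred_eq]
    rw [e]
    exact (h.measurable_DD γ n).indicator (measurableSet_lt measurable_const
      (((h.measurable_EE' γ M).sub_const b).const_mul t))
  refine (first_moment F hFm (JJ σ δ) (measurableSet_JJ σ δ) _ ?_).trans
    (mul_le_mul_right (measure_mono (subset_univ _)) _)
  intro z hz
  have h1 : ∀ ω, F ω z ≤ ENNReal.ofReal (Real.exp (-(t * b))) *
      ENNReal.ofReal (Real.exp (EE P ξ γ n ω z + t * EE P ξ γ M ω z)) := by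
    intro ω
    simp only [hFdef, indicator, mem_ofPred_eq]
    split_ifs with c1
    · unfold DD
      rw [← ENNReal.ofReal_mul (Real.exp_pos _).le, ← Real.exp_add]
      apply ENNReal.ofReal_le_ofReal
      apply Real.exp_le_exp.mpr
      linarith
    · simp
  refine (lintegral_mono h1).trans ?_
  rw [lintegral_const_mul' _ _ ENNReal.ofReal_ne_top]
  refine (mul_le_mul_right (h.moment_one γ t ht M n hMn z (norm_coe z)) _).trans ?_
  rw [← ENNReal.ofReal_mul (Real.exp_pos _).le, ← Real.exp_add]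
  apply ENNReal.ofReal_le_ofReal
  apply Real.exp_le_exp.mpr
  have h2 := h.abs_sum_qq M z (norm_coe z) (δ ^ 2) (by positivity)
    (sq_le_norm_one_sub_sq σ δ hσ hδ.le z hz)
  have h3 : (t + t ^ 2) * (∑ k ∈ Finset.range M, qq P ξ k ((z : ℂ) ^ (k + 1)) -
      (∑ k ∈ Finset.range M, 1 / ((k : ℝ) + 1)) / 2) ≤ |t + t ^ 2| * (1 / δ ^ 2) := by
    refine (le_abs_self _).trans ?_
    rw [abs_mul]
    gcongr
  have h4 : γ ^ 2 / 2 * ((t + t ^ 2) * (∑ k ∈ Finset.range M, qq P ξ k ((z : ℂ) ^ (k + 1)) -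
      (∑ k ∈ Finset.range M, 1 / ((k : ℝ) + 1)) / 2)) ≤ γ ^ 2 / 2 * (|t + t ^ 2| * (1 / δ ^ 2)) := by
    gcongr
  have h5 : γ ^ 2 / 2 * |t + t ^ 2| / δ ^ 2 = γ ^ 2 / 2 * (|t + t ^ 2| * (1 / δ ^ 2)) := by ring
  rw [h5]
  nlinarith [h4]

end Pool.Agent.Y977.CH
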