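import Pool.Agent.Y977.CH.Deriv
import Pool.Agent.Y977.CH.Prob
import Pool.Agent.Y977.CH.Det

/-!
Almost sure consequences of the moment bounds.
-/

open MeasureTheory ProbabilityTheory Filter Topology Set
open scoped ENNReal NNReal

namespace Pool.Agent.Y977.CH

open Pool.Agent.Results.MP_ab74d4_pr.ChaosConvergence

variable {Ω : Type*} {mΩ : MeasurableSpace Ω} {P : Measure Ω} {ξ : ℕ → Ω → ℂ}

lemma ae_tsum_ne_top (f : ℕ → Ω → ℝ≥0∞) (hf : ∀ m, Measurable (f m))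
    (hs : ∑' m, ∫⁻ ω, f m ω ∂P ≠ ⊤) : ∀ᵐ ω ∂P, ∑' m, f m ω ≠ ⊤ := by
  rw [← lintegral_tsum (fun m => (hf m).aemeasurable)] at hs
  filter_upwards [ae_lt_top (Measurable.ennreal_tsum hf) hs] with ω hω
  exact hω.ne

lemma Hyp.measurable_HH (h : Hyp P ξ) (γ : ℝ) (M : ℕ) :
    Measurable (fun p : Ω × ℝ => HH P ξ γ M p.1 p.2) := by
  have h1 : Measurable (fun p : Ω × ℝ => EE P ξ γ M p.1 (ee p.2)) := by
    have e : Measurable (fun p : Ω × ℝ => ((p.1, ee p.2) : Ω × ℂ)) :=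
      measurable_fst.prodMk (continuous_ee.measurable.comp measurable_snd)
    have e2 := (h.measurable_EE γ M).comp e
    exact e2
  have h2 : Measurable (fun p : Ω × ℝ => YY ξ M p.1 p.2) := by
    unfold YY LL
    apply Finset.measurable_sum
    intro k _
    have e1 : Measurable (fun p : Ω × ℝ => tr k (ξ k p.1)) :=
      ((measurable_tr k).comp (h.meas k)).comp measurable_fst
    have e2 : Measurable (fun p : Ω × ℝ => ee p.2 ^ (k + 1)) :=
      (continuous_ee.measurable.comp measurable_snd).pow_const _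
    exact (Complex.measurable_re.comp (e1.mul (measurable_const.mul e2))).div_const _
  unfold HH
  exact (h1.exp.const_mul _).add (((h1.add h2).exp.add (h1.sub h2).exp).const_mul _)

/-- The total majorant. -/
noncomputable def XX (P : Measure Ω) (ξ : ℕ → Ω → ℂ) (γ : ℝ) (M : ℕ) (ω : Ω) : ℝ≥0∞ :=
  ∫⁻ θ in Ioc 0 (2 * Real.pi), ENNReal.ofReal (HH P ξ γ M ω θ)

lemma Hyp.measurable_XX (h : Hyp P ξ) (γ : ℝ) (M : ℕ) : Measurable (XX P ξ γ M) := by
  unfold XX
  exact (h.measurable_HH γ M).ennreal_ofReal.lintegral_prod_right'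

lemma HH_nonneg (γ : ℝ) (M : ℕ) (ω : Ω) (θ : ℝ) : 0 ≤ HH P ξ γ M ω θ := by
  unfold HH
  have := Real.exp_pos (EE P ξ γ M ω (ee θ))
  positivity

lemma Hyp.XX_eq (h : Hyp P ξ) (γ : ℝ) (M : ℕ) (ω : Ω) :
    ENNReal.ofReal (∫ θ in (0 : ℝ)..(2 * Real.pi), HH P ξ γ M ω θ) = XX P ξ γ M ω := by
  rw [intervalIntegral.integral_of_le (by positivity)]
  unfold XX
  apply ofReal_integral_eq_lintegral_ofReal
  · exact ((h.continuous_HH γ M ω).integrableOn_Icc).mono_set Ioc_subset_Icc_self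
  · exact ae_of_all _ fun θ => HH_nonneg γ M ω θ

/-- bound for the expectation of the majorant -/
noncomputable def CX (P : Measure Ω) (ξ : ℕ → Ω → ℂ) (γ : ℝ) : ℝ≥0∞ :=
  (ENNReal.ofReal (1 + γ ^ 2 / 2) * ENNReal.ofReal (Real.exp (dd P ξ (2 * |γ|))) +
    ENNReal.ofReal |γ| * (ENNReal.ofReal (Real.exp ((1 + |γ|) / 2 + dd P ξ (|γ| + 1))) +
      ENNReal.ofReal (Real.exp ((1 + |γ|) / 2 + dd P ξ (|γ| + 1))))) *
    ENNReal.ofReal (2 * Real.pi)

lemma CX_ne_top (γ : ℝ) : CX P ξ γ ≠ ⊤ := by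
  unfold CX
  apply ENNReal.mul_ne_top _ ENNReal.ofReal_ne_top
  apply ENNReal.add_ne_top.mpr
  refine ⟨ENNReal.mul_ne_top ENNReal.ofReal_ne_top ENNReal.ofReal_ne_top, ?_⟩
  exact ENNReal.mul_ne_top ENNReal.ofReal_ne_top
    (ENNReal.add_ne_top.mpr ⟨ENNReal.ofReal_ne_top, ENNReal.ofReal_ne_top⟩)

lemma Hyp.lintegral_XX_le (h : Hyp P ξ) (γ : ℝ) (M : ℕ) (hM : 1 ≤ M) :
    ∫⁻ ω, XX P ξ γ M ω ∂P ≤ CX P ξ γ := by
  have := h.prob
  unfold XX
  rw [lintegral_lintegral_swap (h.measurable_HH γ M).ennreal_ofReal.aemeasurable]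
  have hb : ∀ θ : ℝ, ∫⁻ ω, ENNReal.ofReal (HH P ξ γ M ω θ) ∂P ≤
      ENNReal.ofReal (1 + γ ^ 2 / 2) * ENNReal.ofReal (Real.exp (dd P ξ (2 * |γ|))) +
      ENNReal.ofReal |γ| * (ENNReal.ofReal (Real.exp ((1 + |γ|) / 2 + dd P ξ (|γ| + 1))) +
        ENNReal.ofReal (Real.exp ((1 + |γ|) / 2 + dd P ξ (|γ| + 1)))) := by
    intro θ
    have m0 : Measurable (fun ω => EE P ξ γ M ω (ee θ)) := by
      have e : Measurable (fun ω : Ω => ((ω, ee θ) : Ω × ℂ)) := measurable_id.prodMk measurable_const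
      have e2 := (h.measurable_EE γ M).comp e
      exact e2
    have mY : Measurable (fun ω => YY ξ M ω θ) := by
      unfold YY
      exact Finset.measurable_sum _ fun k _ => h.measurable_LL_xi k _
    have e1 : ∀ ω, ENNReal.ofReal (HH P ξ γ M ω θ) =
        ENNReal.ofReal (1 + γ ^ 2 / 2) * ENNReal.ofReal (Real.exp (EE P ξ γ M ω (ee θ))) +
        ENNReal.ofReal |γ| * (ENNReal.ofReal (Real.exp (EE P ξ γ M ω (ee θ) + YY ξ M ω θ)) +
          ENNReal.ofReal (Real.exp (EE P ξ γ M ω (ee θ) - YY ξ M ω θ))) := by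
      intro ω
      unfold HH
      rw [← ENNReal.ofReal_mul (by positivity), ← ENNReal.ofReal_add (by positivity) (by positivity),
        ← ENNReal.ofReal_mul (by positivity), ← ENNReal.ofReal_add (by positivity) (by positivity)]
    simp only [e1]
    have mS : Measurable (fun ω => ENNReal.ofReal (Real.exp (EE P ξ γ M ω (ee θ) + YY ξ M ω θ))) :=
      (m0.add mY).exp.ennreal_ofReal
    rw [lintegral_add_left (m0.exp.ennreal_ofReal.const_mul _), lintegral_const_mul' _ _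
      ENNReal.ofReal_ne_top, lintegral_const_mul' _ _ ENNReal.ofReal_ne_top,
      lintegral_add_left mS]
    have b1 := h.moment_one γ 0 (by simp) 0 M (Nat.zero_le M) (ee θ) (norm_ee θ)
    have b2 := h.moment_shift γ M hM 1 (by simp) θ
    have b3 := h.moment_shift γ M hM (-1) (by simp) θ
    simp only [zero_mul, add_zero, Finset.range_zero, Finset.sum_empty, mul_zero, zero_add] at b1
    simp only [one_mul] at b2
    have e3 : ∀ ω, EE P ξ γ M ω (ee θ) + -1 * YY ξ M ω θ = EE P ξ γ M ω (ee θ) - YY ξ M ω θ := by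
      intro ω; ring
    simp only [e3] at b3
    gcongr
  refine (lintegral_mono hb).trans ?_
  rw [lintegral_const, Measure.restrict_apply MeasurableSet.univ, univ_inter, Real.volume_Ioc,
    sub_zero]
  unfold CX
  exact le_rfl

/-- Almost surely the majorant grows at most like `2^{ε m}` along powers of two. -/
lemma Hyp.ae_XX (h : Hyp P ξ) (γ ε : ℝ) (hε : 0 < ε) :
    ∀ᵐ ω ∂P, ∃ C : ℝ, 0 ≤ C ∧ ∀ m : ℕ,
      ∫ θ in (0 : ℝ)..(2 * Real.pi), HH P ξ γ (2 ^ m) ω θ ≤ C * (2 ^ ε) ^ m := by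
  have hq : (2 : ℝ) ^ (-ε) < 1 := Real.rpow_lt_one_of_one_lt_of_neg (by norm_num) (by linarith)
  have h1 := ae_tsum_ne_top (P := P) (fun m ω => ENNReal.ofReal ((2 ^ (-ε)) ^ m) * XX P ξ γ (2 ^ m) ω)
    (fun m => (h.measurable_XX γ _).const_mul _) (by
      have hle : ∀ m : ℕ, ∫⁻ ω, ENNReal.ofReal ((2 ^ (-ε)) ^ m) * XX P ξ γ (2 ^ m) ω ∂P
          ≤ ENNReal.ofReal ((2 ^ (-ε)) ^ m) * CX P ξ γ := by
        intro m
        rw [lintegral_const_mul' _ _ ENNReal.ofReal_ne_top]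
        gcongr
        exact h.lintegral_XX_le γ _ Nat.one_le_two_pow
      refine ne_top_of_le_ne_top ?_ (ENNReal.tsum_le_tsum hle)
      rw [ENNReal.tsum_mul_right]
      apply ENNReal.mul_ne_top _ (CX_ne_top γ)
      rw [← ENNReal.ofReal_tsum_of_nonneg (fun m => by positivity)
        (summable_geometric_of_lt_one (by positivity) hq)]
      exact ENNReal.ofReal_ne_top)
  filter_upwards [h1] with ω hω
  refine ⟨(∑' m, ENNReal.ofReal ((2 ^ (-ε)) ^ m) * XX P ξ γ (2 ^ m) ω).toReal,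
    ENNReal.toReal_nonneg, fun m => ?_⟩
  have h2 := ENNReal.le_tsum (f := fun m => ENNReal.ofReal ((2 ^ (-ε)) ^ m) * XX P ξ γ (2 ^ m) ω) m
  rw [← h.XX_eq, ← ENNReal.ofReal_mul (by positivity)] at h2
  have h3 := ENNReal.toReal_mono hω h2
  have hInn : 0 ≤ ∫ θ in (0 : ℝ)..(2 * Real.pi), HH P ξ γ (2 ^ m) ω θ :=
    intervalIntegral.integral_nonneg (by positivity) fun θ _ => HH_nonneg γ _ ω θ
  rw [ENNReal.toReal_ofReal (by positivity)] at h3
  have h4 : (2 : ℝ) ^ (-ε) = (2 ^ ε)⁻¹ := Real.rpow_neg (by norm_num) ε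
  rw [h4, inv_pow] at h3
  have hpos : (0 : ℝ) < (2 ^ ε) ^ m := by positivity
  rw [inv_mul_le_iff₀ hpos] at h3
  rw [h4] at *
  linarith [h3]

end Pool.Agent.Y977.CH
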