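import Pool.Agent.Y977.CH.Geo

/-!
The truncated chaos density and its exponential moments.
-/

open MeasureTheory ProbabilityTheory Filter Topology Set
open scoped ENNReal NNReal

namespace Pool.Agent.Y977.CH

open Pool.Agent.Results.MP_ab74d4_pr.ChaosConvergence

variable {Ω : Type*} {mΩ : MeasurableSpace Ω}

lemma LL_smul (k : ℕ) (r : ℝ) (u c : ℂ) : LL k ((r : ℂ) * u) c = r * LL k u c := by
  unfold LL
  rw [show tr k c * ((r : ℂ) * u) = (r : ℂ) * (tr k c * u) by ring, Complex.re_ofReal_mul]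
  ring

lemma LL_add (k : ℕ) (u v c : ℂ) : LL k (u + v) c = LL k u c + LL k v c := by
  unfold LL
  rw [mul_add, Complex.add_re, add_div]

/-- The exponent of the truncated density. -/
noncomputable def EE (P : Measure Ω) (ξ : ℕ → Ω → ℂ) (γ : ℝ) (n : ℕ) (ω : Ω) (z : ℂ) : ℝ :=
  ∑ k ∈ Finset.range n, (γ * LL k (z ^ (k + 1)) (ξ k ω) - γ ^ 2 / 2 * qq P ξ k (z ^ (k + 1)))

/-- The truncated density. -/
noncomputable def DD (P : Measure Ω) (ξ : ℕ → Ω → ℂ) (γ : ℝ) (n : ℕ) (ω : Ω) (z : S1) : ℝ≥0∞ :=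
  ENNReal.ofReal (Real.exp (EE P ξ γ n ω z))

/-- Total error in the moment bounds. -/
noncomputable def dd (P : Measure Ω) (ξ : ℕ → Ω → ℂ) (B : ℝ) : ℝ := ∑' k, dl P ξ B k

variable {P : Measure Ω} {ξ : ℕ → Ω → ℂ}

lemma continuous_LL (k : ℕ) (c : ℂ) : Continuous (fun u => LL k u c) := by
  unfold LL
  fun_prop

lemma Hyp.continuous_qq (h : Hyp P ξ) (k : ℕ) : Continuous (fun u => qq P ξ k u) := by
  have : (fun u => qq P ξ k u) = fun u => (‖u‖ ^ 2 + (bet P ξ * u ^ 2).re) / 2 / ((k : ℝ) + 1) := by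
    funext u; exact h.qq_eq k u
  rw [this]
  fun_prop

lemma Hyp.continuous_EE (h : Hyp P ξ) (γ : ℝ) (n : ℕ) (ω : Ω) :
    Continuous (fun z : ℂ => EE P ξ γ n ω z) := by
  unfold EE
  apply continuous_finsetSum
  intro k _
  have h1 : Continuous (fun z : ℂ => LL k (z ^ (k + 1)) (ξ k ω)) :=
    (continuous_LL k (ξ k ω)).comp (continuous_pow (k + 1))
  have h2 : Continuous (fun z : ℂ => qq P ξ k (z ^ (k + 1))) :=
    (h.continuous_qq k).comp (continuous_pow (k + 1))
  exact (continuous_const.mul h1).sub (continuous_const.mul h2)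

lemma Hyp.measurable_EE (h : Hyp P ξ) (γ : ℝ) (n : ℕ) :
    Measurable (fun p : Ω × ℂ => EE P ξ γ n p.1 p.2) := by
  unfold EE
  apply Finset.measurable_sum
  intro k _
  have h1 : Measurable (fun p : Ω × ℂ => LL k (p.2 ^ (k + 1)) (ξ k p.1)) := by
    unfold LL
    have e1 : Measurable (fun p : Ω × ℂ => tr k (ξ k p.1)) :=
      ((measurable_tr k).comp (h.meas k)).comp measurable_fst
    have e2 : Measurable (fun p : Ω × ℂ => p.2 ^ (k + 1)) := measurable_snd.pow_const _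
    exact (Complex.measurable_re.comp (e1.mul e2)).div_const _
  have h2 : Measurable (fun p : Ω × ℂ => qq P ξ k (p.2 ^ (k + 1))) :=
    ((h.continuous_qq k).comp (continuous_pow (k + 1))).measurable.comp measurable_snd
  exact (h1.const_mul γ).sub (h2.const_mul _)

lemma Hyp.measurable_EE' (h : Hyp P ξ) (γ : ℝ) (n : ℕ) :
    Measurable (fun p : Ω × S1 => EE P ξ γ n p.1 (p.2 : ℂ)) := by
  have e : Measurable (fun p : Ω × S1 => ((p.1, (p.2 : ℂ)) : Ω × ℂ)) :=
    measurable_fst.prodMk (measurable_subtype_coe.comp measurable_snd)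
  have e2 := (h.measurable_EE γ n).comp e
  exact e2

lemma Hyp.continuous_EE' (h : Hyp P ξ) (γ : ℝ) (n : ℕ) (ω : Ω) :
    Continuous (fun z : S1 => EE P ξ γ n ω z) :=
  (h.continuous_EE γ n ω).comp continuous_subtype_val

lemma Hyp.measurable_DD (h : Hyp P ξ) (γ : ℝ) (n : ℕ) :
    Measurable (fun p : Ω × S1 => DD P ξ γ n p.1 p.2) :=
  (h.measurable_EE' γ n).exp.ennreal_ofReal

lemma Hyp.measurable_DD_left (h : Hyp P ξ) (γ : ℝ) (n : ℕ) (z : S1) :
    Measurable (fun ω => DD P ξ γ n ω z) := by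
  have e : Measurable (fun ω : Ω => ((ω, z) : Ω × S1)) := measurable_id.prodMk measurable_const
  have e2 := (h.measurable_DD γ n).comp e
  exact e2

lemma Hyp.measurable_DD_right (h : Hyp P ξ) (γ : ℝ) (n : ℕ) (ω : Ω) :
    Measurable (fun z => DD P ξ γ n ω z) := by
  have e : Measurable (fun z : S1 => ((ω, z) : Ω × S1)) := measurable_const.prodMk measurable_id
  have e2 := (h.measurable_DD γ n).comp e
  exact e2

lemma Hyp.moment_general (h : Hyp P ξ) (s : Finset ℕ) (u : ℕ → ℂ) (c : ℕ → ℝ) (B : ℝ)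
    (hu : ∀ k ∈ s, ‖u k‖ ≤ B) :
    ∫⁻ ω, ENNReal.ofReal (Real.exp (∑ k ∈ s, (LL k (u k) (ξ k ω) - c k))) ∂P
      ≤ ENNReal.ofReal (Real.exp (∑ k ∈ s, (qq P ξ k (u k) / 2 - c k) + dd P ξ B)) := by
  have e1 : ∀ ω, ENNReal.ofReal (Real.exp (∑ k ∈ s, (LL k (u k) (ξ k ω) - c k)))
      = ENNReal.ofReal (Real.exp (-∑ k ∈ s, c k)) *
        ENNReal.ofReal (Real.exp (∑ k ∈ s, LL k (u k) (ξ k ω))) := by
    intro ω
    rw [← ENNReal.ofReal_mul (Real.exp_pos _).le, ← Real.exp_add, Finset.sum_sub_distrib]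
    congr 2
    ring
  simp only [e1]
  rw [lintegral_const_mul' _ _ ENNReal.ofReal_ne_top]
  calc ENNReal.ofReal (Real.exp (-∑ k ∈ s, c k)) *
        ∫⁻ ω, ENNReal.ofReal (Real.exp (∑ k ∈ s, LL k (u k) (ξ k ω))) ∂P
      ≤ ENNReal.ofReal (Real.exp (-∑ k ∈ s, c k)) *
        ENNReal.ofReal (Real.exp (∑ k ∈ s, (qq P ξ k (u k) / 2 + dl P ξ B k))) := by
        gcongr
        exact h.lintegral_exp_sum_le s u B hu
    _ = ENNReal.ofReal (Real.exp (-∑ k ∈ s, c k + ∑ k ∈ s, (qq P ξ k (u k) / 2 + dl P ξ B k))) := by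
        rw [← ENNReal.ofReal_mul (Real.exp_pos _).le, ← Real.exp_add]
    _ ≤ _ := by
        apply ENNReal.ofReal_le_ofReal
        apply Real.exp_le_exp.mpr
        rw [Finset.sum_add_distrib, Finset.sum_sub_distrib]
        have := h.sum_dl_le s B
        unfold dd
        linarith

/-- One point tilted moment. -/
lemma Hyp.moment_one (h : Hyp P ξ) (γ t : ℝ) (ht : |t| ≤ 1) (M n : ℕ) (hMn : M ≤ n) (z : ℂ)
    (hz : ‖z‖ = 1) :
    ∫⁻ ω, ENNReal.ofReal (Real.exp (EE P ξ γ n ω z + t * EE P ξ γ M ω z)) ∂P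
      ≤ ENNReal.ofReal (Real.exp (γ ^ 2 / 2 * (t + t ^ 2) *
        ∑ k ∈ Finset.range M, qq P ξ k (z ^ (k + 1)) + dd P ξ (2 * |γ|))) := by
  set r : ℕ → ℝ := fun k => if k < M then 1 + t else 1 with hr
  have hsplit : ∀ f : ℕ → ℝ, ∑ k ∈ Finset.range n, r k * f k =
      ∑ k ∈ Finset.range n, f k + t * ∑ k ∈ Finset.range M, f k := by
    intro f
    have h1 : ∑ k ∈ Finset.range M, f k = ∑ k ∈ Finset.range n, if k < M then f k else 0 := by
      rw [← Finset.sum_filter]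
      congr 1
      ext k
      simp only [Finset.mem_range, Finset.mem_filter]
      omega
    rw [h1, Finset.mul_sum, ← Finset.sum_add_distrib]
    apply Finset.sum_congr rfl
    intro k _
    simp only [hr]
    split_ifs <;> ring
  have e1 : ∀ ω, EE P ξ γ n ω z + t * EE P ξ γ M ω z = ∑ k ∈ Finset.range n,
      (LL k (((γ * r k : ℝ) : ℂ) * z ^ (k + 1)) (ξ k ω) - γ ^ 2 / 2 * r k * qq P ξ k (z ^ (k + 1))) := by
    intro ω
    unfold EE
    rw [← hsplit]
    apply Finset.sum_congr rfl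
    intro k _
    rw [LL_smul]
    ring
  simp only [e1]
  refine (h.moment_general (Finset.range n) (fun k => ((γ * r k : ℝ) : ℂ) * z ^ (k + 1))
    (fun k => γ ^ 2 / 2 * r k * qq P ξ k (z ^ (k + 1))) (2 * |γ|) ?_).trans ?_
  · intro k _
    rw [norm_mul, norm_pow, hz, one_pow, mul_one, Complex.norm_real, Real.norm_eq_abs, abs_mul,
      mul_comm]
    have : |r k| ≤ 2 := by
      simp only [hr]
      split_ifs
      · rw [abs_le] at ht ⊢
        constructor <;> linarith [ht.1, ht.2]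
      · norm_num
    gcongr
  · apply ENNReal.ofReal_le_ofReal
    apply Real.exp_le_exp.mpr
    gcongr
    have e2 : ∀ k, qq P ξ k (((γ * r k : ℝ) : ℂ) * z ^ (k + 1)) / 2 -
        γ ^ 2 / 2 * r k * qq P ξ k (z ^ (k + 1))
        = if k < M then γ ^ 2 / 2 * (t + t ^ 2) * qq P ξ k (z ^ (k + 1)) else 0 := by
      intro k
      rw [h.qq_smul]
      simp only [hr]
      split_ifs <;> ring
    simp only [e2]
    rw [← Finset.sum_filter, Finset.mul_sum]
    apply le_of_eq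
    apply Finset.sum_congr _ (fun _ _ => rfl)
    ext k
    simp only [Finset.mem_range, Finset.mem_filter]
    omega

/-- Two point moment with one field removed up to level `M`. -/
lemma Hyp.moment_two (h : Hyp P ξ) (γ : ℝ) (M n : ℕ) (hMn : M ≤ n) (z w : ℂ)
    (hz : ‖z‖ = 1) (hw : ‖w‖ = 1) :
    ∫⁻ ω, ENNReal.ofReal (Real.exp (EE P ξ γ n ω z + EE P ξ γ n ω w - EE P ξ γ M ω z)) ∂P
      ≤ ENNReal.ofReal (Real.exp (∑ k ∈ Finset.Ico M n,
        (qq P ξ k ((γ : ℂ) * (z ^ (k + 1) + w ^ (k + 1))) / 2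
        - γ ^ 2 / 2 * (qq P ξ k (z ^ (k + 1)) + qq P ξ k (w ^ (k + 1)))) + dd P ξ (2 * |γ|))) := by
  set u : ℕ → ℂ := fun k => if k < M then (γ : ℂ) * w ^ (k + 1) else
    (γ : ℂ) * (z ^ (k + 1) + w ^ (k + 1)) with hu
  set c : ℕ → ℝ := fun k => if k < M then γ ^ 2 / 2 * qq P ξ k (w ^ (k + 1)) else
    γ ^ 2 / 2 * (qq P ξ k (z ^ (k + 1)) + qq P ξ k (w ^ (k + 1))) with hc
  have e1 : ∀ ω, EE P ξ γ n ω z + EE P ξ γ n ω w - EE P ξ γ M ω z = ∑ k ∈ Finset.range n,
      (LL k (u k) (ξ k ω) - c k) := by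
    intro ω
    unfold EE
    have h1 : ∀ f : ℕ → ℝ, ∑ k ∈ Finset.range M, f k
        = ∑ k ∈ Finset.range n, if k < M then f k else 0 := by
      intro f
      rw [← Finset.sum_filter]
      congr 1
      ext k
      simp only [Finset.mem_range, Finset.mem_filter]
      omega
    rw [h1, ← Finset.sum_add_distrib, ← Finset.sum_sub_distrib]
    apply Finset.sum_congr rfl
    intro k _
    simp only [hu, hc]
    split_ifs
    · rw [LL_smul]; ring
    · rw [LL_smul, LL_add]; ring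
  simp only [e1]
  refine (h.moment_general (Finset.range n) u c (2 * |γ|) ?_).trans ?_
  · intro k _
    simp only [hu]
    split_ifs
    · rw [norm_mul, norm_pow, hw, one_pow, mul_one, Complex.norm_real, Real.norm_eq_abs]
      linarith [abs_nonneg γ]
    · rw [norm_mul, Complex.norm_real, Real.norm_eq_abs, mul_comm]
      have h1 : ‖z ^ (k + 1) + w ^ (k + 1)‖ ≤ 2 := by
        refine (norm_add_le _ _).trans ?_
        rw [norm_pow, norm_pow, hz, hw]
        norm_num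
      gcongr
  · apply ENNReal.ofReal_le_ofReal
    apply Real.exp_le_exp.mpr
    gcongr
    rw [← Nat.Ico_zero_eq_range, ← Finset.sum_Ico_consecutive _ (Nat.zero_le M) hMn]
    have h1 : ∑ k ∈ Finset.Ico 0 M, (qq P ξ k (u k) / 2 - c k) = 0 := by
      apply Finset.sum_eq_zero
      intro k hk
      have hk' : k < M := (Finset.mem_Ico.mp hk).2
      simp only [hu, hc, if_pos hk']
      rw [h.qq_smul]
      ring
    rw [h1, zero_add]
    apply le_of_eq
    apply Finset.sum_congr rfl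
    intro k hk
    have hk' : ¬ k < M := not_lt.mpr (Finset.mem_Ico.mp hk).1
    simp only [hu, hc, if_neg hk']

end Pool.Agent.Y977.CH
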