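import Pool.Agent.Y977.CH.Dens

/-!
Control of the oscillation of the truncated density: number of arcs of length `2π/M` on which the
density at level `M` is large somewhere.
-/

open MeasureTheory ProbabilityTheory Filter Topology Set
open scoped ENNReal NNReal

namespace Pool.Agent.Y977.CH

open Pool.Agent.Results.MP_ab74d4_pr.ChaosConvergence

variable {Ω : Type*} {mΩ : MeasurableSpace Ω} {P : Measure Ω} {ξ : ℕ → Ω → ℂ}

/-- `e^{iθ}` as a complex number. -/
noncomputable def ee (θ : ℝ) : ℂ := Complex.exp (θ * Complex.I)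

lemma norm_ee (θ : ℝ) : ‖ee θ‖ = 1 := Complex.norm_exp_ofReal_mul_I θ

lemma hasDerivAt_ee_pow (k : ℕ) (θ : ℝ) :
    HasDerivAt (fun θ : ℝ => ee θ ^ (k + 1)) (Complex.I * ((k : ℂ) + 1) * ee θ ^ (k + 1)) θ := by
  have e : (fun θ : ℝ => ee θ ^ (k + 1)) =
      fun θ : ℝ => Complex.exp ((((k + 1 : ℕ) : ℂ) * Complex.I) * (θ : ℂ)) := by
    funext θ
    unfold ee
    rw [← Complex.exp_nat_mul]
    congr 1
    ring
  rw [e]
  have h1 : HasDerivAt (fun θ : ℝ => (((k + 1 : ℕ) : ℂ) * Complex.I) * (θ : ℂ))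
      ((((k + 1 : ℕ) : ℂ) * Complex.I) * 1) θ :=
    (Complex.ofRealCLM.hasDerivAt (x := θ)).const_mul _
  have h2 := h1.cexp
  refine h2.congr_deriv ?_
  rw [← congrFun e θ]
  push_cast
  ring

lemma hasDerivAt_re {f : ℝ → ℂ} {f' : ℂ} {x : ℝ} (hf : HasDerivAt f f' x) :
    HasDerivAt (fun x => (f x).re) f'.re x := by
  have h1 := (Complex.reCLM.hasFDerivAt (x := f x)).comp_hasDerivAt x hf
  exact h1

lemma hasDerivAt_LL (k : ℕ) (c : ℂ) (θ : ℝ) :
    HasDerivAt (fun θ : ℝ => LL k (ee θ ^ (k + 1)) c)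
      (LL k (Complex.I * ((k : ℂ) + 1) * ee θ ^ (k + 1)) c) θ := by
  unfold LL
  exact (hasDerivAt_re ((hasDerivAt_ee_pow k θ).const_mul (tr k c))).div_const _

lemma Hyp.hasDerivAt_qq (h : Hyp P ξ) (k : ℕ) (θ : ℝ) :
    HasDerivAt (fun θ : ℝ => qq P ξ k (ee θ ^ (k + 1)))
      ((bet P ξ * Complex.I * (ee θ ^ (k + 1)) ^ 2).re) θ := by
  have e : (fun θ : ℝ => qq P ξ k (ee θ ^ (k + 1))) = fun θ : ℝ =>
      (1 + (bet P ξ * (ee θ ^ (k + 1)) ^ 2).re) / 2 / ((k : ℝ) + 1) := by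
    funext θ
    rw [h.qq_eq, norm_pow, norm_ee, one_pow, one_pow]
  rw [e]
  have h1 := (((hasDerivAt_re (((hasDerivAt_ee_pow k θ).pow 2).const_mul (bet P ξ))).const_add 1).div_const
    2).div_const ((k : ℝ) + 1)
  refine h1.congr_deriv ?_
  have hk : ((k : ℝ) + 1) ≠ 0 := by positivity
  rw [show bet P ξ * (((2 : ℕ) : ℂ) * (ee θ ^ (k + 1)) ^ (2 - 1) *
    (Complex.I * ((k : ℂ) + 1) * ee θ ^ (k + 1))) =
      ((2 * ((k : ℝ) + 1) : ℝ) : ℂ) * (bet P ξ * Complex.I * (ee θ ^ (k + 1)) ^ 2) by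
        push_cast; simp only [pow_one]; ring, Complex.re_ofReal_mul]
  field_simp

/-- derivative of the exponent -/
noncomputable def EEd (P : Measure Ω) (ξ : ℕ → Ω → ℂ) (γ : ℝ) (M : ℕ) (ω : Ω) (θ : ℝ) : ℝ :=
  ∑ k ∈ Finset.range M, (γ * LL k (Complex.I * ((k : ℂ) + 1) * ee θ ^ (k + 1)) (ξ k ω) -
    γ ^ 2 / 2 * (bet P ξ * Complex.I * (ee θ ^ (k + 1)) ^ 2).re)

lemma Hyp.hasDerivAt_EE (h : Hyp P ξ) (γ : ℝ) (M : ℕ) (ω : Ω) (θ : ℝ) :
    HasDerivAt (fun θ : ℝ => EE P ξ γ M ω (ee θ)) (EEd P ξ γ M ω θ) θ := by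
  unfold EE EEd
  apply HasDerivAt.fun_sum
  intro k _
  exact ((hasDerivAt_LL k (ξ k ω) θ).const_mul γ).sub ((h.hasDerivAt_qq k θ).const_mul _)

/-- the auxiliary field -/
noncomputable def YY (ξ : ℕ → Ω → ℂ) (M : ℕ) (ω : Ω) (θ : ℝ) : ℝ :=
  ∑ k ∈ Finset.range M, LL k (((((k : ℝ) + 1) / M : ℝ) : ℂ) * Complex.I * ee θ ^ (k + 1)) (ξ k ω)

lemma Hyp.abs_EEd_le (h : Hyp P ξ) (γ : ℝ) (M : ℕ) (hM : 1 ≤ M) (ω : Ω) (θ : ℝ) :
    |EEd P ξ γ M ω θ| ≤ M * (|γ| * |YY ξ M ω θ| + γ ^ 2 / 2) := by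
  have hMpos : (0 : ℝ) < M := by exact_mod_cast hM
  unfold EEd
  rw [Finset.sum_sub_distrib, ← Finset.mul_sum, ← Finset.mul_sum]
  have e1 : ∑ k ∈ Finset.range M, LL k (Complex.I * ((k : ℂ) + 1) * ee θ ^ (k + 1)) (ξ k ω)
      = M * YY ξ M ω θ := by
    unfold YY
    rw [Finset.mul_sum]
    apply Finset.sum_congr rfl
    intro k _
    rw [← LL_smul]
    congr 1
    push_cast
    have : (M : ℂ) ≠ 0 := by exact_mod_cast hMpos.ne'
    field_simp
  have e2 : |∑ k ∈ Finset.range M, (bet P ξ * Complex.I * (ee θ ^ (k + 1)) ^ 2).re| ≤ M := by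
    refine (Finset.abs_sum_le_sum_abs _ _).trans ?_
    calc ∑ k ∈ Finset.range M, |(bet P ξ * Complex.I * (ee θ ^ (k + 1)) ^ 2).re|
        ≤ ∑ _k ∈ Finset.range M, (1 : ℝ) := by
          apply Finset.sum_le_sum
          intro k _
          refine (Complex.abs_re_le_norm _).trans ?_
          rw [norm_mul, norm_mul, norm_pow, norm_pow, norm_ee, Complex.norm_I]
          simpa using h.norm_bet_le
      _ = M := by simp
  rw [e1]
  calc |γ * (M * YY ξ M ω θ) - γ ^ 2 / 2 * _| ≤ |γ * (M * YY ξ M ω θ)| + |γ ^ 2 / 2 * _| := abs_sub _ _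
    _ ≤ |γ| * (M * |YY ξ M ω θ|) + γ ^ 2 / 2 * M := by
        rw [abs_mul, abs_mul (M : ℝ), abs_of_pos hMpos, abs_mul (γ ^ 2 / 2),
          abs_of_nonneg (by positivity : (0 : ℝ) ≤ γ ^ 2 / 2)]
        gcongr
    _ = M * (|γ| * |YY ξ M ω θ| + γ ^ 2 / 2) := by ring

/-- The majorant. -/
noncomputable def HH (P : Measure Ω) (ξ : ℕ → Ω → ℂ) (γ : ℝ) (M : ℕ) (ω : Ω) (θ : ℝ) : ℝ :=
  (1 + γ ^ 2 / 2) * Real.exp (EE P ξ γ M ω (ee θ)) +
    |γ| * (Real.exp (EE P ξ γ M ω (ee θ) + YY ξ M ω θ) + Real.exp (EE P ξ γ M ω (ee θ) - YY ξ M ω θ))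

lemma continuous_ee : Continuous ee := by
  unfold ee
  fun_prop

lemma continuous_YY (M : ℕ) (ω : Ω) : Continuous (YY ξ M ω) := by
  unfold YY
  apply continuous_finsetSum
  intro k _
  have h1 : Continuous (fun θ : ℝ => ((((k : ℝ) + 1) / M : ℝ) : ℂ) * Complex.I * ee θ ^ (k + 1)) :=
    continuous_const.mul (continuous_ee.pow _)
  exact (continuous_LL k (ξ k ω)).comp h1

lemma Hyp.continuous_EEee (h : Hyp P ξ) (γ : ℝ) (M : ℕ) (ω : Ω) :
    Continuous (fun θ : ℝ => EE P ξ γ M ω (ee θ)) :=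
  (h.continuous_EE γ M ω).comp continuous_ee

lemma Hyp.continuous_HH (h : Hyp P ξ) (γ : ℝ) (M : ℕ) (ω : Ω) : Continuous (HH P ξ γ M ω) := by
  unfold HH
  have h1 := h.continuous_EEee γ M ω
  have h2 := continuous_YY (ξ := ξ) M ω
  exact (continuous_const.mul (Real.continuous_exp.comp h1)).add (continuous_const.mul
    ((Real.continuous_exp.comp (h1.add h2)).add (Real.continuous_exp.comp (h1.sub h2))))

lemma Hyp.continuous_EEd (h : Hyp P ξ) (γ : ℝ) (M : ℕ) (ω : Ω) : Continuous (EEd P ξ γ M ω) := by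
  unfold EEd
  apply continuous_finsetSum
  intro k _
  have h1 : Continuous (fun θ : ℝ => Complex.I * ((k : ℂ) + 1) * ee θ ^ (k + 1)) :=
    continuous_const.mul (continuous_ee.pow _)
  have h2 : Continuous (fun θ : ℝ => bet P ξ * Complex.I * (ee θ ^ (k + 1)) ^ 2) :=
    continuous_const.mul ((continuous_ee.pow _).pow _)
  exact (continuous_const.mul ((continuous_LL k (ξ k ω)).comp h1)).sub
    (continuous_const.mul (Complex.continuous_re.comp h2))

/-- `|f'| ≤ M (H - f)` for `f = exp E`. -/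
lemma Hyp.deriv_le (h : Hyp P ξ) (γ : ℝ) (M : ℕ) (hM : 1 ≤ M) (ω : Ω) (θ : ℝ) :
    |EEd P ξ γ M ω θ * Real.exp (EE P ξ γ M ω (ee θ))| ≤
      M * (HH P ξ γ M ω θ - Real.exp (EE P ξ γ M ω (ee θ))) := by
  rw [abs_mul, Real.abs_exp]
  have h1 := h.abs_EEd_le γ M hM ω θ
  set F := EE P ξ γ M ω (ee θ) with hF
  set Y := YY ξ M ω θ with hY
  have h2 : |Y| * Real.exp F ≤ Real.exp (F + Y) + Real.exp (F - Y) := by
    have h3 : |Y| ≤ Real.exp Y + Real.exp (-Y) := by
      rw [abs_le]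
      have a1 := Real.add_one_le_exp Y
      have a2 := Real.add_one_le_exp (-Y)
      have a3 := Real.exp_pos Y
      have a4 := Real.exp_pos (-Y)
      constructor <;> linarith
    calc |Y| * Real.exp F ≤ (Real.exp Y + Real.exp (-Y)) * Real.exp F := by gcongr
      _ = Real.exp (F + Y) + Real.exp (F - Y) := by
          rw [add_mul, ← Real.exp_add, ← Real.exp_add]
          congr 2 <;> ring
  calc |EEd P ξ γ M ω θ| * Real.exp F ≤ (M * (|γ| * |Y| + γ ^ 2 / 2)) * Real.exp F := by gcongr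
    _ = M * (|γ| * (|Y| * Real.exp F) + γ ^ 2 / 2 * Real.exp F) := by ring
    _ ≤ M * (|γ| * (Real.exp (F + Y) + Real.exp (F - Y)) + γ ^ 2 / 2 * Real.exp F) := by gcongr
    _ = M * (HH P ξ γ M ω θ - Real.exp F) := by
        unfold HH
        rw [← hF, ← hY]
        ring

/-- Sup over a short interval. -/
lemma Hyp.sup_le (h : Hyp P ξ) (γ : ℝ) (M : ℕ) (hM : 1 ≤ M) (ω : Ω) (a c : ℝ)
    (hac : 1 ≤ M * (c - a)) (x : ℝ) (hx : x ∈ Icc a c) :
    Real.exp (EE P ξ γ M ω (ee x)) ≤ M * ∫ θ in a..c, HH P ξ γ M ω θ := by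
  have hMpos : (0 : ℝ) < M := by exact_mod_cast hM
  have hacpos : 0 < c - a := by
    by_contra hcon
    push Not at hcon
    nlinarith
  have hle : a ≤ c := by linarith
  set f : ℝ → ℝ := fun θ => Real.exp (EE P ξ γ M ω (ee θ)) with hf
  set f' : ℝ → ℝ := fun θ => EEd P ξ γ M ω θ * Real.exp (EE P ξ γ M ω (ee θ)) with hf'
  have hfc : Continuous f := Real.continuous_exp.comp (h.continuous_EEee γ M ω)
  have hf'c : Continuous f' := (h.continuous_EEd γ M ω).mul hfc
  have hHc := h.continuous_HH γ M ω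
  have hder : ∀ θ, HasDerivAt f (f' θ) θ := by
    intro θ
    have := (h.hasDerivAt_EE γ M ω θ).exp
    refine this.congr_deriv ?_
    simp only [hf']; ring
  set I : ℝ := ∫ θ in a..c, (M : ℝ) * (HH P ξ γ M ω θ - f θ) with hI
  have hgnn : ∀ θ, 0 ≤ (M : ℝ) * (HH P ξ γ M ω θ - f θ) := fun θ =>
    (abs_nonneg _).trans (h.deriv_le γ M hM ω θ)
  have hgc : Continuous (fun θ => (M : ℝ) * (HH P ξ γ M ω θ - f θ)) :=
    continuous_const.mul (hHc.sub hfc)
  have key : ∀ y ∈ Icc a c, f x ≤ f y + I := by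
    intro y hy
    have h1 : ∫ θ in y..x, f' θ = f x - f y :=
      intervalIntegral.integral_eq_sub_of_hasDerivAt (fun θ _ => hder θ) (hf'c.intervalIntegrable _ _)
    have h2 : |∫ θ in y..x, f' θ| ≤ I := by
      rw [← Real.norm_eq_abs]
      refine (intervalIntegral.norm_integral_le_integral_norm_uIoc).trans ?_
      rw [hI, intervalIntegral.integral_of_le hle]
      have hsub : uIoc y x ⊆ Ioc a c := by
        rw [uIoc]
        apply Ioc_subset_Ioc
        · exact le_min hy.1 hx.1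
        · exact max_le hy.2 hx.2
      have hint : IntegrableOn (fun θ => (M : ℝ) * (HH P ξ γ M ω θ - f θ)) (Ioc a c) :=
        (hgc.integrableOn_Icc).mono_set Ioc_subset_Icc_self
      refine le_trans ?_ (setIntegral_mono_set hint (ae_of_all _ hgnn) (hsub.eventuallyLE))
      apply setIntegral_mono_on
      · have : IntegrableOn (fun θ => ‖f' θ‖) (Icc a c) := hf'c.norm.integrableOn_Icc
        exact this.mono_set (hsub.trans Ioc_subset_Icc_self)
      · exact hint.mono_set hsub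
      · exact measurableSet_uIoc
      · intro θ _
        exact h.deriv_le γ M hM ω θ
    rw [h1] at h2
    have := (abs_le.mp h2).2
    linarith
  have h3 : (c - a) * f x ≤ ∫ θ in a..c, (f θ + I) := by
    have e : (c - a) * f x = ∫ _θ in a..c, f x := by
      rw [intervalIntegral.integral_const, smul_eq_mul]
    rw [e]
    apply intervalIntegral.integral_mono_on hle
    · exact intervalIntegrable_const
    · exact (hfc.add continuous_const).intervalIntegrable _ _
    · exact key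
  have h4 : ∫ θ in a..c, (f θ + I) = (∫ θ in a..c, f θ) + (c - a) * I := by
    rw [intervalIntegral.integral_add (hfc.intervalIntegrable _ _) intervalIntegrable_const,
      intervalIntegral.integral_const, smul_eq_mul]
  have h5 : I = M * (∫ θ in a..c, HH P ξ γ M ω θ) - M * ∫ θ in a..c, f θ := by
    rw [hI, intervalIntegral.integral_const_mul, intervalIntegral.integral_sub
      (hHc.intervalIntegrable _ _) (hfc.intervalIntegrable _ _)]
    ring
  have h6 : 0 ≤ ∫ θ in a..c, f θ := intervalIntegral.integral_nonneg hle fun θ _ => (Real.exp_pos _).le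
  rw [h4] at h3
  have h7 : f x ≤ (∫ θ in a..c, f θ) / (c - a) + I := by
    have h8 : f x ≤ ((∫ θ in a..c, f θ) + (c - a) * I) / (c - a) := by
      rw [le_div_iff₀ hacpos, mul_comm]; exact h3
    refine h8.trans (le_of_eq ?_)
    field_simp
  have h8 : (∫ θ in a..c, f θ) / (c - a) ≤ M * ∫ θ in a..c, f θ := by
    rw [div_le_iff₀ hacpos]
    nlinarith
  linarith

/-- Counting the arcs on which the density is large somewhere. -/
lemma Hyp.card_le (h : Hyp P ξ) (γ : ℝ) (M : ℕ) (hM : 1 ≤ M) (ω : Ω) (b : ℝ) (js : Finset ℕ)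
    (hjs : js ⊆ Finset.range M)
    (hj : ∀ j ∈ js, ∃ θ ∈ Icc (2 * Real.pi * j / M) (2 * Real.pi * (j + 1) / M),
      b ≤ EE P ξ γ M ω (ee θ)) :
    (js.card : ℝ) * Real.exp b ≤ M * ∫ θ in (0 : ℝ)..(2 * Real.pi), HH P ξ γ M ω θ := by
  have hMpos : (0 : ℝ) < M := by exact_mod_cast hM
  have hHc := h.continuous_HH γ M ω
  have hHnn : ∀ θ, 0 ≤ HH P ξ γ M ω θ := by
    intro θ
    unfold HH
    have := Real.exp_pos (EE P ξ γ M ω (ee θ))
    positivity
  set a : ℕ → ℝ := fun j => 2 * Real.pi * j / M with ha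
  have hstep : ∀ j : ℕ, a (j + 1) = 2 * Real.pi * (j + 1) / M := by
    intro j; simp only [ha]; push_cast; ring
  have hle : ∀ j : ℕ, a j ≤ a (j + 1) := by
    intro j
    rw [hstep]
    simp only [ha]
    have := Real.pi_pos
    gcongr
    linarith
  have h1 : ∀ j ∈ js, Real.exp b ≤ M * ∫ θ in (a j)..(a (j + 1)), HH P ξ γ M ω θ := by
    intro j hjm
    obtain ⟨θ, hθ, hbθ⟩ := hj j hjm
    refine (Real.exp_le_exp.mpr hbθ).trans ?_
    apply h.sup_le γ M hM ω (a j) (a (j + 1)) _ θ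
    · rw [hstep]; exact hθ
    · rw [hstep]
      simp only [ha]
      have : (M : ℝ) * (2 * Real.pi * (j + 1) / M - 2 * Real.pi * j / M) = 2 * Real.pi := by
        field_simp; ring
      rw [this]
      linarith [Real.pi_gt_three]
  calc (js.card : ℝ) * Real.exp b = ∑ _j ∈ js, Real.exp b := by rw [Finset.sum_const, nsmul_eq_mul]
    _ ≤ ∑ j ∈ js, M * ∫ θ in (a j)..(a (j + 1)), HH P ξ γ M ω θ := Finset.sum_le_sum h1
    _ ≤ ∑ j ∈ Finset.range M, M * ∫ θ in (a j)..(a (j + 1)), HH P ξ γ M ω θ := by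
        apply Finset.sum_le_sum_of_subset_of_nonneg hjs
        intro j _ _
        apply mul_nonneg hMpos.le
        exact intervalIntegral.integral_nonneg (hle j) fun θ _ => hHnn θ
    _ = M * ∫ θ in (a 0)..(a M), HH P ξ γ M ω θ := by
        rw [← Finset.mul_sum, intervalIntegral.sum_integral_adjacent_intervals]
        intro j _
        exact hHc.intervalIntegrable _ _
    _ = M * ∫ θ in (0 : ℝ)..(2 * Real.pi), HH P ξ γ M ω θ := by
        have e0 : a 0 = 0 := by simp [ha]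
        have eM : a M = 2 * Real.pi := by simp only [ha]; field_simp
        rw [e0, eM]

/-- Moment of the majorant. -/
lemma Hyp.moment_shift (h : Hyp P ξ) (γ : ℝ) (M : ℕ) (hM : 1 ≤ M) (s : ℝ) (hs : |s| = 1) (θ : ℝ) :
    ∫⁻ ω, ENNReal.ofReal (Real.exp (EE P ξ γ M ω (ee θ) + s * YY ξ M ω θ)) ∂P
      ≤ ENNReal.ofReal (Real.exp ((1 + |γ|) / 2 + dd P ξ (|γ| + 1))) := by
  have hMpos : (0 : ℝ) < M := by exact_mod_cast hM
  set r : ℕ → ℝ := fun k => s * (((k : ℝ) + 1) / M) with hr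
  have hrle : ∀ k ∈ Finset.range M, |r k| ≤ 1 := by
    intro k hk
    have hk' : (k : ℝ) + 1 ≤ M := by
      have := Finset.mem_range.mp hk
      exact_mod_cast this
    simp only [hr]
    rw [abs_mul, hs, one_mul, abs_of_nonneg (by positivity), div_le_one hMpos]
    exact hk'
  have e1 : ∀ ω, EE P ξ γ M ω (ee θ) + s * YY ξ M ω θ = ∑ k ∈ Finset.range M,
      (LL k (((γ : ℂ) + ((r k : ℝ) : ℂ) * Complex.I) * ee θ ^ (k + 1)) (ξ k ω)
        - γ ^ 2 / 2 * qq P ξ k (ee θ ^ (k + 1))) := by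
    intro ω
    unfold EE YY
    rw [Finset.mul_sum, ← Finset.sum_add_distrib]
    apply Finset.sum_congr rfl
    intro k _
    rw [add_mul, LL_add, LL_smul, ← LL_smul k s]
    simp only [hr]
    push_cast
    rw [show (s : ℂ) * (((k : ℂ) + 1) / M * Complex.I * ee θ ^ (k + 1)) =
      (s : ℂ) * (((k : ℂ) + 1) / M) * Complex.I * ee θ ^ (k + 1) by ring]
    ring
  simp only [e1]
  refine (h.moment_general (Finset.range M) _ _ (|γ| + 1) ?_).trans ?_
  · intro k hk
    rw [norm_mul, norm_pow, norm_ee, one_pow, mul_one]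
    refine (norm_add_le _ _).trans ?_
    rw [norm_mul, Complex.norm_I, mul_one, Complex.norm_real, Complex.norm_real, Real.norm_eq_abs,
      Real.norm_eq_abs]
    have := hrle k hk
    linarith
  · apply ENNReal.ofReal_le_ofReal
    apply Real.exp_le_exp.mpr
    gcongr
    calc ∑ k ∈ Finset.range M, (qq P ξ k (((γ : ℂ) + ((r k : ℝ) : ℂ) * Complex.I) * ee θ ^ (k + 1)) / 2
          - γ ^ 2 / 2 * qq P ξ k (ee θ ^ (k + 1)))
        ≤ ∑ _k ∈ Finset.range M, (1 + |γ|) / (2 * M) := by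
          apply Finset.sum_le_sum
          intro k hk
          rw [h.qq_eq, h.qq_eq, norm_mul, norm_pow, norm_ee, one_pow, mul_one, one_pow]
          have n1 : ‖(γ : ℂ) + ((r k : ℝ) : ℂ) * Complex.I‖ ^ 2 = γ ^ 2 + (r k) ^ 2 := by
            rw [← Complex.normSq_eq_norm_sq, Complex.normSq_add_mul_I]
          rw [n1]
          set B := bet P ξ * (ee θ ^ (k + 1)) ^ 2 with hB
          have n2 : bet P ξ * (((γ : ℂ) + ((r k : ℝ) : ℂ) * Complex.I) * ee θ ^ (k + 1)) ^ 2
              = ((γ ^ 2 - (r k) ^ 2 : ℝ) : ℂ) * B + ((2 * γ * r k : ℝ) : ℂ) * (Complex.I * B) := by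
            rw [hB]
            push_cast
            have := Complex.I_sq
            linear_combination (bet P ξ * (r k : ℂ) ^ 2 * (ee θ ^ (k + 1)) ^ 2) * this
          rw [n2, Complex.add_re, Complex.re_ofReal_mul, Complex.re_ofReal_mul]
          have nB : ‖B‖ ≤ 1 := by
            rw [hB, norm_mul, norm_pow, norm_pow, norm_ee]
            simpa using h.norm_bet_le
          have nB1 : |B.re| ≤ 1 := (Complex.abs_re_le_norm _).trans nB
          have nB2 : |(Complex.I * B).re| ≤ 1 := by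
            refine (Complex.abs_re_le_norm _).trans ?_
            rw [norm_mul, Complex.norm_I, one_mul]; exact nB
          have hk1 : (0 : ℝ) < (k : ℝ) + 1 := by positivity
          have hr1 := hrle k hk
          have hr2 : (r k) ^ 2 ≤ |r k| := by
            rw [← sq_abs]
            nlinarith [abs_nonneg (r k)]
          have hrk : |r k| / ((k : ℝ) + 1) = 1 / M := by
            simp only [hr]
            rw [abs_mul, hs, one_mul, abs_of_nonneg (by positivity)]
            field_simp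
          have t1 : -(r k) ^ 2 * B.re ≤ |r k| := by
            have a1 : -(r k) ^ 2 * B.re ≤ |(r k) ^ 2 * B.re| := by
              rw [neg_mul]; exact neg_le_abs _
            rw [abs_mul, abs_of_nonneg (sq_nonneg (r k))] at a1
            have a2 : (r k) ^ 2 * |B.re| ≤ (r k) ^ 2 * 1 := by gcongr
            linarith
          have t2 : 2 * γ * r k * (Complex.I * B).re ≤ 2 * |γ| * |r k| := by
            have a1 := le_abs_self (2 * γ * r k * (Complex.I * B).re)
            rw [abs_mul, abs_mul, abs_mul, abs_of_pos (by norm_num : (0 : ℝ) < 2)] at a1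
            have a2 : 2 * |γ| * |r k| * |(Complex.I * B).re| ≤ 2 * |γ| * |r k| * 1 := by gcongr
            linarith
          have e3 : (γ ^ 2 + (r k) ^ 2 + ((γ ^ 2 - (r k) ^ 2) * B.re +
              2 * γ * r k * (Complex.I * B).re)) / 2 / ((k : ℝ) + 1) / 2 -
              γ ^ 2 / 2 * ((1 + B.re) / 2 / ((k : ℝ) + 1))
              = ((r k) ^ 2 + (-(r k) ^ 2 * B.re) + 2 * γ * r k * (Complex.I * B).re) / 4 / ((k : ℝ) + 1) := by
            field_simp
            ring
          rw [e3]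
          calc ((r k) ^ 2 + (-(r k) ^ 2 * B.re) + 2 * γ * r k * (Complex.I * B).re) / 4 / ((k : ℝ) + 1)
              ≤ (|r k| + |r k| + 2 * |γ| * |r k|) / 4 / ((k : ℝ) + 1) := by gcongr
            _ = (1 + |γ|) / 2 * (|r k| / ((k : ℝ) + 1)) := by ring
            _ = (1 + |γ|) / (2 * M) := by rw [hrk]; field_simp
      _ = (1 + |γ|) / 2 := by
          rw [Finset.sum_const, Finset.card_range, nsmul_eq_mul]
          field_simp

end Pool.Agent.Y977.CH
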