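import Pool.Agent.Y977.CH.Link

/-!
Almost sure bounds for the dimension of the limit measure.
-/

open MeasureTheory ProbabilityTheory Filter Topology Set
open scoped ENNReal NNReal

namespace Pool.Agent.Y977.CH

open Pool.Agent.Results.MP_ab74d4_pr.ChaosConvergence

variable {Ω : Type*} {mΩ : MeasurableSpace Ω} {P : Measure Ω} {ξ : ℕ → Ω → ℂ}

lemma lintegral_liminf_le_const (f : ℕ → Ω → ℝ≥0∞) (hf : ∀ n, Measurable (f n)) (c : ℝ≥0∞) (N : ℕ)
    (hb : ∀ n, N ≤ n → ∫⁻ ω, f n ω ∂P ≤ c) : ∫⁻ ω, liminf (fun n => f n ω) atTop ∂P ≤ c := by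
  refine (lintegral_liminf_le hf).trans ?_
  refine (liminf_le_limsup).trans ?_
  refine limsup_le_of_le (by isBoundedDefault) ?_
  filter_upwards [eventually_ge_atTop N] with n hn
  exact hb n hn

lemma sq_liminf (u : ℕ → ℝ≥0∞) : (liminf u atTop) ^ 2 = liminf (fun n => u n ^ 2) atTop := by
  have hmono : Monotone (fun x : ℝ≥0∞ => x ^ 2) := fun a b hab => by
    show a ^ 2 ≤ b ^ 2
    gcongr
  have hc : ContinuousAt (fun x : ℝ≥0∞ => x ^ 2) (liminf u atTop) :=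
    (ENNReal.continuous_pow 2).continuousAt
  have := hmono.map_liminf_of_continuousAt u hc
  rw [this]
  rfl

lemma harmonic_bounds (m : ℕ) : (m : ℝ) * Real.log 2 ≤ ∑ k ∈ Finset.range (2 ^ m), 1 / ((k : ℝ) + 1) ∧
    ∑ k ∈ Finset.range (2 ^ m), 1 / ((k : ℝ) + 1) ≤ m * Real.log 2 + 1 := by
  have e : ((harmonic (2 ^ m) : ℚ) : ℝ) = ∑ k ∈ Finset.range (2 ^ m), 1 / ((k : ℝ) + 1) := by
    unfold harmonic
    push_cast
    apply Finset.sum_congr rfl
    intro k _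
    rw [one_div]
  rw [← e]
  constructor
  · have h1 := log_add_one_le_harmonic (2 ^ m)
    refine le_trans ?_ h1
    rw [← Real.log_pow]
    apply Real.log_le_log (by positivity)
    push_cast
    linarith
  · have h1 := harmonic_le_one_add_log (2 ^ m)
    refine h1.trans ?_
    push_cast
    rw [Real.log_pow]
    linarith

/-- The integrand restricted to a random set depending on the level `M` density. -/
noncomputable def FF (P : Measure Ω) (ξ : ℕ → Ω → ℂ) (γ : ℝ) (t b : ℝ) (M n : ℕ) (ω : Ω) (z : S1) :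
    ℝ≥0∞ :=
  {z : S1 | 0 < t * (EE P ξ γ M ω z - b)}.indicator (fun z => DD P ξ γ n ω z) z

lemma Hyp.measurable_FF (h : Hyp P ξ) (γ t b : ℝ) (M n : ℕ) :
    Measurable (fun q : Ω × S1 => FF P ξ γ t b M n q.1 q.2) := by
  have e : (fun q : Ω × S1 => FF P ξ γ t b M n q.1 q.2) =
      {q : Ω × S1 | 0 < t * (EE P ξ γ M q.1 q.2 - b)}.indicator
        (fun q => DD P ξ γ n q.1 q.2) := by
    funext q
    simp only [FF, indicator, mem_ofPred_eq]
  rw [e]
  exact (h.measurable_DD γ n).indicator (measurableSet_lt measurable_const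
    (((h.measurable_EE' γ M).sub_const b).const_mul t))

lemma Hyp.measurable_int_FF (h : Hyp P ξ) (γ t b : ℝ) (M n : ℕ) (S : Set S1) :
    Measurable (fun ω => ∫⁻ z in S, FF P ξ γ t b M n ω z ∂arcLength) :=
  (h.measurable_FF γ t b M n).lintegral_prod_right'

/-- the level set -/
def LS (P : Measure Ω) (ξ : ℕ → Ω → ℂ) (γ t b : ℝ) (M : ℕ) (ω : Ω) : Set S1 :=
  {z : S1 | 0 < t * (EE P ξ γ M ω z - b)}

lemma Hyp.isOpen_LS (h : Hyp P ξ) (γ t b : ℝ) (M : ℕ) (ω : Ω) : IsOpen (LS P ξ γ t b M ω) := by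
  unfold LS
  exact isOpen_lt continuous_const
    (continuous_const.mul ((h.continuous_EE' γ M ω).sub continuous_const))

lemma Hyp.setLIntegral_LS (h : Hyp P ξ) (γ t b : ℝ) (M n : ℕ) (ω : Ω) (S : Set S1)
    (hS : MeasurableSet S) :
    ∫⁻ z in S ∩ LS P ξ γ t b M ω, DD P ξ γ n ω z ∂arcLength
      = ∫⁻ z in S, FF P ξ γ t b M n ω z ∂arcLength := by
  unfold FF
  rw [inter_comm, ← Measure.restrict_restrict (h.isOpen_LS γ t b M ω).measurableSet]
  rw [← lintegral_indicator (h.isOpen_LS γ t b M ω).measurableSet]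
  rfl

/-- (1): summability of the masses of atypical points. -/
lemma Hyp.ae_bad (h : Hyp P ξ) (γ : ℝ) (hγ : γ ^ 2 / 2 < 1) (t : ℝ) (ht0 : t ≠ 0) (ht : |t| ≤ 1)
    (σ δ : ℝ) (hσ : |σ| = 1) (hδ : 0 < δ) :
    ∀ᵐ ω ∂P, ∑' m : ℕ, liminf (fun n => ∫⁻ z in JJ σ δ,
      FF P ξ γ t ((γ ^ 2 / 4 + t) * (m * Real.log 2)) (2 ^ m) n ω z ∂arcLength) atTop ≠ ⊤ := by
  have hlog2 : 0 < Real.log 2 := Real.log_pos (by norm_num)
  set C : ℝ := γ ^ 2 / 4 * |t + t ^ 2| + γ ^ 2 / 2 * |t + t ^ 2| / δ ^ 2 + dd P ξ (2 * |γ|) with hC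
  set r : ℝ := Real.exp (-(Real.log 2 * (t ^ 2 * (1 - γ ^ 2 / 4)))) with hr
  have hr1 : r < 1 := by
    rw [hr, Real.exp_lt_one_iff]
    have : 0 < t ^ 2 := by positivity
    have h2 : 0 < 1 - γ ^ 2 / 4 := by nlinarith
    have := mul_pos hlog2 (mul_pos this h2)
    linarith
  apply ae_tsum_ne_top
  · intro m
    exact Measurable.liminf fun n => h.measurable_int_FF γ t _ _ n _
  · have hle : ∀ m : ℕ, ∫⁻ ω, liminf (fun n => ∫⁻ z in JJ σ δ,
        FF P ξ γ t ((γ ^ 2 / 4 + t) * (m * Real.log 2)) (2 ^ m) n ω z ∂arcLength) atTop ∂P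
        ≤ ENNReal.ofReal (Real.exp C * r ^ m) * arcLength univ := by
      intro m
      apply lintegral_liminf_le_const _ (fun n => h.measurable_int_FF γ t _ _ n _) _ (2 ^ m)
      intro n hn
      refine (h.first_bad γ t ht (2 ^ m) n hn σ δ hσ hδ _).trans ?_
      apply mul_le_mul_left
      apply ENNReal.ofReal_le_ofReal
      rw [hr, ← Real.exp_nat_mul, ← Real.exp_add]
      apply Real.exp_le_exp.mpr
      obtain ⟨hb1, hb2⟩ := harmonic_bounds m
      set H := ∑ k ∈ Finset.range (2 ^ m), 1 / ((k : ℝ) + 1) with hH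
      have h1 : (t + t ^ 2) * (H - m * Real.log 2) ≤ |t + t ^ 2| := by
        refine (le_abs_self _).trans ?_
        rw [abs_mul]
        have : |H - m * Real.log 2| ≤ 1 := by
          rw [abs_le]; constructor <;> linarith
        calc |t + t ^ 2| * |H - m * Real.log 2| ≤ |t + t ^ 2| * 1 := by gcongr
          _ = _ := mul_one _
      have h2 : γ ^ 2 / 4 * ((t + t ^ 2) * (H - m * Real.log 2)) ≤ γ ^ 2 / 4 * |t + t ^ 2| := by
        gcongr
      rw [hC]
      nlinarith [h2]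
    refine ne_top_of_le_ne_top ?_ (ENNReal.tsum_le_tsum hle)
    rw [ENNReal.tsum_mul_right]
    apply ENNReal.mul_ne_top _ (measure_ne_top _ _)
    rw [← ENNReal.ofReal_tsum_of_nonneg (fun m => by positivity)
      ((summable_geometric_of_lt_one (Real.exp_pos _).le hr1).mul_left _)]
    exact ENNReal.ofReal_ne_top

/-- (2): summability of the restricted energies. -/
lemma Hyp.ae_energy (h : Hyp P ξ) (γ : ℝ) (hγ : γ ^ 2 / 2 < 1) (ε : ℝ) (hε : 0 < ε)
    (σ δ : ℝ) (hσ : |σ| = 1) (hδ : 0 < δ) :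
    ∀ᵐ ω ∂P, ∑' m : ℕ, ENNReal.ofReal ((2 ^ (1 - γ ^ 2 / 4 - 2 * ε)) ^ m) *
      ∑ j ∈ Finset.range (2 ^ m), (liminf (fun n => ∫⁻ z in bb m j ∩ JJ σ δ,
        FF P ξ γ (-1) ((γ ^ 2 / 4 + ε) * (m * Real.log 2) + 1) (2 ^ m) n ω z ∂arcLength) atTop) ^ 2
        ≠ ⊤ := by
  have hmeas : ∀ (m j : ℕ), Measurable (fun ω => (liminf (fun n => ∫⁻ z in bb m j ∩ JJ σ δ,
        FF P ξ γ (-1) ((γ ^ 2 / 4 + ε) * (m * Real.log 2) + 1) (2 ^ m) n ω z ∂arcLength) atTop) ^ 2) :=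
    fun m j => (Measurable.liminf fun n => h.measurable_int_FF γ _ _ _ n _).pow_const 2
  set C : ℝ := 20000 * Real.exp (dd P ξ (2 * |γ|) + γ ^ 2 / 2 * (2 + 1 / δ)) /
        (1 - 2 ^ (γ ^ 2 / 2 - 1)) with hC
  have hq1 : (2 : ℝ) ^ (γ ^ 2 / 2 - 1) < 1 :=
    Real.rpow_lt_one_of_one_lt_of_neg (by norm_num) (by linarith)
  have hCpos : 0 < C := by
    rw [hC]
    apply div_pos (by positivity)
    linarith
  have hterm : ∀ (m j : ℕ), ∫⁻ ω, (liminf (fun n => ∫⁻ z in bb m j ∩ JJ σ δ,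
        FF P ξ γ (-1) ((γ ^ 2 / 4 + ε) * (m * Real.log 2) + 1) (2 ^ m) n ω z ∂arcLength) atTop) ^ 2 ∂P
      ≤ ENNReal.ofReal (C * Real.exp ((γ ^ 2 / 4 + ε) * (m * Real.log 2) + 1) / ((2 ^ m : ℕ) : ℝ) ^ 2) := by
    intro m j
    simp only [sq_liminf]
    apply lintegral_liminf_le_const _ (fun n => (h.measurable_int_FF γ _ _ _ n _).pow_const 2) _ (2 ^ m)
    intro n hn
    have h1 := h.second_good γ hγ (2 ^ m) n Nat.one_le_two_pow hn σ δ hσ hδ (pt (2 ^ m) j)
      ((γ ^ 2 / 4 + ε) * (m * Real.log 2) + 1)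
    have e1 : ∀ ω z, FF P ξ γ (-1) ((γ ^ 2 / 4 + ε) * (m * Real.log 2) + 1) (2 ^ m) n ω z =
        {z : S1 | EE P ξ γ (2 ^ m) ω z < (γ ^ 2 / 4 + ε) * (m * Real.log 2) + 1}.indicator
          (fun z => DD P ξ γ n ω z) z := by
      intro ω z
      simp only [FF, indicator, mem_ofPred_eq]
      have : (0 < -1 * (EE P ξ γ (2 ^ m) ω z - ((γ ^ 2 / 4 + ε) * (m * Real.log 2) + 1))) ↔
          EE P ξ γ (2 ^ m) ω z < (γ ^ 2 / 4 + ε) * (m * Real.log 2) + 1 := by
        constructor <;> intro h <;> linarith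
      simp only [this]
    simp only [e1]
    have e2 : bb m j = Metric.ball (pt (2 ^ m) j) (10 / ((2 ^ m : ℕ) : ℝ)) := by
      unfold bb; push_cast; rfl
    rw [e2]
    exact h1
  apply ae_tsum_ne_top
  · intro m
    exact (Finset.measurable_sum _ fun j _ => hmeas m j).const_mul _
  · have hle : ∀ m : ℕ, ∫⁻ ω, ENNReal.ofReal ((2 ^ (1 - γ ^ 2 / 4 - 2 * ε)) ^ m) *
      ∑ j ∈ Finset.range (2 ^ m), (liminf (fun n => ∫⁻ z in bb m j ∩ JJ σ δ,
        FF P ξ γ (-1) ((γ ^ 2 / 4 + ε) * (m * Real.log 2) + 1) (2 ^ m) n ω z ∂arcLength) atTop) ^ 2 ∂P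
        ≤ ENNReal.ofReal (C * Real.exp 1 * (2 ^ (-ε)) ^ m) := by
      intro m
      rw [lintegral_const_mul' _ _ ENNReal.ofReal_ne_top,
        lintegral_finsetSum _ (fun j _ => hmeas m j)]
      calc ENNReal.ofReal ((2 ^ (1 - γ ^ 2 / 4 - 2 * ε)) ^ m) * _
          ≤ ENNReal.ofReal ((2 ^ (1 - γ ^ 2 / 4 - 2 * ε)) ^ m) * ∑ _j ∈ Finset.range (2 ^ m),
            ENNReal.ofReal (C * Real.exp ((γ ^ 2 / 4 + ε) * (m * Real.log 2) + 1) /
              ((2 ^ m : ℕ) : ℝ) ^ 2) := by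
            apply mul_le_mul_right
            exact Finset.sum_le_sum fun j _ => hterm m j
        _ = ENNReal.ofReal (C * Real.exp 1 * (2 ^ (-ε)) ^ m) := by
            rw [Finset.sum_const, Finset.card_range, nsmul_eq_mul, ← ENNReal.ofReal_natCast,
              ← ENNReal.ofReal_mul (by positivity), ← ENNReal.ofReal_mul (by positivity)]
            congr 1
            have e1 : Real.exp ((γ ^ 2 / 4 + ε) * (m * Real.log 2) + 1) =
                ((2 : ℝ) ^ (γ ^ 2 / 4 + ε)) ^ m * Real.exp 1 := by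
              rw [Real.exp_add, Real.rpow_def_of_pos (by norm_num), ← Real.exp_nat_mul]
              congr 2
              ring
            have e2 : ((2 : ℝ) ^ (-ε)) ^ m = (2 ^ (1 - γ ^ 2 / 4 - 2 * ε)) ^ m *
                (2 ^ (γ ^ 2 / 4 + ε)) ^ m / 2 ^ m := by
              rw [← mul_pow, ← div_pow, ← Real.rpow_add (by norm_num)]
              congr 1
              rw [show (1 - γ ^ 2 / 4 - 2 * ε + (γ ^ 2 / 4 + ε) : ℝ) = -ε + 1 by ring,
                Real.rpow_add (by norm_num), Real.rpow_one]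
              field_simp
            rw [e1, e2]
            push_cast
            field_simp
    refine ne_top_of_le_ne_top ?_ (ENNReal.tsum_le_tsum hle)
    rw [← ENNReal.ofReal_tsum_of_nonneg (fun m => by positivity)
      ((summable_geometric_of_lt_one (by positivity)
        (Real.rpow_lt_one_of_one_lt_of_neg (by norm_num) (by linarith))).mul_left _)]
    exact ENNReal.ofReal_ne_top

end Pool.Agent.Y977.CH
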