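import Pool.Agent.Y977.CH.Dim

/-!
Almost sure lower and upper bounds for the dimension of the limit measure.
-/

open MeasureTheory ProbabilityTheory Filter Topology Set
open scoped ENNReal NNReal

namespace Pool.Agent.Y977.CH

open Pool.Agent.Results.MP_ab74d4_pr.ChaosConvergence

variable {Ω : Type*} {mΩ : MeasurableSpace Ω} {P : Measure Ω} {ξ : ℕ → Ω → ℂ}

lemma Hyp.ae_lower (h : Hyp P ξ) (γ : ℝ) (hγ : γ ^ 2 / 2 < 1) (ε : ℝ) (hε : 0 < ε) (hε1 : ε ≤ 1)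
    (hpos : 0 < 1 - γ ^ 2 / 4 - 2 * ε) (σ δ : ℝ) (hσ : |σ| = 1) (hδ : 0 < δ)
    (μ : ℕ → Ω → FiniteMeasure S1)
    (hμ : IsChaos P ξ γ μ) (μl : Ω → FiniteMeasure S1)
    (hlim : ∀ᵐ ω ∂P, Tendsto (fun n => μ n ω) atTop (𝓝 (μl ω))) :
    ∀ᵐ ω ∂P, (μl ω : Measure S1) (JJ σ δ) ≠ 0 → ∀ A : Set S1, MeasurableSet A →
      (μl ω : Measure S1) Aᶜ = 0 → ENNReal.ofReal (1 - γ ^ 2 / 4 - 2 * ε) ≤ dimH A := by
  filter_upwards [h.ae_link γ μ hμ μl hlim,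
    h.ae_bad γ hγ ε hε.ne' (by rw [abs_of_pos hε]; exact hε1) σ δ hσ hδ,
    h.ae_energy γ hγ ε hε σ δ hσ hδ] with ω h1 h2 h3 hJ0 A hA hμA
  obtain ⟨C, c, hC, hc, hU, hF⟩ := h1
  set G : ℕ → Set S1 := fun m =>
    LS P ξ γ (-1) ((γ ^ 2 / 4 + ε) * (m * Real.log 2) + 1) (2 ^ m) ω with hG
  have hGo : ∀ m, IsOpen (G m) := fun m => h.isOpen_LS γ _ _ _ ω
  apply lower_dim (μl ω : Measure S1) (JJ σ δ) (measurableSet_JJ σ δ) hJ0 G
    (fun m => (hGo m).measurableSet) (1 - γ ^ 2 / 4 - 2 * ε) hpos _ _ A hA hμA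
  · have hle : ∀ m, (μl ω : Measure S1) (JJ σ δ \ G m) ≤ C * liminf (fun n => ∫⁻ z in JJ σ δ,
        FF P ξ γ ε ((γ ^ 2 / 4 + ε) * (m * Real.log 2)) (2 ^ m) n ω z ∂arcLength) atTop := by
      intro m
      have hsub : JJ σ δ \ G m ⊆ JJ σ δ ∩ LS P ξ γ ε ((γ ^ 2 / 4 + ε) * (m * Real.log 2)) (2 ^ m) ω := by
        intro z hz
        refine ⟨hz.1, ?_⟩
        have h4 : ¬ (0 < -1 * (EE P ξ γ (2 ^ m) ω z - ((γ ^ 2 / 4 + ε) * (m * Real.log 2) + 1))) := hz.2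
        show 0 < ε * (EE P ξ γ (2 ^ m) ω z - (γ ^ 2 / 4 + ε) * (m * Real.log 2))
        apply mul_pos hε
        push Not at h4
        linarith
      refine (measure_mono hsub).trans ((hU _ ((isOpen_JJ σ δ).inter (h.isOpen_LS γ _ _ _ ω))).trans ?_)
      simp only [h.setLIntegral_LS γ _ _ _ _ ω _ (measurableSet_JJ σ δ)]
      exact le_rfl
    refine ne_top_of_le_ne_top ?_ (ENNReal.tsum_le_tsum hle)
    rw [ENNReal.tsum_mul_left]
    exact ENNReal.mul_ne_top hC h2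
  · have hle : ∀ m : ℕ, ENNReal.ofReal ((2 ^ (1 - γ ^ 2 / 4 - 2 * ε)) ^ m) *
        ∑ j ∈ Finset.range (2 ^ m), (μl ω : Measure S1) (bb m j ∩ JJ σ δ ∩ G m) ^ 2
        ≤ C ^ 2 * (ENNReal.ofReal ((2 ^ (1 - γ ^ 2 / 4 - 2 * ε)) ^ m) *
      ∑ j ∈ Finset.range (2 ^ m), (liminf (fun n => ∫⁻ z in bb m j ∩ JJ σ δ,
        FF P ξ γ (-1) ((γ ^ 2 / 4 + ε) * (m * Real.log 2) + 1) (2 ^ m) n ω z ∂arcLength) atTop) ^ 2) := by
      intro m
      rw [mul_left_comm]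
      apply mul_le_mul_right
      rw [Finset.mul_sum]
      apply Finset.sum_le_sum
      intro j _
      rw [← mul_pow]
      have hbo : IsOpen (bb m j ∩ JJ σ δ) := (isOpen_bb m j).inter (isOpen_JJ σ δ)
      have h4 := hU _ (hbo.inter (hGo m))
      simp only [hG, h.setLIntegral_LS γ _ _ _ _ ω _ hbo.measurableSet] at h4
      exact pow_le_pow_left₀ zero_le h4 2
    refine ne_top_of_le_ne_top ?_ (ENNReal.tsum_le_tsum hle)
    rw [ENNReal.tsum_mul_left]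
    exact ENNReal.mul_ne_top (ENNReal.pow_ne_top hC) h3

/-- the real points of the circle -/
def RR : Set S1 := {z | (z : ℂ).im = 0}

lemma RR_finite : RR.Finite := by
  have h1 : RR ⊆ {⟨1, by simp⟩, ⟨-1, by simp⟩} := by
    intro z hz
    have him : (z : ℂ).im = 0 := hz
    have hn := norm_coe z
    have h2 : (z : ℂ).re ^ 2 = 1 := by
      have := Complex.normSq_eq_norm_sq (z : ℂ)
      rw [Complex.normSq_apply, hn, him] at this
      nlinarith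
    have h3 : ((z : ℂ).re - 1) * ((z : ℂ).re + 1) = 0 := by ring_nf; linarith
    rcases mul_eq_zero.mp h3 with h4 | h4
    · left
      apply Subtype.ext
      apply Complex.ext
      · simp; linarith
      · simp [him]
    · right
      rw [mem_singleton_iff]
      apply Subtype.ext
      apply Complex.ext
      · simp; linarith
      · simp [him]
  exact (Set.toFinite _).subset h1

lemma measurableSet_RR : MeasurableSet RR := RR_finite.measurableSet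

/-- Number of arcs needed. -/
lemma Hyp.dim_inter (h : Hyp P ξ) (γ ε : ℝ) (hε : 0 < ε) (hpos : 0 ≤ 1 - γ ^ 2 / 4 + 3 * ε)
    (ω : Ω) (C : ℝ) (hC : 0 ≤ C)
    (hX : ∀ m : ℕ, ∫ θ in (0 : ℝ)..(2 * Real.pi), HH P ξ γ (2 ^ m) ω θ ≤ C * (2 ^ ε) ^ m) (m0 : ℕ) :
    dimH (⋂ m, ⋂ (_ : m0 ≤ m), {z : S1 | (γ ^ 2 / 4 + -ε) * (m * Real.log 2) ≤ EE P ξ γ (2 ^ m) ω z})
      ≤ ENNReal.ofReal (1 - γ ^ 2 / 4 + 3 * ε) := by
  classical
  set b : ℕ → ℝ := fun m => (γ ^ 2 / 4 + -ε) * (m * Real.log 2) with hb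
  set js : ℕ → Finset ℕ := fun m => (Finset.range (2 ^ m)).filter (fun j =>
    ∃ θ ∈ Icc (2 * Real.pi * j / ((2 ^ m : ℕ) : ℝ)) (2 * Real.pi * (j + 1) / ((2 ^ m : ℕ) : ℝ)),
      b m ≤ EE P ξ γ (2 ^ m) ω (ee θ)) with hjs
  apply upper_dim _ js C (1 - γ ^ 2 / 4 + 2 * ε) (1 - γ ^ 2 / 4 + 3 * ε) hC (by linarith) hpos m0
  · intro m hm z hz
    have hzm : b m ≤ EE P ξ γ (2 ^ m) ω z := mem_iInter.mp (mem_iInter.mp hz m) hm
    obtain ⟨j, hj, θ, hθ, hθz⟩ := exists_arc (2 ^ m) Nat.one_le_two_pow z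
    refine mem_iUnion₂.mpr ⟨j, ?_, ?_⟩
    · simp only [hjs, Finset.mem_filter, Finset.mem_range]
      refine ⟨hj, θ, hθ, ?_⟩
      rw [← hθz] at hzm
      exact hzm
    · unfold arc
      refine ⟨θ, ?_, hθz⟩
      have e : ((2 ^ m : ℕ) : ℝ) = 2 ^ m := by push_cast; ring
      rw [e] at hθ
      exact hθ
  · intro m _
    have h1 := h.card_le γ (2 ^ m) Nat.one_le_two_pow ω (b m) (js m) (Finset.filter_subset _ _)
      (fun j hj => (Finset.mem_filter.mp hj).2)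
    have h2 := hX m
    have hexp : 0 < Real.exp (b m) := Real.exp_pos _
    have e1 : Real.exp (b m) = ((2 : ℝ) ^ (γ ^ 2 / 4 + -ε)) ^ m := by
      simp only [hb]
      rw [Real.rpow_def_of_pos (by norm_num), ← Real.exp_nat_mul]
      congr 1
      ring
    have e2 : ((2 : ℝ) ^ (1 - γ ^ 2 / 4 + 2 * ε)) ^ m * ((2 : ℝ) ^ (γ ^ 2 / 4 + -ε)) ^ m =
        2 ^ m * (2 ^ ε) ^ m := by
      rw [← mul_pow, ← mul_pow, ← Real.rpow_add (by norm_num)]
      congr 1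
      rw [show (1 - γ ^ 2 / 4 + 2 * ε + (γ ^ 2 / 4 + -ε) : ℝ) = 1 + ε by ring,
        Real.rpow_add (by norm_num), Real.rpow_one]
    have h3 : ((js m).card : ℝ) * Real.exp (b m) ≤ C * (2 ^ (1 - γ ^ 2 / 4 + 2 * ε)) ^ m * Real.exp (b m) := by
      calc ((js m).card : ℝ) * Real.exp (b m)
          ≤ ((2 ^ m : ℕ) : ℝ) * ∫ θ in (0 : ℝ)..(2 * Real.pi), HH P ξ γ (2 ^ m) ω θ := h1
        _ ≤ ((2 ^ m : ℕ) : ℝ) * (C * (2 ^ ε) ^ m) := by gcongr
        _ = C * (2 ^ m * (2 ^ ε) ^ m) := by push_cast; ring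
        _ = C * (2 ^ (1 - γ ^ 2 / 4 + 2 * ε)) ^ m * Real.exp (b m) := by rw [← e2, e1]; ring
    exact le_of_mul_le_mul_right h3 hexp

lemma Hyp.ae_upper (h : Hyp P ξ) (γ : ℝ) (hγ : γ ^ 2 / 2 < 1) (ε : ℝ) (hε : 0 < ε) (hε1 : ε ≤ 1)
    (μ : ℕ → Ω → FiniteMeasure S1)
    (hμ : IsChaos P ξ γ μ) (μl : Ω → FiniteMeasure S1)
    (hlim : ∀ᵐ ω ∂P, Tendsto (fun n => μ n ω) atTop (𝓝 (μl ω))) :
    ∀ᵐ ω ∂P, dimMeasure (μl ω : Measure S1) ≤ ENNReal.ofReal (1 - γ ^ 2 / 4 + 3 * ε) := by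
  have hδ : ∀ i : ℕ, (0 : ℝ) < 1 / ((i : ℝ) + 1) := fun i => by positivity
  have habs : |(-ε)| ≤ 1 := by rw [abs_neg, abs_of_pos hε]; exact hε1
  have hall : ∀ᵐ ω ∂P, ∀ i : ℕ, ∀ s : Bool,
      ∑' m : ℕ, liminf (fun n => ∫⁻ z in JJ (if s then 1 else -1) (1 / ((i : ℝ) + 1)),
      FF P ξ γ (-ε) ((γ ^ 2 / 4 + -ε) * (m * Real.log 2)) (2 ^ m) n ω z ∂arcLength) atTop ≠ ⊤ := by
    rw [ae_all_iff]
    intro i
    rw [ae_all_iff]
    intro s
    apply h.ae_bad γ hγ (-ε) (by linarith [hε] : (-ε) ≠ 0) habs _ _ _ (hδ i)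
    cases s <;> simp
  filter_upwards [h.ae_link γ μ hμ μl hlim, hall, h.ae_XX γ ε hε] with ω h1 h2 h3
  obtain ⟨C, c, hC, hc, hU, hF⟩ := h1
  obtain ⟨K, hK, hX⟩ := h3
  set Am : ℕ → Set S1 := fun m =>
    {z : S1 | (γ ^ 2 / 4 + -ε) * (m * Real.log 2) ≤ EE P ξ γ (2 ^ m) ω z} with hAm
  have hAmc : ∀ m, IsClosed (Am m) := fun m =>
    isClosed_le continuous_const (h.continuous_EE' γ (2 ^ m) ω)
  set A : Set S1 := (⋃ m0 : ℕ, ⋂ m, ⋂ (_ : m0 ≤ m), Am m) ∪ RR with hA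
  have hAmeas : MeasurableSet A :=
    (MeasurableSet.iUnion fun m0 => MeasurableSet.iInter fun m => MeasurableSet.iInter fun _ =>
      (hAmc m).measurableSet).union measurableSet_RR
  have hpos : 0 ≤ 1 - γ ^ 2 / 4 + 3 * ε := by nlinarith
  have hdim : dimH A ≤ ENNReal.ofReal (1 - γ ^ 2 / 4 + 3 * ε) := by
    rw [hA, dimH_union, dimH_iUnion, dimH_finite RR_finite]
    apply max_le _ zero_le
    apply iSup_le
    intro m0
    exact h.dim_inter γ ε hε hpos ω K hK hX m0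
  have hnull : (μl ω : Measure S1) Aᶜ = 0 := by
    have hae : ∀ᵐ z ∂(μl ω : Measure S1), ∀ i : ℕ, ∀ s : Bool, ∀ᶠ m in atTop,
        z ∉ JJ (if s then 1 else -1) (1 / ((i : ℝ) + 1)) \ Am m := by
      rw [ae_all_iff]
      intro i
      rw [ae_all_iff]
      intro s
      apply ae_eventually_notMem
      have hle : ∀ m, (μl ω : Measure S1) (JJ (if s then 1 else -1) (1 / ((i : ℝ) + 1)) \ Am m) ≤
          C * liminf (fun n => ∫⁻ z in JJ (if s then 1 else -1) (1 / ((i : ℝ) + 1)),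
          FF P ξ γ (-ε) ((γ ^ 2 / 4 + -ε) * (m * Real.log 2)) (2 ^ m) n ω z ∂arcLength) atTop := by
        intro m
        have hsub : JJ (if s then 1 else -1) (1 / ((i : ℝ) + 1)) \ Am m ⊆
            JJ (if s then 1 else -1) (1 / ((i : ℝ) + 1)) ∩
              LS P ξ γ (-ε) ((γ ^ 2 / 4 + -ε) * (m * Real.log 2)) (2 ^ m) ω := by
          intro z hz
          refine ⟨hz.1, ?_⟩
          have h4 : ¬ ((γ ^ 2 / 4 + -ε) * (m * Real.log 2) ≤ EE P ξ γ (2 ^ m) ω z) := hz.2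
          show 0 < -ε * (EE P ξ γ (2 ^ m) ω z - (γ ^ 2 / 4 + -ε) * (m * Real.log 2))
          push Not at h4
          nlinarith
        refine (measure_mono hsub).trans ((hU _ ((isOpen_JJ _ _).inter (h.isOpen_LS γ _ _ _ ω))).trans ?_)
        simp only [h.setLIntegral_LS γ _ _ _ _ ω _ (measurableSet_JJ _ _)]
        exact le_rfl
      refine ne_top_of_le_ne_top ?_ (ENNReal.tsum_le_tsum hle)
      rw [ENNReal.tsum_mul_left]
      exact ENNReal.mul_ne_top hC (h2 i s)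
    have hsub : ∀ᵐ z ∂(μl ω : Measure S1), z ∈ A := by
      filter_upwards [hae] with z hz
      by_cases hR : z ∈ RR
      · exact Or.inr hR
      · left
        have him : (z : ℂ).im ≠ 0 := hR
        obtain ⟨i, hi⟩ := exists_nat_one_div_lt (abs_pos.mpr him)
        have hJ : ∃ s : Bool, z ∈ JJ (if s then 1 else -1) (1 / ((i : ℝ) + 1)) := by
          rcases lt_or_gt_of_ne him with h5 | h5
          · refine ⟨false, ?_⟩
            rw [abs_of_neg h5] at hi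
            show 1 / ((i : ℝ) + 1) < (if false = true then 1 else -1) * (z : ℂ).im
            simp only [Bool.false_eq_true, if_false]
            linarith
          · refine ⟨true, ?_⟩
            rw [abs_of_pos h5] at hi
            show 1 / ((i : ℝ) + 1) < (if true = true then 1 else -1) * (z : ℂ).im
            simp only [if_true]
            linarith
        obtain ⟨s, hs⟩ := hJ
        obtain ⟨m0, hm0⟩ := eventually_atTop.mp (hz i s)
        refine mem_iUnion.mpr ⟨m0, mem_iInter.mpr fun m => mem_iInter.mpr fun hm => ?_⟩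
        by_contra hcon
        exact hm0 m hm ⟨hs, hcon⟩
    rw [ae_iff] at hsub
    exact hsub
  unfold dimMeasure
  exact (iInf₂_le A ⟨hAmeas, hnull⟩).trans hdim

/-- Exact dimension, given that the limit charges a region away from the real points. -/
lemma Hyp.ae_dim (h : Hyp P ξ) (γ : ℝ) (hγ : γ ^ 2 / 2 < 1) (σ δ : ℝ) (hσ : |σ| = 1) (hδ : 0 < δ)
    (μ : ℕ → Ω → FiniteMeasure S1)
    (hμ : IsChaos P ξ γ μ) (μl : Ω → FiniteMeasure S1)
    (hlim : ∀ᵐ ω ∂P, Tendsto (fun n => μ n ω) atTop (𝓝 (μl ω)))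
    (hpos : ∀ᵐ ω ∂P, (μl ω : Measure S1) (JJ σ δ) ≠ 0) :
    ∀ᵐ ω ∂P, dimMeasure (μl ω : Measure S1) = ENNReal.ofReal (1 - γ ^ 2 / 4) := by
  have hε : ∀ i : ℕ, (0 : ℝ) < 1 / ((i : ℝ) + 8) := fun i => by positivity
  have hε1 : ∀ i : ℕ, 1 / ((i : ℝ) + 8) ≤ 1 / 8 := fun i => by
    apply one_div_le_one_div_of_le (by norm_num)
    have : (0 : ℝ) ≤ i := Nat.cast_nonneg i
    linarith
  have h1 : ∀ᵐ ω ∂P, ∀ i : ℕ, (μl ω : Measure S1) (JJ σ δ) ≠ 0 → ∀ A : Set S1, MeasurableSet A →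
      (μl ω : Measure S1) Aᶜ = 0 →
        ENNReal.ofReal (1 - γ ^ 2 / 4 - 2 * (1 / ((i : ℝ) + 8))) ≤ dimH A := by
    rw [ae_all_iff]
    intro i
    apply h.ae_lower γ hγ _ (hε i) (by linarith [hε1 i]) _ σ δ hσ hδ μ hμ μl hlim
    have := hε1 i
    nlinarith
  have h2 : ∀ᵐ ω ∂P, ∀ i : ℕ, dimMeasure (μl ω : Measure S1) ≤
      ENNReal.ofReal (1 - γ ^ 2 / 4 + 3 * (1 / ((i : ℝ) + 8))) := by
    rw [ae_all_iff]
    intro i
    exact h.ae_upper γ hγ _ (hε i) (by linarith [hε1 i]) μ hμ μl hlim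
  have hT : Tendsto (fun i : ℕ => 1 / ((i : ℝ) + 8)) atTop (𝓝 0) := by
    have h3 : Tendsto (fun i : ℕ => (i : ℝ) + 8) atTop atTop :=
      tendsto_atTop_add_const_right _ _ tendsto_natCast_atTop_atTop
    refine h3.inv_tendsto_atTop.congr fun i => ?_
    simp [one_div]
  filter_upwards [h1, h2, hpos] with ω g1 g2 g3
  apply le_antisymm
  · have hT2 : Tendsto (fun i : ℕ => ENNReal.ofReal (1 - γ ^ 2 / 4 + 3 * (1 / ((i : ℝ) + 8)))) atTop
        (𝓝 (ENNReal.ofReal (1 - γ ^ 2 / 4 + 3 * 0))) :=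
      ENNReal.tendsto_ofReal ((hT.const_mul 3).const_add _)
    rw [mul_zero, add_zero] at hT2
    exact ge_of_tendsto' hT2 g2
  · unfold dimMeasure
    apply le_iInf₂
    intro A hA
    have hT2 : Tendsto (fun i : ℕ => ENNReal.ofReal (1 - γ ^ 2 / 4 - 2 * (1 / ((i : ℝ) + 8)))) atTop
        (𝓝 (ENNReal.ofReal (1 - γ ^ 2 / 4 - 2 * 0))) :=
      ENNReal.tendsto_ofReal ((hT.const_mul 2).const_sub _)
    rw [mul_zero, sub_zero] at hT2
    exact le_of_tendsto' hT2 fun i => g1 i g3 A hA.1 hA.2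

end Pool.Agent.Y977.CH
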