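import Pool.Agent.Y977.CH.Trig

/-!
Geometry of the unit circle: arcs, coverings, arc length of balls.
-/

open MeasureTheory ProbabilityTheory Filter Topology Set
open scoped ENNReal NNReal

namespace Pool.Agent.Y977.CH

open Pool.Agent.Results.MP_ab74d4_pr.ChaosConvergence

/-- The part of the circle where `σ · Im z > δ`. -/
def JJ (σ δ : ℝ) : Set S1 := {z | δ < σ * (z : ℂ).im}

lemma norm_coe (z : S1) : ‖(z : ℂ)‖ = 1 := by simp

lemma isOpen_JJ (σ δ : ℝ) : IsOpen (JJ σ δ) := by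
  unfold JJ
  exact isOpen_lt continuous_const (continuous_const.mul
    (Complex.continuous_im.comp continuous_subtype_val))

lemma measurableSet_JJ (σ δ : ℝ) : MeasurableSet (JJ σ δ) := (isOpen_JJ σ δ).measurableSet

lemma abs_im_of_mem (σ δ : ℝ) (hσ : |σ| = 1) (z : S1) (hz : z ∈ JJ σ δ) : δ < |(z : ℂ).im| := by
  have h1 : δ < σ * (z : ℂ).im := hz
  calc δ < σ * (z : ℂ).im := h1
    _ ≤ |σ * (z : ℂ).im| := le_abs_self _
    _ = |(z : ℂ).im| := by rw [abs_mul, hσ, one_mul]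

lemma sq_le_norm_one_sub_sq (σ δ : ℝ) (hσ : |σ| = 1) (hδ : 0 ≤ δ) (z : S1) (hz : z ∈ JJ σ δ) :
    δ ^ 2 ≤ ‖1 - (z : ℂ) ^ 2‖ := by
  have h1 := abs_im_of_mem σ δ hσ z hz
  have e : 1 - (z : ℂ) ^ 2 = (1 - z) * (1 + z) := by ring
  rw [e, norm_mul, sq]
  have h2 : |(z : ℂ).im| ≤ ‖1 - (z : ℂ)‖ := by
    have := Complex.abs_im_le_norm (1 - (z : ℂ))
    simpa using this
  have h3 : |(z : ℂ).im| ≤ ‖1 + (z : ℂ)‖ := by
    have := Complex.abs_im_le_norm (1 + (z : ℂ))
    simpa using this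
  exact mul_le_mul (h1.le.trans h2) (h1.le.trans h3) hδ (norm_nonneg _)

lemma two_mul_le_norm_one_sub_mul (σ δ : ℝ) (hσ : |σ| = 1) (z w : S1) (hz : z ∈ JJ σ δ)
    (hw : w ∈ JJ σ δ) : 2 * δ ≤ ‖1 - (z : ℂ) * w‖ := by
  have h1 : (starRingEnd ℂ) (w : ℂ) * w = 1 := by
    rw [mul_comm, Complex.mul_conj, Complex.normSq_eq_norm_sq, norm_coe]; norm_num
  have e : 1 - (z : ℂ) * w = ((starRingEnd ℂ) (w : ℂ) - z) * w := by
    rw [sub_mul, h1]
  rw [e, norm_mul, norm_coe, mul_one]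
  have h2 := Complex.abs_im_le_norm ((starRingEnd ℂ) (w : ℂ) - z)
  rw [Complex.sub_im, Complex.conj_im] at h2
  refine le_trans ?_ h2
  have hz' : δ < σ * (z : ℂ).im := hz
  have hw' : δ < σ * (w : ℂ).im := hw
  calc 2 * δ ≤ σ * (z : ℂ).im + σ * (w : ℂ).im := by linarith
    _ = (-σ) * (-(w : ℂ).im - (z : ℂ).im) := by ring
    _ ≤ |(-σ) * (-(w : ℂ).im - (z : ℂ).im)| := le_abs_self _
    _ = |-(w : ℂ).im - (z : ℂ).im| := by rw [abs_mul, abs_neg, hσ, one_mul]

lemma coe_expPoint (θ : ℝ) : ((expPoint θ : S1) : ℂ) = Complex.exp (θ * Complex.I) := rfl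

lemma exp_int_mul (θ : ℝ) (n : ℤ) : expPoint (θ + n * (2 * Real.pi)) = expPoint θ := by
  apply Subtype.ext
  rw [coe_expPoint, coe_expPoint]
  push_cast
  rw [add_mul, Complex.exp_add]
  have : Complex.exp (n * (2 * Real.pi) * Complex.I) = 1 := by
    rw [Complex.exp_eq_one_iff]
    exact ⟨n, by ring⟩
  rw [this, mul_one]

lemma dist_expPoint (θ φ : ℝ) : dist (expPoint θ) (expPoint φ) = 2 * |Real.sin ((θ - φ) / 2)| := by
  rw [Subtype.dist_eq, dist_eq_norm, coe_expPoint, coe_expPoint]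
  have e : Complex.exp (θ * Complex.I) - Complex.exp (φ * Complex.I)
      = Complex.exp (φ * Complex.I) * (Complex.exp (Complex.I * ((θ - φ : ℝ) : ℂ)) - 1) := by
    rw [mul_sub, ← Complex.exp_add, mul_one]
    congr 2
    push_cast; ring
  rw [e, norm_mul, Complex.norm_exp_ofReal_mul_I, one_mul, Complex.norm_exp_I_mul_ofReal_sub_one,
    norm_mul, Real.norm_eq_abs, Real.norm_eq_abs]
  norm_num

lemma dist_expPoint_le (θ φ : ℝ) : dist (expPoint θ) (expPoint φ) ≤ |θ - φ| := by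
  rw [dist_expPoint]
  have h1 : |Real.sin ((θ - φ) / 2)| ≤ |(θ - φ) / 2| := Real.abs_sin_le_abs
  rw [abs_div, abs_of_pos (by norm_num : (0 : ℝ) < 2)] at h1
  linarith

lemma exists_arg (z : S1) : ∃ θ ∈ Ioc (-Real.pi) Real.pi, expPoint θ = z := by
  refine ⟨Complex.arg (z : ℂ), ⟨Complex.neg_pi_lt_arg _, Complex.arg_le_pi _⟩, ?_⟩
  apply Subtype.ext
  rw [coe_expPoint]
  have := Complex.norm_mul_exp_arg_mul_I (z : ℂ)
  rw [norm_coe] at this
  simpa using this

lemma abs_lt_of_dist (r ψ : ℝ) (h1 : 2 * |Real.sin (ψ / 2)| < r) (h2 : |ψ| ≤ Real.pi) :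
    |ψ| < Real.pi * r / 2 := by
  have h3 : |ψ / 2| ≤ Real.pi / 2 := by
    rw [abs_div, abs_of_pos (by norm_num : (0 : ℝ) < 2)]; linarith
  have h4 := Real.mul_abs_le_abs_sin h3
  rw [abs_div, abs_of_pos (by norm_num : (0 : ℝ) < 2)] at h4
  have hpi := Real.pi_pos
  have h5 : 2 / Real.pi * (|ψ| / 2) < r / 2 := by linarith
  have h6 : 2 / Real.pi * (|ψ| / 2) = |ψ| / Real.pi := by field_simp
  rw [h6, div_lt_iff₀ hpi] at h5
  linarith

lemma arcLength_ball_le (z : S1) (r : ℝ) (hr : 0 ≤ r) :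
    arcLength (Metric.ball z r) ≤ ENNReal.ofReal (10 * r) := by
  obtain ⟨φ, hφ, rfl⟩ := exists_arg z
  have hpi := Real.pi_pos
  unfold arcLength
  rw [Measure.map_apply continuous_expPoint.measurable Metric.isOpen_ball.measurableSet,
    Measure.restrict_apply (continuous_expPoint.measurable Metric.isOpen_ball.measurableSet)]
  have hsub : expPoint ⁻¹' (Metric.ball (expPoint φ) r) ∩ Ioc (-Real.pi) Real.pi
      ⊆ Metric.ball φ (Real.pi * r / 2) ∪ (Metric.ball (φ + 2 * Real.pi) (Real.pi * r / 2) ∪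
        Metric.ball (φ - 2 * Real.pi) (Real.pi * r / 2)) := by
    intro θ hθ
    obtain ⟨h1, h2⟩ := hθ
    rw [mem_preimage, Metric.mem_ball, dist_expPoint] at h1
    rcases le_or_gt |θ - φ| Real.pi with h3 | h3
    · left
      rw [Metric.mem_ball, Real.dist_eq]
      exact abs_lt_of_dist r _ h1 h3
    · right
      rcases lt_or_ge 0 (θ - φ) with h4 | h4
      · left
        rw [Metric.mem_ball, Real.dist_eq]
        rw [abs_of_pos h4] at h3
        have h5 : 2 * |Real.sin ((θ - (φ + 2 * Real.pi)) / 2)| < r := by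
          have e : (θ - (φ + 2 * Real.pi)) / 2 = (θ - φ) / 2 - Real.pi := by ring
          rw [e, Real.sin_sub_pi, abs_neg]
          exact h1
        apply abs_lt_of_dist r _ h5
        rw [abs_le]
        constructor
        · linarith
        · linarith [h2.1, h2.2, hφ.1, hφ.2]
      · right
        rw [Metric.mem_ball, Real.dist_eq]
        rw [abs_of_nonpos h4] at h3
        have h5 : 2 * |Real.sin ((θ - (φ - 2 * Real.pi)) / 2)| < r := by
          have e : (θ - (φ - 2 * Real.pi)) / 2 = (θ - φ) / 2 + Real.pi := by ring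
          rw [e, Real.sin_add_pi, abs_neg]
          exact h1
        apply abs_lt_of_dist r _ h5
        rw [abs_le]
        constructor
        · linarith [h2.1, h2.2, hφ.1, hφ.2]
        · linarith
  refine (measure_mono hsub).trans ((measure_union_le _ _).trans
    ((add_le_add_right (measure_union_le _ _) _).trans ?_))
  simp only [Real.volume_ball]
  rw [← ENNReal.ofReal_add (by positivity) (by positivity),
    ← ENNReal.ofReal_add (by positivity) (by positivity)]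
  apply ENNReal.ofReal_le_ofReal
  have := Real.pi_lt_d2
  nlinarith

lemma arcLength_singleton (z : S1) : arcLength {z} = 0 := by
  apply le_antisymm _ (zero_le)
  apply ENNReal.le_of_forall_pos_le_add
  intro ε hε _
  rw [zero_add]
  have h1 : arcLength {z} ≤ arcLength (Metric.ball z ((ε : ℝ) / 10)) := by
    apply measure_mono
    rw [singleton_subset_iff]
    exact Metric.mem_ball_self (by positivity)
  refine h1.trans ((arcLength_ball_le z _ (by positivity)).trans ?_)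
  rw [mul_div_cancel₀ _ (by norm_num : (10 : ℝ) ≠ 0), ENNReal.ofReal_coe_nnreal]

/-- Covering of the circle by `N` arcs of angle `2π/N`. -/
lemma exists_arc (N : ℕ) (hN : 1 ≤ N) (z : S1) :
    ∃ j : ℕ, j < N ∧ ∃ θ ∈ Icc (2 * Real.pi * j / N) (2 * Real.pi * (j + 1) / N), expPoint θ = z := by
  have hpi := Real.pi_pos
  have hNpos : (0 : ℝ) < N := by exact_mod_cast hN
  have h0 : ∃ θ : ℝ, 0 ≤ θ ∧ θ < 2 * Real.pi ∧ expPoint θ = z := by
    obtain ⟨φ, hφ, hφz⟩ := exists_arg z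
    rcases le_or_gt 0 φ with h | h
    · exact ⟨φ, h, by linarith [hφ.2], hφz⟩
    · refine ⟨φ + 2 * Real.pi, by linarith [hφ.1], by linarith, ?_⟩
      have := exp_int_mul φ 1
      simp only [Int.cast_one, one_mul] at this
      rw [this, hφz]
  obtain ⟨θ, h1, h2, h3⟩ := h0
  refine ⟨⌊θ * N / (2 * Real.pi)⌋₊, ?_, θ, ⟨?_, ?_⟩, h3⟩
  · rw [Nat.floor_lt (by positivity)]
    rw [div_lt_iff₀ (by positivity)]
    nlinarith
  · have := Nat.floor_le (show 0 ≤ θ * N / (2 * Real.pi) by positivity)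
    rw [le_div_iff₀ (by positivity)] at this
    rw [div_le_iff₀ hNpos]
    linarith
  · have := (Nat.lt_floor_add_one (θ * N / (2 * Real.pi))).le
    rw [div_le_iff₀ (by positivity)] at this
    rw [le_div_iff₀ hNpos]
    linarith

/-- Centres of the balls used to cover the circle. -/
noncomputable def pt (N j : ℕ) : S1 := expPoint (2 * Real.pi * j / N)

lemma exists_pt (N : ℕ) (hN : 1 ≤ N) (z : S1) : ∃ j : ℕ, j < N ∧ dist z (pt N j) ≤ 7 / N := by
  obtain ⟨j, hj, θ, hθ, rfl⟩ := exists_arc N hN z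
  refine ⟨j, hj, (dist_expPoint_le _ _).trans ?_⟩
  have hNpos : (0 : ℝ) < N := by exact_mod_cast hN
  have h1 : 2 * Real.pi * (j + 1) / N = 2 * Real.pi * j / N + 2 * Real.pi / N := by ring
  have h2 : 2 * Real.pi / N ≤ 7 / N := by
    have := Real.pi_lt_d2
    gcongr
    linarith
  rw [abs_le]
  constructor <;> linarith [hθ.1, hθ.2, div_pos (mul_pos two_pos Real.pi_pos) hNpos]

/-- The dyadic majorant of the singular kernel. -/
noncomputable def ker (a ρ : ℝ) (z w : S1) : ℝ≥0∞ :=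
  ∑' i : ℕ, ENNReal.ofReal ((2 ^ a) ^ i) * (Metric.ball z (ρ / 2 ^ i)).indicator 1 w

lemma lintegral_ker_le (a ρ : ℝ) (ha : a < 1) (hρ : 0 ≤ ρ) (z : S1) :
    ∫⁻ w, ker a ρ z w ∂arcLength ≤ ENNReal.ofReal (10 * ρ / (1 - 2 ^ (a - 1))) := by
  have hq0 : (0 : ℝ) ≤ 2 ^ (a - 1) := by positivity
  have hq1 : (2 : ℝ) ^ (a - 1) < 1 := Real.rpow_lt_one_of_one_lt_of_neg (by norm_num) (by linarith)
  unfold ker
  have hm1 : ∀ i : ℕ, Measurable (fun w : S1 =>
      (Metric.ball z (ρ / 2 ^ i)).indicator (1 : S1 → ℝ≥0∞) w) := fun i =>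
    measurable_one.indicator Metric.isOpen_ball.measurableSet
  rw [lintegral_tsum (fun i => ((hm1 i).const_mul _).aemeasurable)]
  have h1 : ∀ i : ℕ, ∫⁻ w, ENNReal.ofReal ((2 ^ a) ^ i) * (Metric.ball z (ρ / 2 ^ i)).indicator 1 w
      ∂arcLength ≤ ENNReal.ofReal (10 * ρ * (2 ^ (a - 1)) ^ i) := by
    intro i
    rw [lintegral_const_mul _ (hm1 i), lintegral_indicator_one Metric.isOpen_ball.measurableSet]
    calc ENNReal.ofReal ((2 ^ a) ^ i) * arcLength (Metric.ball z (ρ / 2 ^ i))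
        ≤ ENNReal.ofReal ((2 ^ a) ^ i) * ENNReal.ofReal (10 * (ρ / 2 ^ i)) := by
          gcongr
          exact arcLength_ball_le z _ (by positivity)
      _ = ENNReal.ofReal (10 * ρ * (2 ^ (a - 1)) ^ i) := by
          rw [← ENNReal.ofReal_mul (by positivity)]
          congr 1
          rw [Real.rpow_sub (by norm_num), Real.rpow_one, div_pow]
          ring
  refine (ENNReal.tsum_le_tsum h1).trans ?_
  have hs : Summable (fun i : ℕ => 10 * ρ * ((2 : ℝ) ^ (a - 1)) ^ i) :=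
    (summable_geometric_of_lt_one hq0 hq1).mul_left _
  rw [← ENNReal.ofReal_tsum_of_nonneg (fun i => by positivity) hs, tsum_mul_left,
    tsum_geometric_of_lt_one hq0 hq1, div_eq_mul_inv (10 * ρ)]

end Pool.Agent.Y977.CH
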