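import Pool.Agent.Y977.CH.Mom

/-!
Real coefficient laws: the standard Gaussian law, and a centred law of variance one whose
logarithmic second moment is infinite.
-/

open MeasureTheory ProbabilityTheory Filter Topology Set
open scoped ENNReal NNReal

namespace Pool.Agent.Y977.CH

open Pool.Agent.Results.MP_ab74d4_pr.ChaosConvergence

/-- Real coefficients with a common centred law of variance one. -/
lemma hyp_of_real {Ω : Type*} {mΩ : MeasurableSpace Ω} (P : Measure Ω) [IsProbabilityMeasure P]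
    (ξ : ℕ → Ω → ℝ) (hm : ∀ k, Measurable (ξ k)) (hind : iIndepFun ξ P) (ρ : Measure ℝ)
    (hρ : ∀ k, P.map (ξ k) = ρ) (h0 : ∫ x, x ∂ρ = 0) (h1 : ∫ x, x ^ 2 ∂ρ = 1) :
    Hyp P (fun k ω => (ξ k ω : ℂ)) where
  prob := inferInstance
  meas := fun k => Complex.measurable_ofReal.comp (hm k)
  indep := hind.comp (fun _ x => (x : ℂ)) (fun _ => Complex.measurable_ofReal)
  ident := fun k => by
    have h2 : IdentDistrib (ξ k) (ξ 0) P P :=
      ⟨(hm k).aemeasurable, (hm 0).aemeasurable, by rw [hρ k, hρ 0]⟩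
    exact h2.comp Complex.measurable_ofReal
  mean := by
    rw [integral_complex_ofReal]
    have : ∫ ω, ξ 0 ω ∂P = ∫ x, x ∂ρ := by
      rw [← hρ 0]
      exact (integral_map (hm 0).aemeasurable (f := fun x : ℝ => x)
        measurable_id.aestronglyMeasurable).symm
    rw [this, h0]
    simp
  var := by
    have e : ∀ ω, ‖((ξ 0 ω : ℝ) : ℂ)‖ ^ 2 = (ξ 0 ω) ^ 2 := by
      intro ω
      rw [Complex.norm_real, Real.norm_eq_abs, sq_abs]
    simp only [e]
    have : ∫ ω, (ξ 0 ω) ^ 2 ∂P = ∫ x, x ^ 2 ∂ρ := by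
      rw [← hρ 0]
      exact (integral_map (hm 0).aemeasurable (f := fun x : ℝ => x ^ 2)
        (measurable_id.pow_const 2).aestronglyMeasurable).symm
    rw [this, h1]

lemma log_integrable_iff {Ω : Type*} {mΩ : MeasurableSpace Ω} (P : Measure Ω)
    (X : Ω → ℝ) (hm : Measurable X) (ρ : Measure ℝ) (hρ : P.map X = ρ) :
    Integrable (fun ω => ‖((X ω : ℝ) : ℂ)‖ ^ 2 * Real.log (1 + ‖((X ω : ℝ) : ℂ)‖)) P ↔
      Integrable (fun x : ℝ => x ^ 2 * Real.log (1 + |x|)) ρ := by
  have e : (fun ω => ‖((X ω : ℝ) : ℂ)‖ ^ 2 * Real.log (1 + ‖((X ω : ℝ) : ℂ)‖)) =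
      (fun x : ℝ => x ^ 2 * Real.log (1 + |x|)) ∘ X := by
    funext ω
    simp only [Function.comp, Complex.norm_real, Real.norm_eq_abs, sq_abs]
  have hmf : Measurable (fun x : ℝ => x ^ 2 * Real.log (1 + |x|)) := by fun_prop
  rw [e, ← hρ]
  exact (integrable_map_measure hmf.aestronglyMeasurable hm.aemeasurable).symm

/-! ### The Gaussian law -/

lemma gaussian_moments : ∫ x, x ∂(gaussianReal 0 1) = 0 ∧ ∫ x, x ^ 2 ∂(gaussianReal 0 1) = 1 := by
  constructor
  · exact integral_id_gaussianReal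
  · have h1 : Var[fun x : ℝ => x; gaussianReal 0 1] = ((1 : ℝ≥0) : ℝ) := variance_fun_id_gaussianReal
    rw [variance_of_integral_eq_zero (by fun_prop) integral_id_gaussianReal] at h1
    simpa using h1

lemma gaussian_log : Integrable (fun x : ℝ => x ^ 2 * Real.log (1 + |x|)) (gaussianReal 0 1) := by
  have h3 : MemLp (id : ℝ → ℝ) 3 (gaussianReal 0 1) := memLp_id_gaussianReal' 3 (by norm_num)
  have h4 : Integrable (fun x : ℝ => ‖id x‖ ^ 3) (gaussianReal 0 1) := by
    exact h3.integrable_norm_pow (by norm_num)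
  have hmf : Measurable (fun x : ℝ => x ^ 2 * Real.log (1 + |x|)) := by fun_prop
  refine h4.mono hmf.aestronglyMeasurable (ae_of_all _ fun x => ?_)
  have hlog : 0 ≤ Real.log (1 + |x|) := Real.log_nonneg (by linarith [abs_nonneg x])
  have hle : Real.log (1 + |x|) ≤ |x| := by
    have := Real.log_le_sub_one_of_pos (show 0 < 1 + |x| by positivity)
    linarith
  rw [Real.norm_eq_abs, abs_of_nonneg (mul_nonneg (sq_nonneg x) hlog), norm_pow, norm_norm, id,
    Real.norm_eq_abs, ← sq_abs]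
  calc |x| ^ 2 * Real.log (1 + |x|) ≤ |x| ^ 2 * |x| := by gcongr
    _ = |x| ^ 3 := by ring

/-! ### A heavy tailed law -/

/-- atoms -/
noncomputable def at' (j : ℕ) : ℝ := 2 ^ (2 ^ j)

/-- weights -/
noncomputable def pw' (j : ℕ) : ℝ := (1 / 2) ^ (j + 1) / (at' j) ^ 2

lemma at_pos (j : ℕ) : 0 < at' j := by unfold at'; positivity

lemma one_le_at (j : ℕ) : 1 ≤ at' j := by
  unfold at'
  exact one_le_pow₀ (by norm_num)

lemma pw_nonneg (j : ℕ) : 0 ≤ pw' j := by
  have := at_pos j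
  unfold pw'; positivity

lemma pw_mul (j : ℕ) : pw' j * (at' j) ^ 2 = (1 / 2) ^ (j + 1) := by
  unfold pw'
  have := at_pos j
  field_simp

lemma pw_le (j : ℕ) : pw' j ≤ (1 / 2) ^ (j + 1) := by
  rw [← pw_mul]
  exact le_mul_of_one_le_right (pw_nonneg j) (one_le_pow₀ (one_le_at j))

lemma hasSum_half : HasSum (fun j : ℕ => ((1 : ℝ) / 2) ^ (j + 1)) 1 := by
  have h2 := hasSum_geometric_two.mul_left (1 / 2)
  have e : (fun j : ℕ => ((1 : ℝ) / 2) ^ (j + 1)) = fun j : ℕ => 1 / 2 * ((1 : ℝ) / 2) ^ j := by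
    funext j
    rw [pow_succ]
    ring
  rw [e]
  have e2 : (1 : ℝ) / 2 * 2 = 1 := by norm_num
  rw [e2] at h2
  exact h2

lemma summable_pw : Summable pw' :=
  Summable.of_nonneg_of_le pw_nonneg pw_le hasSum_half.summable

lemma tsum_pw_le : ∑' j, pw' j ≤ 1 := by
  rw [← hasSum_half.tsum_eq]
  exact summable_pw.tsum_le_tsum pw_le hasSum_half.summable

/-- the law of the absolute value -/
noncomputable def kap : Measure ℝ :=
  Measure.sum (fun j => ENNReal.ofReal (pw' j) • Measure.dirac (at' j)) +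
    ENNReal.ofReal (1 - ∑' j, pw' j) • Measure.dirac 0

lemma lintegral_kap (f : ℝ → ℝ≥0∞) (hf : Measurable f) :
    ∫⁻ x, f x ∂kap = ∑' j, ENNReal.ofReal (pw' j) * f (at' j) +
      ENNReal.ofReal (1 - ∑' j, pw' j) * f 0 := by
  unfold kap
  rw [lintegral_add_measure, lintegral_sum_measure]
  simp only [lintegral_smul_measure, lintegral_dirac' _ hf, smul_eq_mul]

/-- the symmetric heavy tailed law -/
noncomputable def hv : Measure ℝ :=
  (1 / 2 : ℝ≥0∞) • kap + (1 / 2 : ℝ≥0∞) • kap.map (fun x => -x)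

lemma lintegral_hv (f : ℝ → ℝ≥0∞) (hf : Measurable f) (heven : ∀ x, f (-x) = f x) :
    ∫⁻ x, f x ∂hv = ∫⁻ x, f x ∂kap := by
  unfold hv
  rw [lintegral_add_measure, lintegral_smul_measure, lintegral_smul_measure,
    lintegral_map hf measurable_neg]
  simp only [heven]
  rw [smul_eq_mul, ← add_mul, ENNReal.add_halves, one_mul]

lemma hv_neg : hv.map (fun x => -x) = hv := by
  unfold hv
  rw [Measure.map_add _ _ measurable_neg, Measure.map_smul, Measure.map_smul,
    Measure.map_map measurable_neg measurable_neg]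
  have : (fun x : ℝ => -x) ∘ (fun x : ℝ => -x) = id := by funext x; simp
  rw [this, Measure.map_id, add_comm]

lemma hv_prob : IsProbabilityMeasure hv := by
  constructor
  have h1 : hv univ = ∫⁻ _x, 1 ∂hv := by simp
  rw [h1, lintegral_hv _ measurable_const (fun _ => rfl), lintegral_kap _ measurable_const]
  simp only [mul_one]
  rw [← ENNReal.ofReal_tsum_of_nonneg pw_nonneg summable_pw,
    ← ENNReal.ofReal_add (tsum_nonneg pw_nonneg) (by linarith [tsum_pw_le])]
  rw [add_sub_cancel, ENNReal.ofReal_one]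

lemma hv_mean : ∫ x, x ∂hv = 0 := by
  have h1 : ∫ x, x ∂(hv.map (fun x => -x)) = ∫ x, -x ∂hv :=
    integral_map measurable_neg.aemeasurable (by fun_prop)
  rw [hv_neg, integral_neg] at h1
  linarith

lemma hv_var : ∫ x, x ^ 2 ∂hv = 1 := by
  rw [integral_eq_lintegral_of_nonneg_ae (ae_of_all _ fun x => sq_nonneg x) (by fun_prop)]
  have hmf : Measurable (fun x : ℝ => ENNReal.ofReal (x ^ 2)) := by fun_prop
  rw [lintegral_hv _ hmf (fun x => by rw [neg_sq]), lintegral_kap _ hmf]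
  have e : ∀ j, ENNReal.ofReal (pw' j) * ENNReal.ofReal ((at' j) ^ 2) =
      ENNReal.ofReal ((1 / 2) ^ (j + 1)) := by
    intro j
    rw [← ENNReal.ofReal_mul (pw_nonneg j), pw_mul]
  simp only [e]
  rw [← ENNReal.ofReal_tsum_of_nonneg (fun j => by positivity) hasSum_half.summable,
    hasSum_half.tsum_eq]
  simp

lemma hv_log : ¬ Integrable (fun x : ℝ => x ^ 2 * Real.log (1 + |x|)) hv := by
  intro hint
  have hnn : ∀ x : ℝ, 0 ≤ x ^ 2 * Real.log (1 + |x|) := fun x =>
    mul_nonneg (sq_nonneg x) (Real.log_nonneg (by linarith [abs_nonneg x]))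
  have h1 := (hasFiniteIntegral_iff_ofReal (ae_of_all _ hnn)).mp hint.2
  have hmf : Measurable (fun x : ℝ => ENNReal.ofReal (x ^ 2 * Real.log (1 + |x|))) := by fun_prop
  rw [lintegral_hv _ hmf (fun x => by rw [neg_sq, abs_neg]), lintegral_kap _ hmf] at h1
  have hlog2 : 0 < Real.log 2 := Real.log_pos (by norm_num)
  have h2 : ∑' _j : ℕ, ENNReal.ofReal (1 / 2 * Real.log 2) ≤
      ∑' j, ENNReal.ofReal (pw' j) * ENNReal.ofReal ((at' j) ^ 2 * Real.log (1 + |at' j|)) := by
    apply ENNReal.tsum_le_tsum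
    intro j
    rw [← ENNReal.ofReal_mul (pw_nonneg j), ← mul_assoc, pw_mul]
    apply ENNReal.ofReal_le_ofReal
    have h3 : (2 : ℝ) ^ j * Real.log 2 ≤ Real.log (1 + |at' j|) := by
      rw [abs_of_pos (at_pos j)]
      have e1 : (2 : ℝ) ^ j * Real.log 2 = Real.log (at' j) := by
        unfold at'
        rw [Real.log_pow]
        push_cast
        ring
      rw [e1]
      apply Real.log_le_log (at_pos j)
      linarith
    calc 1 / 2 * Real.log 2 = (1 / 2) ^ (j + 1) * ((2 : ℝ) ^ j * Real.log 2) := by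
          rw [pow_succ, one_div_pow]
          field_simp
      _ ≤ (1 / 2) ^ (j + 1) * Real.log (1 + |at' j|) := by gcongr
  have h4 : ∑' _j : ℕ, ENNReal.ofReal (1 / 2 * Real.log 2) = ⊤ :=
    ENNReal.tsum_const_eq_top_of_ne_zero (by
      rw [Ne, ENNReal.ofReal_eq_zero]; push Not; positivity)
  rw [h4] at h2
  have h5 := top_le_iff.mp h2
  rw [h5] at h1
  simp at h1

/-- Real i.i.d. centred coefficients of variance one with infinite logarithmic second moment. -/
lemma exists_heavy : ∃ (Ω : Type) (_ : MeasurableSpace Ω) (P : Measure Ω) (ξ : ℕ → Ω → ℝ),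
    Hyp P (fun k ω => (ξ k ω : ℂ)) ∧
    ¬ Integrable (fun ω => ‖((ξ 0 ω : ℝ) : ℂ)‖ ^ 2 * Real.log (1 + ‖((ξ 0 ω : ℝ) : ℂ)‖)) P := by
  have := hv_prob
  obtain ⟨Ω, mΩ, P, X, hXm, hXl, hXi, hP⟩ := exists_iid.{0, 0} ℕ hv
  refine ⟨Ω, mΩ, P, X, hyp_of_real P X hXm hXi hv (fun k => (hXl k).map_eq) hv_mean hv_var, ?_⟩
  rw [log_integrable_iff P (X 0) (hXm 0) hv (hXl 0).map_eq]
  exact hv_log

end Pool.Agent.Y977.CH
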