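import Pool.Agent.Y977.CH.Cnt

/-!
Comparison of the limit measure with the truncated densities.
-/

open MeasureTheory ProbabilityTheory Filter Topology Set
open scoped ENNReal NNReal

namespace Pool.Agent.Y977.CH

open Pool.Agent.Results.MP_ab74d4_pr.ChaosConvergence

variable {Ω : Type*} {mΩ : MeasurableSpace Ω} {P : Measure Ω} {ξ : ℕ → Ω → ℂ}

/-- Portmanteau for open sets and finite measures. -/
lemma open_le_liminf {X : Type*} [MeasurableSpace X] [TopologicalSpace X] [OpensMeasurableSpace X]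
    [HasOuterApproxClosed X] {μ : FiniteMeasure X} {μs : ℕ → FiniteMeasure X}
    (hlim : Tendsto μs atTop (𝓝 μ)) {G : Set X} (hG : IsOpen G) :
    (μ : Measure X) G ≤ liminf (fun n => (μs n : Measure X) G) atTop := by
  have hcl := FiniteMeasure.limsup_measure_closed_le_of_tendsto hlim hG.isClosed_compl
  have hmass : Tendsto (fun n => ((μs n).mass : ℝ)) atTop (𝓝 (μ.mass : ℝ)) :=
    (NNReal.continuous_coe.tendsto _).comp ((FiniteMeasure.continuous_mass.tendsto μ).comp hlim)
  have hGm := hG.measurableSet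
  have hsplit : ∀ ν : FiniteMeasure X, ((ν : Measure X) G).toReal =
      (ν.mass : ℝ) - ((ν : Measure X) Gᶜ).toReal := by
    intro ν
    have h1 : (ν : Measure X) G + (ν : Measure X) Gᶜ = (ν : Measure X) univ :=
      measure_add_measure_compl hGm
    have h2 := congrArg ENNReal.toReal h1
    rw [ENNReal.toReal_add (measure_ne_top _ _) (measure_ne_top _ _)] at h2
    have h3 : ((ν : Measure X) univ).toReal = (ν.mass : ℝ) := by
      rw [← FiniteMeasure.ennreal_mass]; rfl
    linarith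
  have hev : ∀ ε : ℝ, 0 < ε → ∀ᶠ n in atTop,
      ENNReal.ofReal (((μ : Measure X) G).toReal - 2 * ε) ≤ (μs n : Measure X) G := by
    intro ε hε
    have h1 : limsup (fun n => (μs n : Measure X) Gᶜ) atTop < (μ : Measure X) Gᶜ + ENNReal.ofReal ε := by
      refine lt_of_le_of_lt hcl ?_
      exact ENNReal.lt_add_right (measure_ne_top _ _) (by positivity)
    have h2 := eventually_lt_of_limsup_lt h1
    have h3 : ∀ᶠ n in atTop, (μ.mass : ℝ) - ε < ((μs n).mass : ℝ) :=
      hmass.eventually_const_lt (by linarith)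
    filter_upwards [h2, h3] with n h4 h5
    have h6 : ((μs n : Measure X) Gᶜ).toReal ≤ ((μ : Measure X) Gᶜ).toReal + ε := by
      have := ENNReal.toReal_mono (ENNReal.add_ne_top.mpr ⟨measure_ne_top _ _, ENNReal.ofReal_ne_top⟩) h4.le
      rwa [ENNReal.toReal_add (measure_ne_top _ _) ENNReal.ofReal_ne_top,
        ENNReal.toReal_ofReal hε.le] at this
    rw [← ENNReal.ofReal_toReal (measure_ne_top (μs n : Measure X) G)]
    apply ENNReal.ofReal_le_ofReal
    rw [hsplit, hsplit]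
    linarith
  have hle : ∀ ε : ℝ, 0 < ε → ENNReal.ofReal (((μ : Measure X) G).toReal - 2 * ε) ≤
      liminf (fun n => (μs n : Measure X) G) atTop := fun ε hε =>
    le_liminf_of_le (by isBoundedDefault) (hev ε hε)
  have hT : Tendsto (fun ε : ℝ => ENNReal.ofReal (((μ : Measure X) G).toReal - 2 * ε)) (𝓝[>] 0)
      (𝓝 ((μ : Measure X) G)) := by
    have h1 : Tendsto (fun ε : ℝ => ((μ : Measure X) G).toReal - 2 * ε) (𝓝[>] 0)
        (𝓝 (((μ : Measure X) G).toReal - 2 * 0)) := by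
      apply Tendsto.mono_left _ nhdsWithin_le_nhds
      exact (continuous_const.sub (continuous_const.mul continuous_id)).tendsto 0
    rw [mul_zero, sub_zero] at h1
    have h2 := ENNReal.tendsto_ofReal h1
    rwa [ENNReal.ofReal_toReal (measure_ne_top _ _)] at h2
  exact le_of_tendsto hT (by filter_upwards [self_mem_nhdsWithin] with ε hε using hle ε hε)

lemma Hyp.chaosDensity_eq (h : Hyp P ξ) (γ : ℝ) (n : ℕ) (ω : Ω) (z : S1) :
    chaosDensity P ξ γ n ω z = Real.exp (γ * ∑ k ∈ Finset.range n,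
      ((ξ k ω * (z : ℂ) ^ (k + 1)).re / √((k : ℝ) + 1) - LL k ((z : ℂ) ^ (k + 1)) (ξ k ω))) *
      Real.exp (EE P ξ γ n ω z) := by
  have := h.prob
  have h1 : (randomPoly ξ n ω z).re = ∑ k ∈ Finset.range n,
      (ξ k ω * (z : ℂ) ^ (k + 1)).re / √((k : ℝ) + 1) := by
    rw [← PP_pw ξ n ω z]
    rfl
  have h2 : Var[fun ω' => (randomPoly ξ n ω' z).re; P] =
      ∑ k ∈ Finset.range n, qq P ξ k ((z : ℂ) ^ (k + 1)) := by
    have := variance_PP P ξ h.meas (fun k => h.memLp k) (fun k => h.mean' k) pw norm_pw_le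
      h.indep n z
    simp only [PP_pw] at this
    rw [this]
    rfl
  unfold chaosDensity
  rw [h1, h2, ← Real.exp_add]
  congr 1
  unfold EE
  rw [Finset.sum_sub_distrib, Finset.sum_sub_distrib, ← Finset.mul_sum, ← Finset.mul_sum]
  ring

/-- Almost surely the true density and the truncated one are comparable. -/
lemma Hyp.ae_compare (h : Hyp P ξ) (γ : ℝ) :
    ∀ᵐ ω ∂P, ∃ C : ℝ, ∀ᶠ n in atTop, ∀ z : S1,
      Real.exp (-C) * Real.exp (EE P ξ γ n ω z) ≤ chaosDensity P ξ γ n ω z ∧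
      chaosDensity P ξ γ n ω z ≤ Real.exp C * Real.exp (EE P ξ γ n ω z) := by
  have := h.prob
  filter_upwards [ae_eventually_small P ξ h.meas (fun k => h.memLp k) h.ident] with ω hω
  obtain ⟨n0, hn0⟩ := eventually_atTop.mp hω
  refine ⟨|γ| * ∑ k ∈ Finset.range n0, ‖ξ k ω‖, ?_⟩
  filter_upwards [eventually_ge_atTop n0] with n hn z
  set S := ∑ k ∈ Finset.range n,
      ((ξ k ω * (z : ℂ) ^ (k + 1)).re / √((k : ℝ) + 1) - LL k ((z : ℂ) ^ (k + 1)) (ξ k ω)) with hS
  have hSb : |γ * S| ≤ |γ| * ∑ k ∈ Finset.range n0, ‖ξ k ω‖ := by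
    rw [abs_mul]
    gcongr
    have e1 : S = ∑ k ∈ Finset.range n0,
        ((ξ k ω * (z : ℂ) ^ (k + 1)).re / √((k : ℝ) + 1) - LL k ((z : ℂ) ^ (k + 1)) (ξ k ω)) := by
      rw [hS]
      symm
      apply Finset.sum_subset (Finset.range_mono hn)
      intro k _ hk
      have hk' : n0 ≤ k := by simpa using hk
      unfold LL tr
      rw [if_pos (hn0 k hk'), sub_self]
    rw [e1]
    refine (Finset.abs_sum_le_sum_abs _ _).trans ?_
    apply Finset.sum_le_sum
    intro k _
    refine (abs_diff_LL_le k _ _).trans ?_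
    rw [norm_pow, norm_coe, one_pow, one_mul]
    exact low_le k (norm_nonneg _)
  rw [h.chaosDensity_eq γ n ω z]
  have h1 := abs_le.mp hSb
  constructor
  · exact mul_le_mul_of_nonneg_right (Real.exp_le_exp.mpr h1.1) (Real.exp_pos _).le
  · exact mul_le_mul_of_nonneg_right (Real.exp_le_exp.mpr h1.2) (Real.exp_pos _).le

/-- The random measures of the problem. -/
def IsChaos (P : Measure Ω) (ξ : ℕ → Ω → ℂ) (γ : ℝ) (μ : ℕ → Ω → FiniteMeasure S1) : Prop :=
  ∀ n ω, (μ n ω : Measure S1) =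
    arcLength.withDensity (fun z => ENNReal.ofReal (chaosDensity P ξ γ n ω z))

lemma Hyp.ae_link (h : Hyp P ξ) (γ : ℝ) (μ : ℕ → Ω → FiniteMeasure S1)
    (hμ : IsChaos P ξ γ μ) (μl : Ω → FiniteMeasure S1)
    (hlim : ∀ᵐ ω ∂P, Tendsto (fun n => μ n ω) atTop (𝓝 (μl ω))) :
    ∀ᵐ ω ∂P, ∃ C c : ℝ≥0∞, C ≠ ⊤ ∧ c ≠ 0 ∧
      (∀ U : Set S1, IsOpen U → (μl ω : Measure S1) U ≤
        C * liminf (fun n => ∫⁻ z in U, DD P ξ γ n ω z ∂arcLength) atTop) ∧
      (∀ F : Set S1, IsClosed F → c * limsup (fun n => ∫⁻ z in F, DD P ξ γ n ω z ∂arcLength) atTop ≤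
        (μl ω : Measure S1) F) := by
  filter_upwards [hlim, h.ae_compare γ] with ω h1 h2
  obtain ⟨C, hC⟩ := h2
  refine ⟨ENNReal.ofReal (Real.exp C), ENNReal.ofReal (Real.exp (-C)), ENNReal.ofReal_ne_top,
    (ENNReal.ofReal_pos.mpr (Real.exp_pos _)).ne', ?_, ?_⟩
  · intro U hU
    refine (open_le_liminf h1 hU).trans ?_
    rw [← ENNReal.liminf_const_mul_of_ne_top ENNReal.ofReal_ne_top]
    refine liminf_le_liminf ?_
    filter_upwards [hC] with n hn
    rw [hμ n ω, withDensity_apply _ hU.measurableSet, ← lintegral_const_mul' _ _ ENNReal.ofReal_ne_top]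
    apply lintegral_mono
    intro z
    simp only [DD]
    rw [← ENNReal.ofReal_mul (Real.exp_pos _).le]
    exact ENNReal.ofReal_le_ofReal (hn z).2
  · intro F hF
    refine le_trans ?_ (FiniteMeasure.limsup_measure_closed_le_of_tendsto h1 hF)
    rw [← ENNReal.limsup_const_mul_of_ne_top ENNReal.ofReal_ne_top]
    refine limsup_le_limsup ?_
    filter_upwards [hC] with n hn
    rw [hμ n ω, withDensity_apply _ hF.measurableSet, ← lintegral_const_mul' _ _ ENNReal.ofReal_ne_top]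
    apply lintegral_mono
    intro z
    simp only [DD]
    rw [← ENNReal.ofReal_mul (Real.exp_pos _).le]
    exact ENNReal.ofReal_le_ofReal (hn z).1

end Pool.Agent.Y977.CH
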