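import Pool.Agent.Y977.CH.Pos2
import Pool.Agent.Y977.CH.Law

/-!
The dichotomy for the dimension of the limit measure.
-/

namespace Pool.Agent.Y977.CH

open MeasureTheory ProbabilityTheory Filter Topology
open Pool.Agent.Results.MP_ab74d4_pr.ChaosConvergence

lemma dim_of_eq_zero (ν : FiniteMeasure S1) (h : ν = 0) : dimMeasure (ν : Measure S1) = 0 := by
  apply le_antisymm _ zero_le
  unfold dimMeasure
  have h0 : (ν : Measure S1) (∅ : Set S1)ᶜ = 0 := by rw [h]; simp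
  refine (iInf₂_le ∅ ⟨MeasurableSet.empty, h0⟩).trans ?_
  rw [dimH_empty]

/-- The dichotomy. -/
lemma dichotomy {Ω : Type*} {mΩ : MeasurableSpace Ω} (P : Measure Ω) (ξ : ℕ → Ω → ℂ)
    (h : Hyp P ξ) (γ : ℝ) (hγ : 0 < γ) (μ : ℕ → Ω → FiniteMeasure S1) (hμ : IsChaos P ξ γ μ)
    (μlim : Ω → FiniteMeasure S1)
    (hlim : ∀ᵐ ω ∂P, Tendsto (fun n => μ n ω) atTop (𝓝 (μlim ω))) :
    (Integrable (fun ω => ‖ξ 0 ω‖ ^ 2 * Real.log (1 + ‖ξ 0 ω‖)) P → γ ^ 2 < 2 →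
      ∀ᵐ ω ∂P, dimMeasure (μlim ω : Measure S1) = ENNReal.ofReal (1 - γ ^ 2 / 4)) ∧
    (¬ Integrable (fun ω => ‖ξ 0 ω‖ ^ 2 * Real.log (1 + ‖ξ 0 ω‖)) P →
      ∀ᵐ ω ∂P, μlim ω = 0 ∧ dimMeasure (μlim ω : Measure S1) = 0) := by
  constructor
  · intro hlog hγ2
    have hs := h.summable_tl hlog
    have hg : γ ^ 2 / 2 < 1 := by linarith
    exact h.ae_dim γ hg 1 (1 / 4) (by simp) (by norm_num) μ hμ μlim hlim
      (h.ae_pos γ hg hs μ hμ μlim hlim)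
  · intro hlog
    have hs : ¬ Summable (tl P ξ) := fun hs => hlog (h.log_of_summable hs)
    filter_upwards [h.ae_zero γ hγ.ne' hs μ hμ μlim hlim] with ω hω
    exact ⟨hω, dim_of_eq_zero _ hω⟩

lemma exists_chaos {Ω : Type*} {mΩ : MeasurableSpace Ω} (P : Measure Ω) (ξ : ℕ → Ω → ℂ)
    (h : Hyp P ξ) (γ : ℝ) :
    ∃ (μ : ℕ → Ω → FiniteMeasure S1) (μlim : Ω → FiniteMeasure S1), IsChaos P ξ γ μ ∧
      ∀ᵐ ω ∂P, Tendsto (fun n => μ n ω) atTop (𝓝 (μlim ω)) := by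
  have := h.prob
  obtain ⟨μ, μlim, h1, _, _, h4, _⟩ :=
    Pool.Agent.Results.MP_ab74d4_pr.ChaosConvergence.result P ξ h.meas h.indep h.ident h.mean
      h.var γ
  exact ⟨μ, μlim, h1, h4⟩

lemma gaussian_case {Ω : Type*} {mΩ : MeasurableSpace Ω} (P : Measure Ω) (g : ℕ → Ω → ℝ)
    (hP : IsProbabilityMeasure P) (hm : ∀ k, Measurable (g k)) (hind : iIndepFun g P)
    (hlaw : ∀ k, P.map (g k) = gaussianReal 0 1) :
    Hyp P (fun k ω => (g k ω : ℂ)) ∧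
    Integrable (fun ω => ‖((g 0 ω : ℝ) : ℂ)‖ ^ 2 * Real.log (1 + ‖((g 0 ω : ℝ) : ℂ)‖)) P := by
  obtain ⟨m0, m1⟩ := gaussian_moments
  exact ⟨hyp_of_real P g hm hind (gaussianReal 0 1) hlaw m0 m1,
    (log_integrable_iff P (g 0) (hm 0) (gaussianReal 0 1) (hlaw 0)).mpr gaussian_log⟩

end Pool.Agent.Y977.CH
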