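import Pool.Agent.Results.MP_ab74d4_pr.ChaosConvergence

/-!
Exponential moments of the truncated summands.
-/

open MeasureTheory ProbabilityTheory Filter Topology Set
open scoped ENNReal NNReal

namespace Pool.Agent.Y977.CH

open Pool.Agent.Results.MP_ab74d4_pr.ChaosConvergence

variable {Ω : Type*} {mΩ : MeasurableSpace Ω}

/-- The standing hypotheses on the coefficients. -/
structure Hyp (P : Measure Ω) (ξ : ℕ → Ω → ℂ) : Prop where
  prob : IsProbabilityMeasure P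
  meas : ∀ k, Measurable (ξ k)
  indep : iIndepFun ξ P
  ident : ∀ k, IdentDistrib (ξ k) (ξ 0) P P
  mean : ∫ ω, ξ 0 ω ∂P = 0
  var : ∫ ω, ‖ξ 0 ω‖ ^ 2 ∂P = 1

/-- The truncated summand in direction `u`. -/
noncomputable def LL (k : ℕ) (u c : ℂ) : ℝ := (tr k c * u).re / √((k : ℝ) + 1)

lemma norm_tr_le (k : ℕ) (c : ℂ) : ‖tr k c‖ ≤ √((k : ℝ) + 1) := by
  unfold tr
  split_ifs with h
  · exact Real.le_sqrt_of_sq_le h
  · simp

lemma sqrt_pos' (k : ℕ) : 0 < √((k : ℝ) + 1) := Real.sqrt_pos.mpr (by positivity)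

lemma one_le_sqrt' (k : ℕ) : 1 ≤ √((k : ℝ) + 1) := by
  rw [Real.one_le_sqrt]; linarith [(Nat.cast_nonneg k : (0 : ℝ) ≤ k)]

lemma abs_LL_le (k : ℕ) (u c : ℂ) : |LL k u c| ≤ ‖u‖ := by
  unfold LL
  rw [abs_div, abs_of_nonneg (Real.sqrt_nonneg _), div_le_iff₀ (sqrt_pos' k)]
  calc |(tr k c * u).re| ≤ ‖tr k c * u‖ := Complex.abs_re_le_norm _
    _ = ‖tr k c‖ * ‖u‖ := norm_mul _ _
    _ ≤ √((k : ℝ) + 1) * ‖u‖ := by gcongr; exact norm_tr_le k c
    _ = ‖u‖ * √((k : ℝ) + 1) := mul_comm _ _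

lemma abs_LL_cube_le (k : ℕ) (u c : ℂ) : |LL k u c| ^ 3 ≤ ‖u‖ ^ 3 * high k ‖c‖ := by
  unfold LL tr high
  split_ifs with h
  · rw [← mul_pow]
    apply pow_le_pow_left₀ (abs_nonneg _)
    rw [abs_div, abs_of_nonneg (Real.sqrt_nonneg _), ← mul_div_assoc]
    gcongr
    calc |(c * u).re| ≤ ‖c * u‖ := Complex.abs_re_le_norm _
      _ = ‖u‖ * ‖c‖ := by rw [norm_mul, mul_comm]
  · simp

lemma abs_diff_LL_le (k : ℕ) (u c : ℂ) :
    |(c * u).re / √((k : ℝ) + 1) - LL k u c| ≤ ‖u‖ * low k ‖c‖ := by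
  unfold LL tr low
  split_ifs with h
  · simp
  · simp only [zero_mul, Complex.zero_re, zero_div, sub_zero]
    rw [abs_div, abs_of_nonneg (Real.sqrt_nonneg _), ← mul_div_assoc]
    gcongr
    calc |(c * u).re| ≤ ‖c * u‖ := Complex.abs_re_le_norm _
      _ = ‖u‖ * ‖c‖ := by rw [norm_mul, mul_comm]

lemma measurable_LL (k : ℕ) : Measurable (fun p : ℂ × ℂ => LL k p.1 p.2) := by
  unfold LL
  have h1 : Measurable (fun p : ℂ × ℂ => tr k p.2) := (measurable_tr k).comp measurable_snd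
  exact (Complex.measurable_re.comp (h1.mul measurable_fst)).div_const _

lemma measurable_LL_right (k : ℕ) (u : ℂ) : Measurable (fun c => LL k u c) := by
  unfold LL
  exact (Complex.measurable_re.comp ((measurable_tr k).mul_const u)).div_const _

lemma sq_LL_le (k : ℕ) (u c : ℂ) : (LL k u c) ^ 2 ≤ ((c * u).re / √((k : ℝ) + 1)) ^ 2 := by
  unfold LL tr
  split_ifs with h
  · exact le_rfl
  · simp only [zero_mul, Complex.zero_re, zero_div]
    rw [zero_pow two_ne_zero]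
    exact sq_nonneg _

lemma abs_exp_sub_le (y B : ℝ) (hy : |y| ≤ B) :
    |Real.exp y - 1 - y - y ^ 2 / 2| ≤ Real.exp B * |y| ^ 3 := by
  have h := Complex.norm_exp_sub_sum_le_norm_mul_exp ((y : ℝ) : ℂ) 3
  have h1 : Complex.exp ((y : ℝ) : ℂ) -
      ∑ m ∈ Finset.range 3, ((y : ℝ) : ℂ) ^ m / (m.factorial : ℂ)
      = ((Real.exp y - (1 + y + y ^ 2 / 2) : ℝ) : ℂ) := by
    simp [Finset.sum_range_succ, Nat.factorial]
  rw [h1, Complex.norm_real, Complex.norm_real, Real.norm_eq_abs, Real.norm_eq_abs] at h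
  have e : Real.exp y - 1 - y - y ^ 2 / 2 = Real.exp y - (1 + y + y ^ 2 / 2) := by ring
  rw [e]
  refine h.trans ?_
  rw [mul_comm]
  gcongr

variable {P : Measure Ω} {ξ : ℕ → Ω → ℂ}

/-- The second moment of the summand in direction `u`. -/
noncomputable def qq (P : Measure Ω) (ξ : ℕ → Ω → ℂ) (k : ℕ) (u : ℂ) : ℝ :=
  ∫ ω, ((ξ k ω * u).re / √((k : ℝ) + 1)) ^ 2 ∂P

/-- The second moment of the truncated summand in direction `u`. -/
noncomputable def qt (P : Measure Ω) (ξ : ℕ → Ω → ℂ) (k : ℕ) (u : ℂ) : ℝ :=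
  ∫ ω, (LL k u (ξ k ω)) ^ 2 ∂P

namespace Hyp

variable (h : Hyp P ξ)
include h

lemma sq_int : Integrable (fun ω => ‖ξ 0 ω‖ ^ 2) P := by
  by_contra hcon
  have := h.var
  rw [integral_undef hcon] at this
  exact zero_ne_one this

lemma memLp (k : ℕ) : MemLp (ξ k) 2 P := by
  have hL0 : MemLp (ξ 0) 2 P := by
    rw [← integrable_norm_rpow_iff (h.meas 0).aestronglyMeasurable (by norm_num) (by norm_num)]
    simpa using h.sq_int
  exact (h.ident k).symm.memLp_snd hL0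

lemma mean' (k : ℕ) : ∫ ω, ξ k ω ∂P = 0 := by
  rw [(h.ident k).integral_eq]; exact h.mean

lemma integrable (k : ℕ) : Integrable (ξ k) P := by
  have := h.prob
  exact (h.memLp k).integrable (by norm_num)

lemma sq_int' (k : ℕ) : Integrable (fun ω => ‖ξ k ω‖ ^ 2) P :=
  (h.memLp k).integrable_norm_pow (by norm_num)

lemma var' (k : ℕ) : ∫ ω, ‖ξ k ω‖ ^ 2 ∂P = 1 := by
  have h1 := ((h.ident k).comp (u := fun c : ℂ => ‖c‖ ^ 2) (by fun_prop)).integral_eq
  simp only [Function.comp_def] at h1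
  rw [h1]
  exact h.var

lemma measurable_LL_xi (k : ℕ) (u : ℂ) : Measurable (fun ω => LL k u (ξ k ω)) :=
  (measurable_LL_right k u).comp (h.meas k)

lemma memLp_dir (k : ℕ) (u : ℂ) : MemLp (fun ω => (ξ k ω * u).re / √((k : ℝ) + 1)) 2 P := by
  refine ((h.memLp k).const_mul (u : ℂ)).of_le ?_ (ae_of_all _ fun ω => ?_)
  · exact ((Complex.measurable_re.comp ((h.meas k).mul_const u)).div_const _).aestronglyMeasurable
  · rw [Real.norm_eq_abs, abs_div, abs_of_nonneg (Real.sqrt_nonneg _)]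
    refine (div_le_self (abs_nonneg _) (one_le_sqrt' k)).trans ?_
    rw [mul_comm u]
    exact Complex.abs_re_le_norm _

lemma integral_dir (k : ℕ) (u : ℂ) : ∫ ω, (ξ k ω * u).re / √((k : ℝ) + 1) ∂P = 0 := by
  rw [integral_div]
  have h1 : ∫ ω, (ξ k ω * u).re ∂P = (∫ ω, ξ k ω * u ∂P).re := by
    have := integral_re ((h.integrable k).mul_const u)
    simpa using this
  rw [h1, integral_mul_const, h.mean' k]
  simp

lemma integrable_LL (k : ℕ) (u : ℂ) : Integrable (fun ω => LL k u (ξ k ω)) P := by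
  have := h.prob
  exact Integrable.of_bound (h.measurable_LL_xi k u).aestronglyMeasurable ‖u‖
    (ae_of_all _ fun ω => by rw [Real.norm_eq_abs]; exact abs_LL_le k u _)

lemma integrable_LL_sq (k : ℕ) (u : ℂ) : Integrable (fun ω => (LL k u (ξ k ω)) ^ 2) P := by
  have := h.prob
  exact Integrable.of_bound ((h.measurable_LL_xi k u).pow_const 2).aestronglyMeasurable (‖u‖ ^ 2)
    (ae_of_all _ fun ω => by
      rw [norm_pow, Real.norm_eq_abs]
      exact pow_le_pow_left₀ (abs_nonneg _) (abs_LL_le k u _) 2)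

lemma integrable_exp_LL (k : ℕ) (u : ℂ) : Integrable (fun ω => Real.exp (LL k u (ξ k ω))) P := by
  have := h.prob
  exact Integrable.of_bound (h.measurable_LL_xi k u).exp.aestronglyMeasurable (Real.exp ‖u‖)
    (ae_of_all _ fun ω => by
      rw [Real.norm_eq_abs, Real.abs_exp]
      exact Real.exp_le_exp.mpr ((le_abs_self _).trans (abs_LL_le k u _)))

lemma qt_le_qq (k : ℕ) (u : ℂ) : qt P ξ k u ≤ qq P ξ k u :=
  integral_mono (h.integrable_LL_sq k u) (h.memLp_dir k u).integrable_sq fun _ => sq_LL_le k u _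

lemma abs_integral_LL_le (k : ℕ) (u : ℂ) :
    |∫ ω, LL k u (ξ k ω) ∂P| ≤ ‖u‖ * ∫ ω, low k ‖ξ k ω‖ ∂P := by
  have := h.prob
  have hint : Integrable (fun ω => (ξ k ω * u).re / √((k : ℝ) + 1)) P :=
    (h.memLp_dir k u).integrable (by norm_num)
  have h2 : ∫ ω, LL k u (ξ k ω) ∂P =
      - ∫ ω, ((ξ k ω * u).re / √((k : ℝ) + 1) - LL k u (ξ k ω)) ∂P := by
    rw [integral_sub hint (h.integrable_LL k u), h.integral_dir k u]; ring
  rw [h2, abs_neg, ← integral_const_mul]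
  refine (abs_integral_le_integral_abs).trans ?_
  refine integral_mono (hint.sub (h.integrable_LL k u)).abs
    ((integrable_low P ξ h.meas (fun k => h.memLp k) k k).const_mul _) ?_
  intro ω
  exact abs_diff_LL_le k u _

/-- Second order expansion of the exponential moment of the truncated summand. -/
lemma abs_mgf_sub_le (k : ℕ) (u : ℂ) (B : ℝ) (hu : ‖u‖ ≤ B) :
    |∫ ω, Real.exp (LL k u (ξ k ω)) ∂P - (1 + qt P ξ k u / 2)| ≤ dl P ξ B k := by
  have := h.prob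
  have hB : 0 ≤ B := (norm_nonneg u).trans hu
  set y : Ω → ℝ := fun ω => LL k u (ξ k ω) with hy
  have hyb : ∀ ω, |y ω| ≤ B := fun ω => (abs_LL_le k u _).trans hu
  have i0 : Integrable (fun ω => Real.exp (y ω)) P := h.integrable_exp_LL k u
  have i1 : Integrable y P := h.integrable_LL k u
  have i2 : Integrable (fun ω => (y ω) ^ 2) P := h.integrable_LL_sq k u
  have hh : Integrable (fun ω => high k ‖ξ k ω‖) P := integrable_high P ξ h.meas k k
  have e1 : ∫ ω, (Real.exp (y ω) - 1 - y ω - (y ω) ^ 2 / 2) ∂P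
      = ∫ ω, Real.exp (y ω) ∂P - 1 - ∫ ω, y ω ∂P - (∫ ω, (y ω) ^ 2 ∂P) / 2 := by
    have j1 : Integrable (fun ω => Real.exp (y ω) - 1) P := i0.sub (integrable_const 1)
    have j2 : Integrable (fun ω => Real.exp (y ω) - 1 - y ω) P := j1.sub i1
    rw [integral_sub j2 (i2.div_const 2), integral_sub j1 i1, integral_sub i0 (integrable_const 1),
      integral_div]
    simp
  have e2 : |∫ ω, (Real.exp (y ω) - 1 - y ω - (y ω) ^ 2 / 2) ∂P|
      ≤ B ^ 3 * Real.exp B * ∫ ω, high k ‖ξ k ω‖ ∂P := by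
    rw [← integral_const_mul]
    refine (abs_integral_le_integral_abs).trans ?_
    refine integral_mono (((i0.sub (integrable_const 1)).sub i1).sub (i2.div_const 2)).abs
      (hh.const_mul _) ?_
    intro ω
    refine (abs_exp_sub_le (y ω) B (hyb ω)).trans ?_
    have e3 : |y ω| ^ 3 ≤ B ^ 3 * high k ‖ξ k ω‖ := by
      refine (abs_LL_cube_le k u (ξ k ω)).trans ?_
      have := high_nonneg k (norm_nonneg (ξ k ω))
      gcongr
    calc Real.exp B * |y ω| ^ 3 ≤ Real.exp B * (B ^ 3 * high k ‖ξ k ω‖) := by gcongr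
      _ = B ^ 3 * Real.exp B * high k ‖ξ k ω‖ := by ring
  have e4 : |∫ ω, y ω ∂P| ≤ B * ∫ ω, low k ‖ξ k ω‖ ∂P := by
    refine (h.abs_integral_LL_le k u).trans ?_
    have : 0 ≤ ∫ ω, low k ‖ξ k ω‖ ∂P := integral_nonneg fun ω => low_nonneg k (norm_nonneg _)
    gcongr
  have e5 : dl P ξ B k = B * ∫ ω, low k ‖ξ k ω‖ ∂P +
      B ^ 3 * Real.exp B * ∫ ω, high k ‖ξ k ω‖ ∂P := by
    unfold dl
    rw [abs_of_nonneg hB]
  rw [e5]
  have e6 : ∫ ω, Real.exp (y ω) ∂P - (1 + qt P ξ k u / 2) =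
      ∫ ω, (Real.exp (y ω) - 1 - y ω - (y ω) ^ 2 / 2) ∂P + ∫ ω, y ω ∂P := by
    rw [e1]
    unfold qt
    ring
  rw [e6]
  refine (abs_add_le _ _).trans ?_
  linarith

lemma mgf_le' (k : ℕ) (u : ℂ) (B : ℝ) (hu : ‖u‖ ≤ B) :
    ∫ ω, Real.exp (LL k u (ξ k ω)) ∂P ≤ Real.exp (qt P ξ k u / 2 + dl P ξ B k) := by
  have h1 := h.abs_mgf_sub_le k u B hu
  rw [abs_le] at h1
  have h3 := Real.add_one_le_exp (qt P ξ k u / 2 + dl P ξ B k)
  linarith [h1.2]

lemma mgf_le (k : ℕ) (u : ℂ) (B : ℝ) (hu : ‖u‖ ≤ B) :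
    ∫ ω, Real.exp (LL k u (ξ k ω)) ∂P ≤ Real.exp (qq P ξ k u / 2 + dl P ξ B k) := by
  refine (h.mgf_le' k u B hu).trans ?_
  have := h.qt_le_qq k u
  gcongr

/-- Independence: exponential moments of sums. -/
lemma integral_exp_sum (s : Finset ℕ) (u : ℕ → ℂ) :
    ∫ ω, Real.exp (∑ k ∈ s, LL k (u k) (ξ k ω)) ∂P
      = ∏ k ∈ s, ∫ ω, Real.exp (LL k (u k) (ξ k ω)) ∂P := by
  have hind : iIndepFun (fun k ω => LL k (u k) (ξ k ω)) P :=
    h.indep.comp (fun k c => LL k (u k) c) (fun k => measurable_LL_right k (u k))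
  have h1 := hind.mgf_sum (t := 1) (fun k => h.measurable_LL_xi k (u k)) s
  unfold mgf at h1
  simpa using h1

lemma integrable_exp_sum (s : Finset ℕ) (u : ℕ → ℂ) :
    Integrable (fun ω => Real.exp (∑ k ∈ s, LL k (u k) (ξ k ω))) P := by
  have := h.prob
  refine Integrable.of_bound (C := Real.exp (∑ k ∈ s, ‖u k‖)) ?_ (ae_of_all _ fun ω => ?_)
  · exact (Finset.measurable_sum _ fun k _ => h.measurable_LL_xi k (u k)).exp.aestronglyMeasurable
  · rw [Real.norm_eq_abs, Real.abs_exp]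
    apply Real.exp_le_exp.mpr
    exact Finset.sum_le_sum fun k _ => (le_abs_self _).trans (abs_LL_le k _ _)

lemma lintegral_exp_sum_le (s : Finset ℕ) (u : ℕ → ℂ) (B : ℝ) (hu : ∀ k ∈ s, ‖u k‖ ≤ B) :
    ∫⁻ ω, ENNReal.ofReal (Real.exp (∑ k ∈ s, LL k (u k) (ξ k ω))) ∂P
      ≤ ENNReal.ofReal (Real.exp (∑ k ∈ s, (qq P ξ k (u k) / 2 + dl P ξ B k))) := by
  rw [← ofReal_integral_eq_lintegral_ofReal (h.integrable_exp_sum s u)
    (ae_of_all _ fun ω => (Real.exp_pos _).le), h.integral_exp_sum s u]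
  apply ENNReal.ofReal_le_ofReal
  rw [Real.exp_sum]
  apply Finset.prod_le_prod
  · intro k _
    exact integral_nonneg fun ω => (Real.exp_pos _).le
  · intro k hk
    exact h.mgf_le k (u k) B (hu k hk)

lemma lintegral_exp_sum_le' (s : Finset ℕ) (u : ℕ → ℂ) (B : ℝ) (hu : ∀ k ∈ s, ‖u k‖ ≤ B) :
    ∫⁻ ω, ENNReal.ofReal (Real.exp (∑ k ∈ s, LL k (u k) (ξ k ω))) ∂P
      ≤ ENNReal.ofReal (Real.exp (∑ k ∈ s, (qt P ξ k (u k) / 2 + dl P ξ B k))) := by
  rw [← ofReal_integral_eq_lintegral_ofReal (h.integrable_exp_sum s u)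
    (ae_of_all _ fun ω => (Real.exp_pos _).le), h.integral_exp_sum s u]
  apply ENNReal.ofReal_le_ofReal
  rw [Real.exp_sum]
  apply Finset.prod_le_prod
  · intro k _
    exact integral_nonneg fun ω => (Real.exp_pos _).le
  · intro k hk
    exact h.mgf_le' k (u k) B (hu k hk)

lemma summable_dl' (B : ℝ) : Summable (dl P ξ B) := by
  have := h.prob
  exact summable_dl P ξ h.meas (fun k => h.memLp k) B h.ident

lemma sum_dl_le (s : Finset ℕ) (B : ℝ) : ∑ k ∈ s, dl P ξ B k ≤ ∑' k, dl P ξ B k := by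
  have := h.prob
  exact (h.summable_dl' B).sum_le_tsum s fun k _ => dl_nonneg P ξ B k

end Hyp

end Pool.Agent.Y977.CH
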