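import Pool.Agent.Y977.CH.Zero

/-!
Positivity of the limit measure when the logarithmic moment is finite.
-/

open MeasureTheory ProbabilityTheory Filter Topology Set
open scoped ENNReal NNReal

namespace Pool.Agent.Y977.CH

open Pool.Agent.Results.MP_ab74d4_pr.ChaosConvergence

variable {Ω : Type*} {mΩ : MeasurableSpace Ω} {P : Measure Ω} {ξ : ℕ → Ω → ℂ}

/-- The exponent of the density with the levels below `m` removed. -/
noncomputable def ET (P : Measure Ω) (ξ : ℕ → Ω → ℂ) (γ : ℝ) (m n : ℕ) (ω : Ω) (z : ℂ) : ℝ :=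
  ∑ k ∈ Finset.Ico m n, (γ * LL k (z ^ (k + 1)) (ξ k ω) - γ ^ 2 / 2 * qq P ξ k (z ^ (k + 1)))

/-- The reference closed arc. -/
def F0 : Set S1 := {z | 1 / 2 ≤ (z : ℂ).im}

lemma isClosed_F0 : IsClosed F0 := by
  unfold F0
  exact isClosed_le continuous_const (Complex.continuous_im.comp continuous_subtype_val)

lemma F0_subset : F0 ⊆ JJ 1 (1 / 4) := by
  intro z hz
  have h1 : (1 : ℝ) / 2 ≤ (z : ℂ).im := hz
  show (1 : ℝ) / 4 < 1 * (z : ℂ).im
  linarith

lemma arcLength_F0 : 2 ≤ arcLength F0 := by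
  unfold arcLength
  rw [Measure.map_apply continuous_expPoint.measurable isClosed_F0.measurableSet,
    Measure.restrict_apply (continuous_expPoint.measurable isClosed_F0.measurableSet)]
  have hsub : Icc (Real.pi / 2 - 1) (Real.pi / 2 + 1) ⊆
      expPoint ⁻¹' F0 ∩ Ioc (-Real.pi) Real.pi := by
    intro θ hθ
    have hpi := Real.pi_gt_three
    refine ⟨?_, ?_, ?_⟩
    · show (1 : ℝ) / 2 ≤ ((expPoint θ : S1) : ℂ).im
      rw [coe_expPoint, Complex.exp_ofReal_mul_I_im]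
      have h1 : Real.sin θ = Real.cos (θ - Real.pi / 2) := by
        rw [Real.cos_sub_pi_div_two]
      rw [h1]
      have h2 := Real.one_sub_sq_div_two_le_cos (x := θ - Real.pi / 2)
      have h3 : (θ - Real.pi / 2) ^ 2 ≤ 1 := by
        have a1 := hθ.1
        have a2 := hθ.2
        nlinarith
      linarith
    · linarith [hθ.1]
    · linarith [hθ.2]
  refine le_trans ?_ (measure_mono hsub)
  rw [Real.volume_Icc]
  have : Real.pi / 2 + 1 - (Real.pi / 2 - 1) = 2 := by ring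
  rw [this]
  norm_num

/-- mass of the reference arc -/
noncomputable def ZZ (P : Measure Ω) (ξ : ℕ → Ω → ℂ) (γ : ℝ) (m n : ℕ) (ω : Ω) : ℝ≥0∞ :=
  ∫⁻ z in F0, ENNReal.ofReal (Real.exp (ET P ξ γ m n ω z)) ∂arcLength

lemma Hyp.qq_unit_le_one (h : Hyp P ξ) (k : ℕ) (z : S1) :
    qq P ξ k ((z : ℂ) ^ (k + 1)) ≤ 1 := by
  refine (h.qq_unit_le k z (norm_coe z)).trans ?_
  rw [div_le_one (by positivity)]
  linarith [(Nat.cast_nonneg k : (0 : ℝ) ≤ k)]

lemma Hyp.abs_term_le (h : Hyp P ξ) (γ : ℝ) (k : ℕ) (ω : Ω) (z : S1) :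
    |γ * LL k ((z : ℂ) ^ (k + 1)) (ξ k ω) - γ ^ 2 / 2 * qq P ξ k ((z : ℂ) ^ (k + 1))| ≤
      |γ| + γ ^ 2 / 2 := by
  have h1 : |LL k ((z : ℂ) ^ (k + 1)) (ξ k ω)| ≤ 1 := by
    refine (abs_LL_le _ _ _).trans ?_
    rw [norm_pow, norm_coe, one_pow]
  have h2 := h.qq_unit_le_one k z
  have h3 := h.qq_nonneg k ((z : ℂ) ^ (k + 1))
  calc _ ≤ |γ * LL k ((z : ℂ) ^ (k + 1)) (ξ k ω)| + |γ ^ 2 / 2 * qq P ξ k ((z : ℂ) ^ (k + 1))| :=
        abs_sub _ _
    _ ≤ |γ| * 1 + γ ^ 2 / 2 * 1 := by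
        rw [abs_mul, abs_mul (γ ^ 2 / 2), abs_of_nonneg (by positivity : (0 : ℝ) ≤ γ ^ 2 / 2),
          abs_of_nonneg h3]
        gcongr
    _ = _ := by ring

lemma Hyp.ET_compare (h : Hyp P ξ) (γ : ℝ) (m n : ℕ) (hmn : m ≤ n) (ω : Ω) (z : S1) :
    |ET P ξ γ 0 n ω z - ET P ξ γ m n ω z| ≤ m * (|γ| + γ ^ 2 / 2) := by
  unfold ET
  rw [← Finset.sum_Ico_consecutive _ (Nat.zero_le m) hmn, add_sub_cancel_right]
  refine (Finset.abs_sum_le_sum_abs _ _).trans ?_
  refine (Finset.sum_le_sum fun k _ => h.abs_term_le γ k ω z).trans ?_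
  rw [Finset.sum_const, Nat.card_Ico, nsmul_eq_mul, Nat.sub_zero]

lemma Hyp.ZZ_le (h : Hyp P ξ) (γ : ℝ) (m n : ℕ) (hmn : m ≤ n) (ω : Ω) :
    ZZ P ξ γ 0 n ω ≤ ENNReal.ofReal (Real.exp (m * (|γ| + γ ^ 2 / 2))) * ZZ P ξ γ m n ω := by
  unfold ZZ
  rw [← lintegral_const_mul' _ _ ENNReal.ofReal_ne_top]
  apply lintegral_mono
  intro z
  simp only []
  rw [← ENNReal.ofReal_mul (Real.exp_pos _).le, ← Real.exp_add]
  apply ENNReal.ofReal_le_ofReal
  apply Real.exp_le_exp.mpr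
  have := (abs_le.mp (h.ET_compare γ m n hmn ω z)).2
  linarith

lemma Hyp.ZZ_ge (h : Hyp P ξ) (γ : ℝ) (m n : ℕ) (hmn : m ≤ n) (ω : Ω) :
    ZZ P ξ γ m n ω ≤ ENNReal.ofReal (Real.exp (m * (|γ| + γ ^ 2 / 2))) * ZZ P ξ γ 0 n ω := by
  unfold ZZ
  rw [← lintegral_const_mul' _ _ ENNReal.ofReal_ne_top]
  apply lintegral_mono
  intro z
  simp only []
  rw [← ENNReal.ofReal_mul (Real.exp_pos _).le, ← Real.exp_add]
  apply ENNReal.ofReal_le_ofReal
  apply Real.exp_le_exp.mpr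
  have := (abs_le.mp (h.ET_compare γ m n hmn ω z)).1
  linarith

/-- The event that the mass of the reference arc tends to zero. -/
def N0 (P : Measure Ω) (ξ : ℕ → Ω → ℂ) (γ : ℝ) (m : ℕ) : Set Ω :=
  {ω | limsup (fun n => ZZ P ξ γ m n ω) atTop = 0}

lemma Hyp.N0_eq (h : Hyp P ξ) (γ : ℝ) (m : ℕ) : N0 P ξ γ 0 = N0 P ξ γ m := by
  ext ω
  unfold N0
  simp only [mem_ofPred_eq]
  have hC : ENNReal.ofReal (Real.exp (m * (|γ| + γ ^ 2 / 2))) ≠ ⊤ := ENNReal.ofReal_ne_top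
  constructor
  · intro h0
    apply le_antisymm _ zero_le
    have h1 : limsup (fun n => ZZ P ξ γ m n ω) atTop ≤
        limsup (fun n => ENNReal.ofReal (Real.exp (m * (|γ| + γ ^ 2 / 2))) * ZZ P ξ γ 0 n ω) atTop := by
      refine limsup_le_limsup ?_
      filter_upwards [eventually_ge_atTop m] with n hn
      exact h.ZZ_ge γ m n hn ω
    rw [ENNReal.limsup_const_mul_of_ne_top hC, h0, mul_zero] at h1
    exact h1
  · intro h0
    apply le_antisymm _ zero_le
    have h1 : limsup (fun n => ZZ P ξ γ 0 n ω) atTop ≤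
        limsup (fun n => ENNReal.ofReal (Real.exp (m * (|γ| + γ ^ 2 / 2))) * ZZ P ξ γ m n ω) atTop := by
      refine limsup_le_limsup ?_
      filter_upwards [eventually_ge_atTop m] with n hn
      exact h.ZZ_le γ m n hn ω
    rw [ENNReal.limsup_const_mul_of_ne_top hC, h0, mul_zero] at h1
    exact h1

/-- Measurability of the tail exponent with respect to any sigma-algebra that makes the relevant
coefficients measurable. -/
lemma Hyp.measurable_ET (h : Hyp P ξ) (γ : ℝ) (m n : ℕ) (m' : MeasurableSpace Ω)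
    (hm' : ∀ k ∈ Finset.Ico m n, Measurable[m'] (ξ k)) :
    Measurable[m'.prod inferInstance] (fun p : Ω × S1 => ET P ξ γ m n p.1 (p.2 : ℂ)) := by
  unfold ET
  apply Finset.measurable_sum
  intro k hk
  have h1 : Measurable[m'.prod inferInstance]
      (fun p : Ω × S1 => LL k ((p.2 : ℂ) ^ (k + 1)) (ξ k p.1)) := by
    unfold LL
    have e1 : Measurable[m'.prod inferInstance] (fun p : Ω × S1 => tr k (ξ k p.1)) :=
      (measurable_tr k).comp ((hm' k hk).comp measurable_fst)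
    have e2 : Measurable[m'.prod inferInstance] (fun p : Ω × S1 => (p.2 : ℂ) ^ (k + 1)) :=
      (measurable_subtype_coe.comp measurable_snd).pow_const _
    exact (Complex.measurable_re.comp (e1.mul e2)).div_const _
  have h2 : Measurable[m'.prod inferInstance]
      (fun p : Ω × S1 => qq P ξ k ((p.2 : ℂ) ^ (k + 1))) :=
    (((h.continuous_qq k).comp (continuous_pow (k + 1))).measurable.comp
      measurable_subtype_coe).comp measurable_snd
  exact (h1.const_mul γ).sub (h2.const_mul _)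

lemma Hyp.measurable_ZZ (h : Hyp P ξ) (γ : ℝ) (m n : ℕ) (m' : MeasurableSpace Ω)
    (hm' : ∀ k ∈ Finset.Ico m n, Measurable[m'] (ξ k)) :
    Measurable[m'] (ZZ P ξ γ m n) := by
  unfold ZZ
  have h1 := (h.measurable_ET γ m n m' hm').exp.ennreal_ofReal
  exact @Measurable.lintegral_prod_right' Ω S1 m' _ _ _ _ h1

/-- the sigma-algebra of one coefficient -/
noncomputable abbrev sg (ξ : ℕ → Ω → ℂ) (k : ℕ) : MeasurableSpace Ω := MeasurableSpace.comap (ξ k) inferInstance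

lemma Hyp.measurableSet_N0 (h : Hyp P ξ) (γ : ℝ) :
    MeasurableSet[limsup (sg ξ) atTop] (N0 P ξ γ 0) := by
  rw [limsup_eq_iInf_iSup_of_nat]
  rw [MeasurableSpace.measurableSet_iInf]
  intro m
  rw [h.N0_eq γ m]
  unfold N0
  have hZ : ∀ n, Measurable[⨆ i ≥ m, sg ξ i] (ZZ P ξ γ m n) := by
    intro n
    apply h.measurable_ZZ γ m n
    intro k hk
    have hk' := (Finset.mem_Ico.mp hk).1
    have h1 : Measurable[sg ξ k] (ξ k) := comap_measurable (ξ k)
    exact h1.mono (le_iSup₂_of_le k hk' le_rfl) le_rfl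
  have hL : Measurable[⨆ i ≥ m, sg ξ i] (fun ω => limsup (fun n => ZZ P ξ γ m n ω) atTop) :=
    Measurable.limsup hZ
  exact hL (measurableSet_singleton 0)

lemma Hyp.zero_one (h : Hyp P ξ) (γ : ℝ) : P (N0 P ξ γ 0) = 0 ∨ P (N0 P ξ γ 0) = 1 := by
  apply measure_zero_or_one_of_measurableSet_limsup_atTop (s := sg ξ)
  · intro n
    exact (h.meas n).comap_le
  · exact (iIndepFun_iff_iIndep _ _ _).mp h.indep
  · exact h.measurableSet_N0 γ

end Pool.Agent.Y977.CH
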