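import Pool.Agent.Y977.CH.Pos

/-!
Positivity of the limit measure when the logarithmic moment is finite, second part.
-/

open MeasureTheory ProbabilityTheory Filter Topology Set
open scoped ENNReal NNReal

namespace Pool.Agent.Y977.CH

open Pool.Agent.Results.MP_ab74d4_pr.ChaosConvergence

variable {Ω : Type*} {mΩ : MeasurableSpace Ω} {P : Measure Ω} {ξ : ℕ → Ω → ℂ}

/-- loss in one factor -/
noncomputable def lo (P : Measure Ω) (ξ : ℕ → Ω → ℂ) (γ : ℝ) (k : ℕ) : ℝ :=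
  (γ ^ 2 / 2) ^ 2 * (1 / ((k : ℝ) + 1) ^ 2) + γ ^ 2 / 2 * tl P ξ k + dl P ξ |γ| k

lemma Hyp.lo_nonneg (h : Hyp P ξ) (γ : ℝ) (k : ℕ) : 0 ≤ lo P ξ γ k := by
  have := h.prob
  unfold lo
  have h1 := h.tl_nonneg k
  have h2 := dl_nonneg P ξ |γ| k
  positivity

lemma Hyp.summable_lo (h : Hyp P ξ) (γ : ℝ) (hs : Summable (tl P ξ)) : Summable (lo P ξ γ) := by
  unfold lo
  refine ((Summable.mul_left _ ?_).add (hs.mul_left _)).add (h.summable_dl' |γ|)
  have := (summable_nat_add_iff 1).mpr (Real.summable_one_div_nat_pow.mpr (by norm_num : 1 < 2))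
  refine this.congr fun k => ?_
  push_cast
  rfl

/-- lower bound for one factor -/
lemma Hyp.factor_ge (h : Hyp P ξ) (γ : ℝ) (hγ : γ ^ 2 / 2 < 1) (k : ℕ) (z : S1) :
    1 - lo P ξ γ k ≤ (∫ ω, Real.exp (LL k ((γ : ℂ) * (z : ℂ) ^ (k + 1)) (ξ k ω)) ∂P) *
      Real.exp (-(γ ^ 2 / 2 * qq P ξ k ((z : ℂ) ^ (k + 1)))) := by
  set x : ℝ := γ ^ 2 / 2 * qq P ξ k ((z : ℂ) ^ (k + 1)) with hx
  set I : ℝ := ∫ ω, Real.exp (LL k ((γ : ℂ) * (z : ℂ) ^ (k + 1)) (ξ k ω)) ∂P with hI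
  have hI0 : 0 ≤ I := integral_nonneg fun ω => (Real.exp_pos _).le
  have hnorm : ‖(γ : ℂ) * (z : ℂ) ^ (k + 1)‖ ≤ |γ| := by
    rw [norm_mul, norm_pow, norm_coe, one_pow, mul_one, Complex.norm_real, Real.norm_eq_abs]
  have h1 := (abs_le.mp (h.abs_mgf_sub_le k ((γ : ℂ) * (z : ℂ) ^ (k + 1)) |γ| hnorm)).1
  rw [h.qt_smul] at h1
  have h2 := h.defect_le k ((z : ℂ) ^ (k + 1)) (by rw [norm_pow, norm_coe, one_pow])
  have hq0 := h.qq_nonneg k ((z : ℂ) ^ (k + 1))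
  have hq1 := h.qq_unit_le k z (norm_coe z)
  have hx0 : 0 ≤ x := by rw [hx]; positivity
  have hkpos : (0 : ℝ) < (k : ℝ) + 1 := by positivity
  have hx1 : x ≤ γ ^ 2 / 2 * (1 / ((k : ℝ) + 1)) := by rw [hx]; gcongr
  have hx2 : x ≤ 1 := by
    have : γ ^ 2 / 2 * (1 / ((k : ℝ) + 1)) ≤ 1 * 1 := by
      apply mul_le_mul hγ.le _ (by positivity) (by norm_num)
      rw [div_le_one hkpos]
      linarith [(Nat.cast_nonneg k : (0 : ℝ) ≤ k)]
    linarith
  have hIge : 1 + x - γ ^ 2 / 2 * tl P ξ k - dl P ξ |γ| k ≤ I := by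
    have : γ ^ 2 / 2 * (qq P ξ k ((z : ℂ) ^ (k + 1)) - qt P ξ k ((z : ℂ) ^ (k + 1))) ≤
        γ ^ 2 / 2 * tl P ξ k := by gcongr
    rw [hx]
    linarith
  have hexp : 1 - x ≤ Real.exp (-x) := by
    have := Real.add_one_le_exp (-x)
    linarith
  have hdl : 0 ≤ dl P ξ |γ| k := by have := h.prob; exact dl_nonneg P ξ |γ| k
  have htl := h.tl_nonneg k
  have hxsq : x ^ 2 ≤ (γ ^ 2 / 2) ^ 2 * (1 / ((k : ℝ) + 1) ^ 2) := by
    calc x ^ 2 ≤ (γ ^ 2 / 2 * (1 / ((k : ℝ) + 1))) ^ 2 := pow_le_pow_left₀ hx0 hx1 2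
      _ = _ := by rw [mul_pow (γ ^ 2 / 2) (1 / ((k : ℝ) + 1)), div_pow 1, one_pow]
  calc 1 - lo P ξ γ k ≤ (1 + x - γ ^ 2 / 2 * tl P ξ k - dl P ξ |γ| k) * (1 - x) := by
        unfold lo
        have ha : 0 ≤ γ ^ 2 / 2 * tl P ξ k + dl P ξ |γ| k := by positivity
        nlinarith [mul_nonneg ha hx0]
    _ ≤ I * (1 - x) := mul_le_mul_of_nonneg_right hIge (by linarith)
    _ ≤ I * Real.exp (-x) := mul_le_mul_of_nonneg_left hexp hI0

lemma one_sub_sum_le_prod (s : Finset ℕ) (a : ℕ → ℝ) (h0 : ∀ k ∈ s, 0 ≤ a k)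
    (h1 : ∀ k ∈ s, a k ≤ 1) : 1 - ∑ k ∈ s, a k ≤ ∏ k ∈ s, (1 - a k) := by
  classical
  induction s using Finset.induction_on with
  | empty => simp
  | insert i s hi ih =>
    rw [Finset.sum_insert hi, Finset.prod_insert hi]
    have ih' := ih (fun k hk => h0 k (Finset.mem_insert_of_mem hk))
      (fun k hk => h1 k (Finset.mem_insert_of_mem hk))
    have hp : ∏ k ∈ s, (1 - a k) ≤ 1 := by
      apply Finset.prod_le_one
      · intro k hk; linarith [h1 k (Finset.mem_insert_of_mem hk)]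
      · intro k hk; linarith [h0 k (Finset.mem_insert_of_mem hk)]
    have hai0 := h0 i (Finset.mem_insert_self i s)
    nlinarith

/-- One point lower bound for the tail density. -/
lemma Hyp.exists_k0 (h : Hyp P ξ) (γ : ℝ) (hγ : γ ^ 2 / 2 < 1) (hs : Summable (tl P ξ)) :
    ∃ k0, 1 ≤ k0 ∧ ∀ n (z : S1),
      ENNReal.ofReal (1 / 2) ≤ ∫⁻ ω, ENNReal.ofReal (Real.exp (ET P ξ γ k0 n ω z)) ∂P := by
  have hsl := h.summable_lo γ hs
  obtain ⟨k0, hk0⟩ : ∃ k0, 1 ≤ k0 ∧ ∀ n, ∑ k ∈ Finset.Ico k0 n, lo P ξ γ k ≤ 1 / 2 := by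
    have h1 := hsl.hasSum.tendsto_sum_nat
    have h2 : ∀ᶠ m in atTop, ∑' k, lo P ξ γ k - 1 / 2 < ∑ k ∈ Finset.range m, lo P ξ γ k :=
      h1.eventually_const_lt (by linarith)
    obtain ⟨m, hm1, hm2⟩ := (h2.and (eventually_ge_atTop 1)).exists
    refine ⟨m, hm2, fun n => ?_⟩
    rcases le_or_gt m n with hmn | hmn
    · have h3 : ∑ k ∈ Finset.range n, lo P ξ γ k ≤ ∑' k, lo P ξ γ k :=
        hsl.sum_le_tsum _ fun k _ => h.lo_nonneg γ k
      rw [← Finset.sum_range_add_sum_Ico _ hmn] at h3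
      linarith
    · rw [Finset.Ico_eq_empty (by omega)]
      simp
  refine ⟨k0, hk0.1, fun n z => ?_⟩
  have e1 : ∀ ω, Real.exp (ET P ξ γ k0 n ω z) =
      Real.exp (-∑ k ∈ Finset.Ico k0 n, γ ^ 2 / 2 * qq P ξ k ((z : ℂ) ^ (k + 1))) *
      Real.exp (∑ k ∈ Finset.Ico k0 n, LL k ((γ : ℂ) * (z : ℂ) ^ (k + 1)) (ξ k ω)) := by
    intro ω
    rw [← Real.exp_add]
    congr 1
    unfold ET
    rw [Finset.sum_sub_distrib]
    simp only [LL_smul]
    ring
  have hint : Integrable (fun ω => Real.exp (ET P ξ γ k0 n ω z)) P := by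
    simp only [e1]
    exact (h.integrable_exp_sum _ _).const_mul _
  rw [← ofReal_integral_eq_lintegral_ofReal hint (ae_of_all _ fun ω => (Real.exp_pos _).le)]
  apply ENNReal.ofReal_le_ofReal
  simp only [e1]
  rw [integral_const_mul, h.integral_exp_sum, ← Finset.sum_neg_distrib, Real.exp_sum,
    ← Finset.prod_mul_distrib]
  have hle1 : ∀ k ∈ Finset.Ico k0 n, lo P ξ γ k ≤ 1 := by
    intro k hk
    have h4 : lo P ξ γ k ≤ ∑ k ∈ Finset.Ico k0 n, lo P ξ γ k :=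
      Finset.single_le_sum (fun k _ => h.lo_nonneg γ k) hk
    linarith [hk0.2 n]
  calc (1 : ℝ) / 2 ≤ 1 - ∑ k ∈ Finset.Ico k0 n, lo P ξ γ k := by linarith [hk0.2 n]
    _ ≤ ∏ k ∈ Finset.Ico k0 n, (1 - lo P ξ γ k) :=
        one_sub_sum_le_prod _ _ (fun k _ => h.lo_nonneg γ k) hle1
    _ ≤ _ := by
        apply Finset.prod_le_prod
        · intro k hk; linarith [hle1 k hk]
        · intro k _
          rw [mul_comm]
          exact h.factor_ge γ hγ k z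

/-- Second moment of the tail mass. -/
lemma Hyp.ZZ_sq (h : Hyp P ξ) (γ : ℝ) (hγ : γ ^ 2 / 2 < 1) (m : ℕ) (hm : 1 ≤ m) :
    ∃ C : ℝ≥0∞, C ≠ ⊤ ∧ ∀ n, m ≤ n → ∫⁻ ω, (ZZ P ξ γ m n ω) ^ 2 ∂P ≤ C := by
  have := h.prob
  set K : ℝ≥0∞ := ENNReal.ofReal (Real.exp (dd P ξ (2 * |γ|) + γ ^ 2 / 2 * (2 + 1 / (1 / 4)))) with hK
  refine ⟨K * ENNReal.ofReal (10 * 3 / (1 - 2 ^ (γ ^ 2 / 2 - 1))) * arcLength F0,
    ENNReal.mul_ne_top (ENNReal.mul_ne_top ENNReal.ofReal_ne_top ENNReal.ofReal_ne_top)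
      (measure_ne_top _ _), fun n hmn => ?_⟩
  unfold ZZ
  have hFm : Measurable (fun q : Ω × S1 => ENNReal.ofReal (Real.exp (ET P ξ γ m n q.1 q.2))) :=
    (h.measurable_ET γ m n mΩ fun k _ => h.meas k).exp.ennreal_ofReal
  have hb : ∀ z ∈ F0, ∀ w ∈ F0, ∫⁻ ω, ENNReal.ofReal (Real.exp (ET P ξ γ m n ω z)) *
      ENNReal.ofReal (Real.exp (ET P ξ γ m n ω w)) ∂P ≤ K * ker (γ ^ 2 / 2) 3 z w := by
    intro z hz w hw
    have e1 : ∀ ω, ENNReal.ofReal (Real.exp (ET P ξ γ m n ω z)) *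
        ENNReal.ofReal (Real.exp (ET P ξ γ m n ω w)) = ENNReal.ofReal (Real.exp
          (∑ k ∈ Finset.Ico m n, (LL k ((γ : ℂ) * ((z : ℂ) ^ (k + 1) + (w : ℂ) ^ (k + 1))) (ξ k ω) -
            γ ^ 2 / 2 * (qq P ξ k ((z : ℂ) ^ (k + 1)) + qq P ξ k ((w : ℂ) ^ (k + 1)))))) := by
      intro ω
      rw [← ENNReal.ofReal_mul (Real.exp_pos _).le, ← Real.exp_add]
      congr 2
      unfold ET
      rw [← Finset.sum_add_distrib]
      apply Finset.sum_congr rfl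
      intro k _
      rw [LL_smul, LL_add]
      ring
    simp only [e1]
    refine (h.moment_general _ _ _ (2 * |γ|) ?_).trans ?_
    · intro k _
      rw [norm_mul, Complex.norm_real, Real.norm_eq_abs, mul_comm]
      have h1 : ‖(z : ℂ) ^ (k + 1) + (w : ℂ) ^ (k + 1)‖ ≤ 2 := by
        refine (norm_add_le _ _).trans ?_
        rw [norm_pow, norm_pow, norm_coe, norm_coe]
        norm_num
      gcongr
    · apply h.cov_ker γ _ m n hm 1 (1 / 4) (by simp) (by norm_num) z w (F0_subset hz) (F0_subset hw) 3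
      · have : (1 : ℝ) ≤ m := by exact_mod_cast hm
        linarith
      · rw [Subtype.dist_eq, dist_eq_norm]
        refine lt_of_le_of_lt (norm_sub_le _ _) ?_
        rw [norm_coe, norm_coe]
        norm_num
  refine (second_moment _ hFm F0 isClosed_F0.measurableSet _ ((measurable_ker _ _).const_mul _) hb).trans ?_
  have hk : ∀ z, ∫⁻ w in F0, K * ker (γ ^ 2 / 2) 3 z w ∂arcLength
      ≤ K * ENNReal.ofReal (10 * 3 / (1 - 2 ^ (γ ^ 2 / 2 - 1))) := by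
    intro z
    rw [lintegral_const_mul' _ _ ENNReal.ofReal_ne_top]
    gcongr
    exact (setLIntegral_le_lintegral _ _).trans (lintegral_ker_le _ _ hγ (by norm_num) z)
  refine (lintegral_mono hk).trans ?_
  rw [setLIntegral_const]

lemma Hyp.ZZ_mean (h : Hyp P ξ) (γ : ℝ) (hγ : γ ^ 2 / 2 < 1) (hs : Summable (tl P ξ)) :
    ∃ k0, 1 ≤ k0 ∧ ∀ n, 1 ≤ ∫⁻ ω, ZZ P ξ γ k0 n ω ∂P := by
  have := h.prob
  obtain ⟨k0, hk0, hb⟩ := h.exists_k0 γ hγ hs
  refine ⟨k0, hk0, fun n => ?_⟩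
  unfold ZZ
  have hFm : Measurable (fun q : Ω × S1 => ENNReal.ofReal (Real.exp (ET P ξ γ k0 n q.1 q.2))) :=
    (h.measurable_ET γ k0 n mΩ fun k _ => h.meas k).exp.ennreal_ofReal
  rw [lintegral_lintegral_swap hFm.aemeasurable]
  calc (1 : ℝ≥0∞) = ENNReal.ofReal (1 / 2) * 2 := by
        rw [show (2 : ℝ≥0∞) = ENNReal.ofReal 2 by norm_num, ← ENNReal.ofReal_mul (by norm_num)]
        norm_num
    _ ≤ ENNReal.ofReal (1 / 2) * arcLength F0 := by gcongr; exact arcLength_F0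
    _ = ∫⁻ _z in F0, ENNReal.ofReal (1 / 2) ∂arcLength := by rw [setLIntegral_const]
    _ ≤ _ := lintegral_mono fun z => hb n z

/-- With finite logarithmic moment, almost surely the mass of the reference arc does not tend
to zero. -/
lemma Hyp.N0_null (h : Hyp P ξ) (γ : ℝ) (hγ : γ ^ 2 / 2 < 1) (hs : Summable (tl P ξ)) :
    P (N0 P ξ γ 0) = 0 := by
  have := h.prob
  rcases h.zero_one γ with h0 | h1
  · exact h0
  · exfalso
    obtain ⟨k0, hk0, hmean⟩ := h.ZZ_mean γ hγ hs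
    obtain ⟨C, hC, hsq⟩ := h.ZZ_sq γ hγ k0 hk0
    rw [h.N0_eq γ k0] at h1
    have hmeasZ : ∀ n, Measurable (ZZ P ξ γ k0 n) := fun n =>
      h.measurable_ZZ γ k0 n mΩ fun k _ => h.meas k
    have hmN : MeasurableSet (N0 P ξ γ k0) := by
      unfold N0
      have : Measurable (fun ω => limsup (fun n => ZZ P ξ γ k0 n ω) atTop) := Measurable.limsup hmeasZ
      exact this (measurableSet_singleton 0)
    have hae : ∀ᵐ ω ∂P, limsup (fun n => ZZ P ξ γ k0 n ω) atTop = 0 := by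
      have : ∀ᵐ ω ∂P, ω ∈ N0 P ξ γ k0 := (prob_compl_eq_zero_iff hmN).mpr h1
      exact this
    -- truncation level
    set K : ℝ≥0∞ := 4 * (C + 1) with hK
    have hK0 : K ≠ 0 := by rw [hK]; positivity
    have hKt : K ≠ ⊤ := by
      rw [hK]
      exact ENNReal.mul_ne_top (by norm_num) (ENNReal.add_ne_top.mpr ⟨hC, by norm_num⟩)
    have hpt : ∀ n ω, ZZ P ξ γ k0 n ω ≤ min (ZZ P ξ γ k0 n ω) K + K⁻¹ * (ZZ P ξ γ k0 n ω) ^ 2 := by
      intro n ω
      set x := ZZ P ξ γ k0 n ω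
      rcases le_or_gt x K with hx | hx
      · rw [min_eq_left hx]; exact le_self_add
      · refine le_trans ?_ le_add_self
        calc x = K⁻¹ * (K * x) := by rw [← mul_assoc, ENNReal.inv_mul_cancel hK0 hKt, one_mul]
          _ ≤ K⁻¹ * (x * x) := by gcongr
          _ = K⁻¹ * x ^ 2 := by rw [sq]
    have hmin : Tendsto (fun n => ∫⁻ ω, min (ZZ P ξ γ k0 n ω) K ∂P) atTop (𝓝 0) := by
      have hz0 : ∫⁻ _ω : Ω, (0 : ℝ≥0∞) ∂P = 0 := by simp
      rw [← hz0]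
      apply tendsto_lintegral_of_dominated_convergence (fun _ => K)
      · intro n; exact (hmeasZ n).min measurable_const
      · intro n; exact ae_of_all _ fun ω => min_le_right _ _
      · rw [lintegral_const, measure_univ, mul_one]; exact hKt
      · filter_upwards [hae] with ω hω
        have h5 : Tendsto (fun n => ZZ P ξ γ k0 n ω) atTop (𝓝 0) := by
          apply tendsto_of_le_liminf_of_limsup_le zero_le hω.le
        exact tendsto_of_tendsto_of_tendsto_of_le_of_le tendsto_const_nhds h5 (fun _ => zero_le)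
          (fun n => min_le_left _ _)
    have hev : ∀ᶠ n in atTop, ∫⁻ ω, min (ZZ P ξ γ k0 n ω) K ∂P < 1 / 4 :=
      (tendsto_order.mp hmin).2 _ (by norm_num)
    obtain ⟨n, hn1, hn2⟩ := (hev.and (eventually_ge_atTop k0)).exists
    have h6 := hmean n
    have h7 : ∫⁻ ω, ZZ P ξ γ k0 n ω ∂P ≤ 1 / 4 + 1 / 4 := by
      refine (lintegral_mono (hpt n)).trans ?_
      rw [lintegral_add_left ((hmeasZ n).min measurable_const),
        lintegral_const_mul' _ _ (ENNReal.inv_ne_top.mpr hK0)]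
      apply add_le_add hn1.le
      calc K⁻¹ * ∫⁻ ω, (ZZ P ξ γ k0 n ω) ^ 2 ∂P ≤ K⁻¹ * C := by
            gcongr
            exact hsq n hn2
        _ ≤ K⁻¹ * (C + 1) := by gcongr; exact le_self_add
        _ = 1 / 4 := by
            rw [hK]
            have hc0 : C + 1 ≠ 0 := by positivity
            have hct : C + 1 ≠ ⊤ := ENNReal.add_ne_top.mpr ⟨hC, by norm_num⟩
            rw [ENNReal.mul_inv (Or.inl (by norm_num)) (Or.inl (by norm_num)), mul_assoc,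
              ENNReal.inv_mul_cancel hc0 hct, mul_one, one_div]
    have h8 : (1 : ℝ≥0∞) ≤ 1 / 4 + 1 / 4 := h6.trans h7
    have h9 : (1 / 4 + 1 / 4 : ℝ≥0∞) < 1 := by
      rw [show (1 / 4 : ℝ≥0∞) = ENNReal.ofReal (1 / 4) by
        rw [ENNReal.ofReal_div_of_pos (by norm_num)]; norm_num]
      rw [← ENNReal.ofReal_add (by norm_num) (by norm_num), ← ENNReal.ofReal_one]
      exact (ENNReal.ofReal_lt_ofReal_iff (by norm_num)).mpr (by norm_num)
    exact absurd h8 (not_le.mpr h9)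

/-- Positivity of the limit measure on an arc away from the real points. -/
lemma Hyp.ae_pos (h : Hyp P ξ) (γ : ℝ) (hγ : γ ^ 2 / 2 < 1) (hs : Summable (tl P ξ))
    (μ : ℕ → Ω → FiniteMeasure S1)
    (hμ : IsChaos P ξ γ μ) (μl : Ω → FiniteMeasure S1)
    (hlim : ∀ᵐ ω ∂P, Tendsto (fun n => μ n ω) atTop (𝓝 (μl ω))) :
    ∀ᵐ ω ∂P, (μl ω : Measure S1) (JJ 1 (1 / 4)) ≠ 0 := by
  have h0 : ∀ᵐ ω ∂P, ω ∉ N0 P ξ γ 0 := measure_eq_zero_iff_ae_notMem.mp (h.N0_null γ hγ hs)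
  filter_upwards [h0, h.ae_link γ μ hμ μl hlim] with ω h1 h2
  obtain ⟨C, c, hC, hc, hU, hF⟩ := h2
  have h3 := hF F0 isClosed_F0
  have h4 : limsup (fun n => ∫⁻ z in F0, DD P ξ γ n ω z ∂arcLength) atTop ≠ 0 := by
    intro h5
    apply h1
    show limsup (fun n => ZZ P ξ γ 0 n ω) atTop = 0
    have e : ∀ n, ZZ P ξ γ 0 n ω = ∫⁻ z in F0, DD P ξ γ n ω z ∂arcLength := by
      intro n
      unfold ZZ ET DD EE
      rw [Nat.Ico_zero_eq_range]
    simp only [e]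
    exact h5
  intro h5
  have h6 : (μl ω : Measure S1) F0 = 0 := measure_mono_null F0_subset h5
  rw [h6] at h3
  have h7 := le_antisymm h3 zero_le
  rcases mul_eq_zero.mp h7 with h8 | h8
  · exact hc h8
  · exact h4 h8

end Pool.Agent.Y977.CH
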