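import Pool.Agent.Y977.CH.Dens

/-!
The truncation defect of the variance and the logarithmic moment.
-/

open MeasureTheory ProbabilityTheory Filter Topology Set
open scoped ENNReal NNReal

namespace Pool.Agent.Y977.CH

open Pool.Agent.Results.MP_ab74d4_pr.ChaosConvergence

variable {Ω : Type*} {mΩ : MeasurableSpace Ω} {P : Measure Ω} {ξ : ℕ → Ω → ℂ}

/-- indicator of large coefficients, with the harmonic weight -/
noncomputable def ww (k : ℕ) (t : ℝ) : ℝ := if t ^ 2 ≤ (k : ℝ) + 1 then 0 else 1 / ((k : ℝ) + 1)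

/-- the truncation defect of the variance -/
noncomputable def tl (P : Measure Ω) (ξ : ℕ → Ω → ℂ) (k : ℕ) : ℝ :=
  ∫ ω, ‖ξ 0 ω‖ ^ 2 * ww k ‖ξ 0 ω‖ ∂P

lemma ww_nonneg (k : ℕ) (t : ℝ) : 0 ≤ ww k t := by
  unfold ww
  split_ifs
  · exact le_rfl
  · positivity

lemma ww_le_one (k : ℕ) (t : ℝ) : ww k t ≤ 1 := by
  unfold ww
  split_ifs
  · norm_num
  · rw [div_le_one (by positivity)]
    linarith [(Nat.cast_nonneg k : (0 : ℝ) ≤ k)]

lemma measurable_ww (k : ℕ) : Measurable (ww k) := by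
  unfold ww
  exact Measurable.ite (measurableSet_le (by fun_prop) (by fun_prop)) (by fun_prop) (by fun_prop)

lemma sum_ww_le (t : ℝ) (ht : 0 ≤ t) (n : ℕ) :
    ∑ k ∈ Finset.range n, ww k t ≤ 1 + 2 * Real.log (1 + t) := by
  have hlog : 0 ≤ Real.log (1 + t) := Real.log_nonneg (by linarith)
  rcases Nat.eq_zero_or_pos ⌊t ^ 2⌋₊ with h0 | h0
  · have h1 : ∀ k ∈ Finset.range n, ww k t = 0 := by
      intro k _
      unfold ww
      rw [if_pos]
      have h2 := Nat.lt_floor_add_one (t ^ 2)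
      rw [h0] at h2
      simp only [Nat.cast_zero, zero_add] at h2
      have : (0 : ℝ) ≤ k := Nat.cast_nonneg k
      linarith
    rw [Finset.sum_eq_zero h1]
    linarith
  · have hle : ∑ k ∈ Finset.range n, ww k t ≤ ∑ k ∈ Finset.range ⌊t ^ 2⌋₊, 1 / ((k : ℝ) + 1) := by
      have e : ∑ k ∈ Finset.range n, ww k t =
          ∑ k ∈ (Finset.range n).filter (fun k : ℕ => ¬ t ^ 2 ≤ (k : ℝ) + 1), 1 / ((k : ℝ) + 1) := by
        rw [Finset.sum_filter]
        apply Finset.sum_congr rfl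
        intro k _
        unfold ww
        split_ifs <;> simp
      rw [e]
      apply Finset.sum_le_sum_of_subset_of_nonneg
      · intro k hk
        have h3 := (Finset.mem_filter.mp hk).2
        push Not at h3
        rw [Finset.mem_range]
        have : k + 1 ≤ ⌊t ^ 2⌋₊ := by
          apply Nat.le_floor
          push_cast
          exact h3.le
        omega
      · intro k _ _; positivity
    refine hle.trans ?_
    have e2 : ((harmonic ⌊t ^ 2⌋₊ : ℚ) : ℝ) = ∑ k ∈ Finset.range ⌊t ^ 2⌋₊, 1 / ((k : ℝ) + 1) := by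
      unfold harmonic
      push_cast
      apply Finset.sum_congr rfl
      intro k _
      rw [one_div]
    rw [← e2]
    refine (harmonic_le_one_add_log _).trans ?_
    have hf : (1 : ℝ) ≤ ⌊t ^ 2⌋₊ := by exact_mod_cast h0
    have h4 : (⌊t ^ 2⌋₊ : ℝ) ≤ t ^ 2 := Nat.floor_le (by positivity)
    have h5 : Real.log (⌊t ^ 2⌋₊ : ℝ) ≤ Real.log ((1 + t) ^ 2) := by
      apply Real.log_le_log (by linarith)
      nlinarith
    rw [Real.log_pow] at h5
    push_cast at h5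
    linarith

lemma log_le_sum_ww (t : ℝ) (ht : 1 < t) :
    ∃ n, Real.log t ≤ ∑ k ∈ Finset.range n, ww k t := by
  refine ⟨⌈t ^ 2⌉₊ - 1, ?_⟩
  have hc : 1 < ⌈t ^ 2⌉₊ := by
    rw [Nat.lt_ceil]
    push_cast
    nlinarith
  have e1 : ∑ k ∈ Finset.range (⌈t ^ 2⌉₊ - 1), ww k t =
      ∑ k ∈ Finset.range (⌈t ^ 2⌉₊ - 1), 1 / ((k : ℝ) + 1) := by
    apply Finset.sum_congr rfl
    intro k hk
    unfold ww
    rw [if_neg]
    push Not
    have : k + 1 < ⌈t ^ 2⌉₊ := by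
      have := Finset.mem_range.mp hk
      omega
    have := Nat.lt_ceil.mp this
    push_cast at this
    exact this
  rw [e1]
  have e2 : ((harmonic (⌈t ^ 2⌉₊ - 1) : ℚ) : ℝ) =
      ∑ k ∈ Finset.range (⌈t ^ 2⌉₊ - 1), 1 / ((k : ℝ) + 1) := by
    unfold harmonic
    push_cast
    apply Finset.sum_congr rfl
    intro k _
    rw [one_div]
  rw [← e2]
  refine le_trans ?_ (log_add_one_le_harmonic _)
  apply Real.log_le_log (by linarith)
  have h1 : t ^ 2 ≤ (⌈t ^ 2⌉₊ : ℝ) := Nat.le_ceil _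
  have h2 : ⌈t ^ 2⌉₊ - 1 + 1 = ⌈t ^ 2⌉₊ := by omega
  rw [h2]
  nlinarith

lemma re_pair (ζ z : ℂ) (hz : ‖z‖ = 1) :
    (1 - |z.re|) * ‖ζ‖ ^ 2 ≤ (ζ.re) ^ 2 + ((ζ * z).re) ^ 2 := by
  have hzz : z.re ^ 2 + z.im ^ 2 = 1 := by
    have := Complex.normSq_eq_norm_sq z
    rw [Complex.normSq_apply, hz] at this
    nlinarith
  have hn : ‖ζ‖ ^ 2 = ζ.re ^ 2 + ζ.im ^ 2 := by
    rw [← Complex.normSq_eq_norm_sq, Complex.normSq_apply]; ring
  rw [hn, Complex.mul_re]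
  -- (ζ.re)^2 + (ζ.re z.re - ζ.im z.im)^2 ≥ (1 - |z.re|)(ζ.re^2 + ζ.im^2)
  have hs : |z.re| ≤ 1 := by
    have := Complex.abs_re_le_norm z
    rwa [hz] at this
  rcases le_or_gt 0 z.re with hc | hc
  · rw [abs_of_nonneg hc] at hs ⊢
    -- difference = x^2(1 + c^2 - 1 + c) ... as a quadratic form
    have hfac : ζ.re ^ 2 + (ζ.re * z.re - ζ.im * z.im) ^ 2 - (1 - z.re) * (ζ.re ^ 2 + ζ.im ^ 2)
        = z.re * ((1 + z.re) * ζ.re ^ 2 - 2 * z.im * ζ.re * ζ.im + (1 - z.re) * ζ.im ^ 2) := by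
      have : z.im ^ 2 = 1 - z.re ^ 2 := by linarith
      ring_nf
      rw [this]
      ring
    have hq : 0 ≤ (1 + z.re) * ζ.re ^ 2 - 2 * z.im * ζ.re * ζ.im + (1 - z.re) * ζ.im ^ 2 := by
      have h3 : 0 < 1 + z.re := by linarith
      have h4 : (1 + z.re) * ((1 + z.re) * ζ.re ^ 2 - 2 * z.im * ζ.re * ζ.im +
          (1 - z.re) * ζ.im ^ 2) = ((1 + z.re) * ζ.re - z.im * ζ.im) ^ 2 := by
        have : z.im ^ 2 = 1 - z.re ^ 2 := by linarith
        ring_nf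
        rw [this]
        ring
      have h5 : 0 ≤ (1 + z.re) * ((1 + z.re) * ζ.re ^ 2 - 2 * z.im * ζ.re * ζ.im +
          (1 - z.re) * ζ.im ^ 2) := by rw [h4]; positivity
      exact nonneg_of_mul_nonneg_right h5 h3
    have := mul_nonneg hc hq
    linarith
  · rw [abs_of_neg hc] at hs ⊢
    have hfac : ζ.re ^ 2 + (ζ.re * z.re - ζ.im * z.im) ^ 2 - (1 - -z.re) * (ζ.re ^ 2 + ζ.im ^ 2)
        = (-z.re) * ((1 - z.re) * ζ.re ^ 2 + 2 * z.im * ζ.re * ζ.im + (1 + z.re) * ζ.im ^ 2) := by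
      have : z.im ^ 2 = 1 - z.re ^ 2 := by linarith
      ring_nf
      rw [this]
      ring
    have hq : 0 ≤ (1 - z.re) * ζ.re ^ 2 + 2 * z.im * ζ.re * ζ.im + (1 + z.re) * ζ.im ^ 2 := by
      have h3 : 0 < 1 - z.re := by linarith
      have h4 : (1 - z.re) * ((1 - z.re) * ζ.re ^ 2 + 2 * z.im * ζ.re * ζ.im +
          (1 + z.re) * ζ.im ^ 2) = ((1 - z.re) * ζ.re + z.im * ζ.im) ^ 2 := by
        have : z.im ^ 2 = 1 - z.re ^ 2 := by linarith
        ring_nf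
        rw [this]
        ring
      have h5 : 0 ≤ (1 - z.re) * ((1 - z.re) * ζ.re ^ 2 + 2 * z.im * ζ.re * ζ.im +
          (1 + z.re) * ζ.im ^ 2) := by rw [h4]; positivity
      exact nonneg_of_mul_nonneg_right h5 h3
    have := mul_nonneg (by linarith : 0 ≤ -z.re) hq
    linarith

lemma ww_anti (k : ℕ) (t : ℝ) : ww (k + 1) t ≤ ww k t := by
  unfold ww
  push_cast
  split_ifs with h1 h2 h2
  · exact le_rfl
  · positivity
  · exfalso; linarith
  · apply one_div_le_one_div_of_le (by positivity); linarith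

section
variable (h : Hyp P ξ)
include h

lemma Hyp.integrable_tl (k : ℕ) : Integrable (fun ω => ‖ξ 0 ω‖ ^ 2 * ww k ‖ξ 0 ω‖) P := by
  refine h.sq_int.mono ?_ (ae_of_all _ fun ω => ?_)
  · exact (((h.meas 0).norm.pow_const 2).mul ((measurable_ww k).comp (h.meas 0).norm)).aestronglyMeasurable
  · rw [norm_mul, Real.norm_eq_abs (ww k _), abs_of_nonneg (ww_nonneg _ _)]
    exact mul_le_of_le_one_right (norm_nonneg _) (ww_le_one _ _)

lemma Hyp.tl_nonneg (k : ℕ) : 0 ≤ tl P ξ k :=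
  integral_nonneg fun ω => mul_nonneg (by positivity) (ww_nonneg _ _)

/-- defect formula -/
lemma Hyp.qq_sub_qt (k : ℕ) (u : ℂ) :
    qq P ξ k u - qt P ξ k u = ∫ ω, ((ξ 0 ω * u).re) ^ 2 * ww k ‖ξ 0 ω‖ ∂P := by
  unfold qq qt
  rw [← integral_sub (h.memLp_dir k u).integrable_sq (h.integrable_LL_sq k u)]
  have e1 : ∀ c : ℂ, ((c * u).re / √((k : ℝ) + 1)) ^ 2 - (LL k u c) ^ 2 =
      ((c * u).re) ^ 2 * ww k ‖c‖ := by
    intro c
    unfold LL tr ww
    split_ifs with hc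
    · simp
    · rw [div_pow, Real.sq_sqrt (by positivity)]
      simp
      ring
  simp only [e1]
  have hm : Measurable (fun c : ℂ => ((c * u).re) ^ 2 * ww k ‖c‖) :=
    ((Complex.measurable_re.comp (measurable_id.mul_const u)).pow_const 2).mul
      ((measurable_ww k).comp measurable_norm)
  exact ((h.ident k).comp hm).integral_eq

lemma Hyp.integrable_defect (k : ℕ) (u : ℂ) :
    Integrable (fun ω => ((ξ 0 ω * u).re) ^ 2 * ww k ‖ξ 0 ω‖) P := by
  refine ((h.integrable_tl k).const_mul (‖u‖ ^ 2)).mono ?_ (ae_of_all _ fun ω => ?_)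
  · have hm : Measurable (fun c : ℂ => ((c * u).re) ^ 2 * ww k ‖c‖) :=
      ((Complex.measurable_re.comp (measurable_id.mul_const u)).pow_const 2).mul
        ((measurable_ww k).comp measurable_norm)
    exact (hm.comp (h.meas 0)).aestronglyMeasurable
  · have h1 : ((ξ 0 ω * u).re) ^ 2 ≤ ‖u‖ ^ 2 * ‖ξ 0 ω‖ ^ 2 := by
      rw [← mul_pow, ← sq_abs]
      apply pow_le_pow_left₀ (abs_nonneg _)
      refine (Complex.abs_re_le_norm _).trans ?_
      rw [norm_mul, mul_comm]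
    rw [Real.norm_eq_abs, Real.norm_eq_abs, abs_of_nonneg (mul_nonneg (sq_nonneg _) (ww_nonneg _ _)),
      abs_of_nonneg (mul_nonneg (by positivity) (mul_nonneg (by positivity) (ww_nonneg _ _))),
      ← mul_assoc]
    exact mul_le_mul_of_nonneg_right h1 (ww_nonneg _ _)

lemma Hyp.defect_le (k : ℕ) (u : ℂ) (hu : ‖u‖ = 1) : qq P ξ k u - qt P ξ k u ≤ tl P ξ k := by
  rw [h.qq_sub_qt]
  unfold tl
  apply integral_mono (h.integrable_defect k u) (h.integrable_tl k)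
  intro ω
  apply mul_le_mul_of_nonneg_right _ (ww_nonneg _ _)
  show ((ξ 0 ω * u).re) ^ 2 ≤ ‖ξ 0 ω‖ ^ 2
  rw [← sq_abs]
  apply pow_le_pow_left₀ (abs_nonneg _)
  refine (Complex.abs_re_le_norm _).trans ?_
  rw [norm_mul, hu, mul_one]

/-- The variance defects of two consecutive summands dominate the truncation defect. -/
lemma Hyp.defect_ge (k : ℕ) (z : ℂ) (hz : ‖z‖ = 1) :
    (1 - |z.re|) * tl P ξ (k + 1) ≤ (qq P ξ k (z ^ (k + 1)) - qt P ξ k (z ^ (k + 1))) +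
      (qq P ξ (k + 1) (z ^ (k + 1 + 1)) - qt P ξ (k + 1) (z ^ (k + 1 + 1))) := by
  rw [h.qq_sub_qt, h.qq_sub_qt, ← integral_add (h.integrable_defect _ _) (h.integrable_defect _ _)]
  unfold tl
  rw [← integral_const_mul]
  apply integral_mono ((h.integrable_tl _).const_mul _)
    ((h.integrable_defect _ _).add (h.integrable_defect _ _))
  intro ω
  have hw := ww_anti k ‖ξ 0 ω‖
  have hw0 := ww_nonneg (k + 1) ‖ξ 0 ω‖
  have key : (1 - |z.re|) * ‖ξ 0 ω‖ ^ 2 ≤ ((ξ 0 ω * z ^ (k + 1)).re) ^ 2 +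
      ((ξ 0 ω * z ^ (k + 1 + 1)).re) ^ 2 := by
    have e1 : ξ 0 ω * z ^ (k + 1 + 1) = (ξ 0 ω * z ^ (k + 1)) * z := by rw [pow_succ]; ring
    have e2 : ‖ξ 0 ω‖ = ‖ξ 0 ω * z ^ (k + 1)‖ := by rw [norm_mul, norm_pow, hz, one_pow, mul_one]
    rw [e1, e2]
    exact re_pair _ z hz
  calc (1 - |z.re|) * (‖ξ 0 ω‖ ^ 2 * ww (k + 1) ‖ξ 0 ω‖)
      = ((1 - |z.re|) * ‖ξ 0 ω‖ ^ 2) * ww (k + 1) ‖ξ 0 ω‖ := by ring
    _ ≤ (((ξ 0 ω * z ^ (k + 1)).re) ^ 2 + ((ξ 0 ω * z ^ (k + 1 + 1)).re) ^ 2) *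
        ww (k + 1) ‖ξ 0 ω‖ := by gcongr
    _ ≤ ((ξ 0 ω * z ^ (k + 1)).re) ^ 2 * ww k ‖ξ 0 ω‖ +
        ((ξ 0 ω * z ^ (k + 1 + 1)).re) ^ 2 * ww (k + 1) ‖ξ 0 ω‖ := by
        rw [add_mul]
        gcongr

lemma Hyp.summable_tl (hlog : Integrable (fun ω => ‖ξ 0 ω‖ ^ 2 * Real.log (1 + ‖ξ 0 ω‖)) P) :
    Summable (tl P ξ) := by
  apply summable_of_sum_range_le (c := ∫ ω, (‖ξ 0 ω‖ ^ 2 + 2 * (‖ξ 0 ω‖ ^ 2 * Real.log (1 + ‖ξ 0 ω‖))) ∂P)
  · exact h.tl_nonneg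
  · intro n
    unfold tl
    rw [← integral_finsetSum _ fun k _ => h.integrable_tl k]
    apply integral_mono (integrable_finsetSum _ fun k _ => h.integrable_tl k)
      (h.sq_int.add (hlog.const_mul 2))
    intro ω
    simp only [← Finset.mul_sum]
    have := sum_ww_le ‖ξ 0 ω‖ (norm_nonneg _) n
    have h2 : 0 ≤ ‖ξ 0 ω‖ ^ 2 := by positivity
    show ‖ξ 0 ω‖ ^ 2 * ∑ k ∈ Finset.range n, ww k ‖ξ 0 ω‖ ≤
      ‖ξ 0 ω‖ ^ 2 + 2 * (‖ξ 0 ω‖ ^ 2 * Real.log (1 + ‖ξ 0 ω‖))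
    nlinarith

lemma Hyp.log_of_summable (hs : Summable (tl P ξ)) :
    Integrable (fun ω => ‖ξ 0 ω‖ ^ 2 * Real.log (1 + ‖ξ 0 ω‖)) P := by
  have := h.prob
  have hmeas : Measurable (fun ω => ‖ξ 0 ω‖ ^ 2 * Real.log (1 + ‖ξ 0 ω‖)) :=
    ((h.meas 0).norm.pow_const 2).mul ((h.meas 0).norm.const_add 1).log
  refine ⟨hmeas.aestronglyMeasurable, ?_⟩
  have hnn : ∀ ω, 0 ≤ ‖ξ 0 ω‖ ^ 2 * Real.log (1 + ‖ξ 0 ω‖) := fun ω =>
    mul_nonneg (by positivity) (Real.log_nonneg (by linarith [norm_nonneg (ξ 0 ω)]))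
  rw [hasFiniteIntegral_iff_ofReal (ae_of_all _ hnn)]
  have hlog2 : 0 ≤ Real.log 2 := Real.log_nonneg (by norm_num)
  have hpt : ∀ ω, ENNReal.ofReal (‖ξ 0 ω‖ ^ 2 * Real.log (1 + ‖ξ 0 ω‖)) ≤
      ENNReal.ofReal (‖ξ 0 ω‖ ^ 2 * Real.log 2) +
        ∑' k, ENNReal.ofReal (‖ξ 0 ω‖ ^ 2 * ww k ‖ξ 0 ω‖) := by
    intro ω
    set t := ‖ξ 0 ω‖ with ht
    have ht0 : 0 ≤ t := norm_nonneg _
    rcases le_or_gt t 1 with h1 | h1
    · refine le_trans ?_ le_self_add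
      apply ENNReal.ofReal_le_ofReal
      have : Real.log (1 + t) ≤ Real.log 2 := Real.log_le_log (by linarith) (by linarith)
      gcongr
    · obtain ⟨n, hn⟩ := log_le_sum_ww t h1
      have h2 : ENNReal.ofReal (t ^ 2 * ∑ k ∈ Finset.range n, ww k t) ≤
          ∑' k, ENNReal.ofReal (t ^ 2 * ww k t) := by
        rw [Finset.mul_sum, ENNReal.ofReal_sum_of_nonneg (fun k _ =>
          mul_nonneg (by positivity) (ww_nonneg _ _))]
        exact ENNReal.sum_le_tsum _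
      refine le_trans ?_ (add_le_add_right h2 _)
      rw [← ENNReal.ofReal_add (by positivity)
        (mul_nonneg (by positivity) (Finset.sum_nonneg fun k _ => ww_nonneg _ _))]
      apply ENNReal.ofReal_le_ofReal
      rw [← mul_add]
      have h3 : Real.log (1 + t) ≤ Real.log 2 + Real.log t := by
        rw [← Real.log_mul (by norm_num) (by linarith)]
        apply Real.log_le_log (by linarith)
        linarith
      have h4 : Real.log (1 + t) ≤ Real.log 2 + ∑ k ∈ Finset.range n, ww k t := by linarith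
      gcongr
  refine lt_of_le_of_lt (lintegral_mono hpt) ?_
  have hmk : ∀ k, Measurable (fun ω => ENNReal.ofReal (‖ξ 0 ω‖ ^ 2 * ww k ‖ξ 0 ω‖)) := fun k =>
    (((h.meas 0).norm.pow_const 2).mul ((measurable_ww k).comp (h.meas 0).norm)).ennreal_ofReal
  rw [lintegral_add_left (((h.meas 0).norm.pow_const 2).mul_const _).ennreal_ofReal,
    lintegral_tsum fun k => (hmk k).aemeasurable]
  apply ENNReal.add_lt_top.mpr
  constructor
  · rw [← ofReal_integral_eq_lintegral_ofReal (h.sq_int.mul_const _)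
      (ae_of_all _ fun ω => by positivity)]
    exact ENNReal.ofReal_lt_top
  · have e : ∀ k, ∫⁻ ω, ENNReal.ofReal (‖ξ 0 ω‖ ^ 2 * ww k ‖ξ 0 ω‖) ∂P = ENNReal.ofReal (tl P ξ k) := by
      intro k
      rw [← ofReal_integral_eq_lintegral_ofReal (h.integrable_tl k)
        (ae_of_all _ fun ω => mul_nonneg (by positivity) (ww_nonneg _ _))]
      rfl
    simp only [e]
    rw [← ENNReal.ofReal_tsum_of_nonneg h.tl_nonneg hs]
    exact ENNReal.ofReal_lt_top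

end

end Pool.Agent.Y977.CH
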