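import Pool.Agent.Y977.CH.Mom

/-!
Estimates on trigonometric sums with harmonic weights.
-/

open MeasureTheory ProbabilityTheory Filter Topology Set
open scoped ENNReal NNReal

namespace Pool.Agent.Y977.CH

open Pool.Agent.Results.MP_ab74d4_pr.ChaosConvergence

/-- Abel summation in telescoped form. -/
lemma abel_aux (u : ℂ) (hu : ‖u‖ = 1) (a n : ℕ) :
    ‖(1 - u) * ∑ k ∈ Finset.Ico a (a + n), u ^ (k + 1) / ((k : ℂ) + 1) +
      u ^ (a + n + 1) / ((a + n : ℕ) + 1 : ℂ)‖ ≤ 2 / ((a : ℝ) + 1) - 1 / (((a + n : ℕ) : ℝ) + 1) := by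
  induction n with
  | zero =>
    simp only [add_zero, Finset.Ico_self, Finset.sum_empty, mul_zero, zero_add]
    rw [norm_div, norm_pow, hu, one_pow]
    have : ‖((a : ℂ) + 1)‖ = (a : ℝ) + 1 := by
      rw [show ((a : ℂ) + 1) = ((a + 1 : ℕ) : ℂ) by push_cast; ring, Complex.norm_natCast]
      push_cast; ring
    rw [this]
    apply le_of_eq
    ring
  | succ n ih =>
    rw [← add_assoc, Finset.sum_Ico_succ_top (by omega)]
    have hc : ((a + n : ℕ) : ℂ) + 1 ≠ 0 := by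
      have : ((a + n : ℕ) : ℂ) + 1 = ((a + n + 1 : ℕ) : ℂ) := by push_cast; ring
      rw [this]
      exact Nat.cast_ne_zero.mpr (by omega)
    have hc' : ((a + n + 1 : ℕ) : ℂ) + 1 ≠ 0 := by
      have : ((a + n + 1 : ℕ) : ℂ) + 1 = ((a + n + 2 : ℕ) : ℂ) := by push_cast; ring
      rw [this]
      exact Nat.cast_ne_zero.mpr (by omega)
    have e : (1 - u) * (∑ k ∈ Finset.Ico a (a + n), u ^ (k + 1) / ((k : ℂ) + 1) +
          u ^ (a + n + 1) / (((a + n : ℕ) : ℂ) + 1)) +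
        u ^ (a + n + 1 + 1) / (((a + n + 1 : ℕ) : ℂ) + 1)
        = ((1 - u) * ∑ k ∈ Finset.Ico a (a + n), u ^ (k + 1) / ((k : ℂ) + 1) +
          u ^ (a + n + 1) / ((a + n : ℕ) + 1 : ℂ)) +
          u ^ (a + n + 2) * (((1 / (((a + n + 1 : ℕ) : ℝ) + 1) - 1 / (((a + n : ℕ) : ℝ) + 1) : ℝ)) : ℂ) := by
      push_cast
      push_cast at hc hc'
      field_simp
      ring
    rw [e]
    refine (norm_add_le _ _).trans ?_
    rw [norm_mul, norm_pow, hu, one_pow, one_mul, Complex.norm_real, Real.norm_eq_abs]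
    have h1 : 1 / (((a + n + 1 : ℕ) : ℝ) + 1) ≤ 1 / (((a + n : ℕ) : ℝ) + 1) := by
      apply one_div_le_one_div_of_le (by positivity)
      push_cast; linarith
    rw [abs_of_nonpos (by linarith)]
    have := ih
    linarith

lemma norm_sum_le (u : ℂ) (hu : ‖u‖ = 1) (a b : ℕ) :
    ‖1 - u‖ * ‖∑ k ∈ Finset.Ico a b, u ^ (k + 1) / ((k : ℂ) + 1)‖ ≤ 2 / ((a : ℝ) + 1) := by
  rcases le_or_gt a b with hab | hab
  · obtain ⟨n, rfl⟩ := Nat.exists_eq_add_of_le hab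
    rw [← norm_mul]
    have h1 := abel_aux u hu a n
    have h2 : ‖u ^ (a + n + 1) / ((a + n : ℕ) + 1 : ℂ)‖ = 1 / (((a + n : ℕ) : ℝ) + 1) := by
      rw [norm_div, norm_pow, hu, one_pow]
      congr 1
      rw [show (((a + n : ℕ) : ℂ) + 1) = ((a + n + 1 : ℕ) : ℂ) by push_cast; ring,
        Complex.norm_natCast]
      push_cast; ring
    have h3 := norm_sub_le ((1 - u) * ∑ k ∈ Finset.Ico a (a + n), u ^ (k + 1) / ((k : ℂ) + 1) +
      u ^ (a + n + 1) / ((a + n : ℕ) + 1 : ℂ)) (u ^ (a + n + 1) / ((a + n : ℕ) + 1 : ℂ))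
    rw [add_sub_cancel_right, h2] at h3
    linarith
  · rw [Finset.Ico_eq_empty (by omega)]
    simp only [Finset.sum_empty, norm_zero, mul_zero]
    positivity

lemma re_sum_le (u β : ℂ) (hu : ‖u‖ = 1) (hβ : ‖β‖ ≤ 1) (d : ℝ) (hd : 0 < d) (hud : d ≤ ‖1 - u‖)
    (a b : ℕ) :
    |∑ k ∈ Finset.Ico a b, (β * u ^ (k + 1)).re / ((k : ℝ) + 1)| ≤ 2 / (d * ((a : ℝ) + 1)) := by
  have h1 := norm_sum_le u hu a b
  have e : ∑ k ∈ Finset.Ico a b, (β * u ^ (k + 1)).re / ((k : ℝ) + 1)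
      = (β * ∑ k ∈ Finset.Ico a b, u ^ (k + 1) / ((k : ℂ) + 1)).re := by
    rw [Finset.mul_sum, Complex.re_sum]
    apply Finset.sum_congr rfl
    intro k _
    rw [← mul_div_assoc]
    have : ((k : ℂ) + 1) = (((k : ℝ) + 1 : ℝ) : ℂ) := by push_cast; ring
    rw [this, Complex.div_ofReal_re]
  rw [e]
  refine (Complex.abs_re_le_norm _).trans ?_
  rw [norm_mul]
  have h2 : d * ‖∑ k ∈ Finset.Ico a b, u ^ (k + 1) / ((k : ℂ) + 1)‖ ≤ 2 / ((a : ℝ) + 1) :=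
    (mul_le_mul_of_nonneg_right hud (norm_nonneg _)).trans h1
  calc ‖β‖ * ‖∑ k ∈ Finset.Ico a b, u ^ (k + 1) / ((k : ℂ) + 1)‖
      ≤ 1 * ‖∑ k ∈ Finset.Ico a b, u ^ (k + 1) / ((k : ℂ) + 1)‖ := by gcongr
    _ = (d * ‖∑ k ∈ Finset.Ico a b, u ^ (k + 1) / ((k : ℂ) + 1)‖) / d := by field_simp
    _ ≤ (2 / ((a : ℝ) + 1)) / d := by gcongr
    _ = 2 / (d * ((a : ℝ) + 1)) := by field_simp

lemma sum_inv_le_log (M K : ℕ) (hM : 1 ≤ M) (hMK : M ≤ K) :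
    ∑ k ∈ Finset.Ico M K, 1 / ((k : ℝ) + 1) ≤ Real.log K - Real.log M := by
  induction K, hMK using Nat.le_induction with
  | base => simp
  | succ K hK ih =>
    rw [Finset.sum_Ico_succ_top hK]
    have hKpos : (0 : ℝ) < K := by
      have : 1 ≤ K := hM.trans hK
      exact_mod_cast this
    have h1 : 1 / ((K : ℝ) + 1) ≤ Real.log ((K + 1 : ℕ) : ℝ) - Real.log K := by
      rw [← Real.log_div (by positivity) (by positivity)]
      have h2 := Real.one_sub_inv_le_log_of_pos (x := ((K + 1 : ℕ) : ℝ) / K) (by positivity)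
      refine le_trans (le_of_eq ?_) h2
      push_cast
      field_simp
      ring
    linarith

/-- The logarithmic upper bound. -/
lemma re_sum_le_log (u : ℂ) (hu : ‖u‖ = 1) (M n i : ℕ) (hM : 1 ≤ M)
    (hi : 1 ≤ M * ‖1 - u‖ * 2 ^ i) :
    ∑ k ∈ Finset.Ico M n, (u ^ (k + 1)).re / ((k : ℝ) + 1) ≤ i * Real.log 2 + 2 := by
  have hMpos : (0 : ℝ) < M := by exact_mod_cast hM
  have hre : ∀ k : ℕ, (u ^ (k + 1)).re / ((k : ℝ) + 1) ≤ 1 / ((k : ℝ) + 1) := by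
    intro k
    have : (u ^ (k + 1)).re ≤ 1 := by
      refine (Complex.re_le_norm _).trans ?_
      rw [norm_pow, hu, one_pow]
    gcongr
  have hlogK : Real.log ((M * 2 ^ i : ℕ) : ℝ) - Real.log M = i * Real.log 2 := by
    push_cast
    rw [Real.log_mul (by positivity) (by positivity), Real.log_pow]
    ring
  have hMK : M ≤ M * 2 ^ i := Nat.le_mul_of_pos_right _ (by positivity)
  have hlog2 : 0 ≤ Real.log 2 := Real.log_nonneg (by norm_num)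
  rcases le_or_gt n (M * 2 ^ i) with hn | hn
  · have h1 : ∑ k ∈ Finset.Ico M n, (u ^ (k + 1)).re / ((k : ℝ) + 1)
        ≤ ∑ k ∈ Finset.Ico M (M * 2 ^ i), 1 / ((k : ℝ) + 1) := by
      refine (Finset.sum_le_sum fun k _ => hre k).trans ?_
      apply Finset.sum_le_sum_of_subset_of_nonneg
      · exact Finset.Ico_subset_Ico_right hn
      · intro k _ _; positivity
    have h2 := sum_inv_le_log M (M * 2 ^ i) hM hMK
    rw [hlogK] at h2
    linarith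
  · rw [← Finset.sum_Ico_consecutive _ hMK hn.le]
    have h1 : ∑ k ∈ Finset.Ico M (M * 2 ^ i), (u ^ (k + 1)).re / ((k : ℝ) + 1)
        ≤ i * Real.log 2 := by
      refine (Finset.sum_le_sum fun k _ => hre k).trans ?_
      rw [← hlogK]
      exact sum_inv_le_log M (M * 2 ^ i) hM hMK
    have hupos : 0 < ‖1 - u‖ := by
      by_contra hcon
      have : ‖1 - u‖ = 0 := le_antisymm (not_lt.mp hcon) (norm_nonneg _)
      rw [this] at hi
      simp at hi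
      linarith
    have h2 := re_sum_le u 1 hu (by simp) ‖1 - u‖ hupos le_rfl (M * 2 ^ i) n
    simp only [one_mul] at h2
    have h3 : 2 / (‖1 - u‖ * (((M * 2 ^ i : ℕ) : ℝ) + 1)) ≤ 2 := by
      rw [div_le_iff₀ (by positivity)]
      push_cast
      nlinarith
    have h4 := (abs_le.mp h2).2
    linarith

section moments

variable {Ω : Type*} {mΩ : MeasurableSpace Ω} {P : Measure Ω} {ξ : ℕ → Ω → ℂ}

/-- The pseudo-variance of the coefficients. -/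
noncomputable def bet (P : Measure Ω) (ξ : ℕ → Ω → ℂ) : ℂ := ∫ ω, (ξ 0 ω) ^ 2 ∂P

variable (h : Hyp P ξ)
include h

lemma Hyp.integrable_sq_c (k : ℕ) : Integrable (fun ω => (ξ k ω) ^ 2) P := by
  refine (h.sq_int' k).mono ((h.meas k).pow_const 2).aestronglyMeasurable (ae_of_all _ fun ω => ?_)
  simp

lemma Hyp.bet_eq (k : ℕ) : ∫ ω, (ξ k ω) ^ 2 ∂P = bet P ξ := by
  have h1 := ((h.ident k).comp (u := fun c : ℂ => c ^ 2) (by fun_prop)).integral_eq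
  simp only [Function.comp_def] at h1
  exact h1

lemma Hyp.norm_bet_le : ‖bet P ξ‖ ≤ 1 := by
  unfold bet
  refine (norm_integral_le_integral_norm _).trans ?_
  simp only [norm_pow]
  exact h.var.le

lemma re_sq_formula (c u : ℂ) : ((c * u).re) ^ 2 = (‖u‖ ^ 2 * ‖c‖ ^ 2 + (u ^ 2 * c ^ 2).re) / 2 := by
  rw [← mul_pow ‖u‖, ← norm_mul, ← mul_pow u, mul_comm u c]
  have : ‖c * u‖ ^ 2 = (c * u).re ^ 2 + (c * u).im ^ 2 := by
    rw [← Complex.normSq_eq_norm_sq, Complex.normSq_apply]; ring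
  rw [this, show ((c * u) ^ 2).re = (c * u).re ^ 2 - (c * u).im ^ 2 by
    rw [sq, Complex.mul_re]; ring]
  ring

lemma Hyp.qq_eq (k : ℕ) (u : ℂ) :
    qq P ξ k u = (‖u‖ ^ 2 + (bet P ξ * u ^ 2).re) / 2 / ((k : ℝ) + 1) := by
  unfold qq
  have e : ∀ ω, ((ξ k ω * u).re / √((k : ℝ) + 1)) ^ 2
      = (‖u‖ ^ 2 * ‖ξ k ω‖ ^ 2 + (u ^ 2 * (ξ k ω) ^ 2).re) * (1 / (2 * ((k : ℝ) + 1))) := by
    intro ω
    rw [div_pow, Real.sq_sqrt (by positivity), re_sq_formula h]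
    field_simp
  simp only [e]
  rw [integral_mul_const, integral_add ((h.sq_int' k).const_mul _), integral_const_mul, h.var' k]
  · have h1 : ∫ ω, (u ^ 2 * (ξ k ω) ^ 2).re ∂P = (∫ ω, u ^ 2 * (ξ k ω) ^ 2 ∂P).re := by
      have := integral_re ((h.integrable_sq_c k).const_mul (u ^ 2))
      simpa using this
    rw [h1, integral_const_mul, h.bet_eq k, mul_comm (u ^ 2)]
    field_simp
  · exact ((h.integrable_sq_c k).const_mul (u ^ 2)).re

lemma Hyp.qq_unit (k : ℕ) (z : ℂ) (hz : ‖z‖ = 1) :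
    qq P ξ k (z ^ (k + 1)) = (1 / ((k : ℝ) + 1) + (bet P ξ * (z ^ 2) ^ (k + 1)).re / ((k : ℝ) + 1)) / 2 := by
  rw [h.qq_eq, norm_pow, hz]
  rw [show (z ^ (k + 1)) ^ 2 = (z ^ 2) ^ (k + 1) by ring]
  simp only [one_pow]
  ring

lemma Hyp.qq_smul (k : ℕ) (t : ℝ) (u : ℂ) : qq P ξ k ((t : ℂ) * u) = t ^ 2 * qq P ξ k u := by
  rw [h.qq_eq, h.qq_eq, norm_mul, Complex.norm_real, Real.norm_eq_abs, mul_pow, sq_abs]
  rw [show bet P ξ * ((t : ℂ) * u) ^ 2 = ((t ^ 2 : ℝ) : ℂ) * (bet P ξ * u ^ 2) by push_cast; ring,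
    Complex.re_ofReal_mul]
  ring

lemma Hyp.qq_nonneg (k : ℕ) (u : ℂ) : 0 ≤ qq P ξ k u :=
  integral_nonneg fun _ => sq_nonneg _

lemma Hyp.qq_unit_le (k : ℕ) (z : ℂ) (hz : ‖z‖ = 1) : qq P ξ k (z ^ (k + 1)) ≤ 1 / ((k : ℝ) + 1) := by
  rw [h.qq_unit k z hz]
  have h1 : (bet P ξ * (z ^ 2) ^ (k + 1)).re ≤ 1 := by
    refine (Complex.re_le_norm _).trans ?_
    rw [norm_mul, norm_pow, norm_pow, hz]
    simpa using h.norm_bet_le
  have h2 : (bet P ξ * (z ^ 2) ^ (k + 1)).re / ((k : ℝ) + 1) ≤ 1 / ((k : ℝ) + 1) := by gcongr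
  linarith

/-- Variance of the truncated field away from the real points. -/
lemma Hyp.abs_sum_qq (n : ℕ) (z : ℂ) (hz : ‖z‖ = 1) (d : ℝ) (hd : 0 < d) (hzd : d ≤ ‖1 - z ^ 2‖) :
    |∑ k ∈ Finset.range n, qq P ξ k (z ^ (k + 1)) - (∑ k ∈ Finset.range n, 1 / ((k : ℝ) + 1)) / 2|
      ≤ 1 / d := by
  have e : ∑ k ∈ Finset.range n, qq P ξ k (z ^ (k + 1)) - (∑ k ∈ Finset.range n, 1 / ((k : ℝ) + 1)) / 2
      = (∑ k ∈ Finset.Ico 0 n, (bet P ξ * (z ^ 2) ^ (k + 1)).re / ((k : ℝ) + 1)) / 2 := by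
    rw [Nat.Ico_zero_eq_range, Finset.sum_div, Finset.sum_div, ← Finset.sum_sub_distrib]
    apply Finset.sum_congr rfl
    intro k _
    rw [h.qq_unit k z hz]
    ring
  rw [e, abs_div, abs_of_pos (by norm_num : (0 : ℝ) < 2)]
  have h1 := re_sum_le (z ^ 2) (bet P ξ) (by rw [norm_pow, hz, one_pow]) h.norm_bet_le d hd hzd 0 n
  simp only [Nat.cast_zero, zero_add, mul_one] at h1
  rw [div_le_iff₀ (by norm_num)]
  refine h1.trans (le_of_eq ?_)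
  ring

/-- The two point exponent. -/
lemma Hyp.cov_eq (k : ℕ) (z w : ℂ) (hz : ‖z‖ = 1) (hw : ‖w‖ = 1) (γ : ℝ) :
    qq P ξ k ((γ : ℂ) * (z ^ (k + 1) + w ^ (k + 1))) / 2
      - γ ^ 2 / 2 * (qq P ξ k (z ^ (k + 1)) + qq P ξ k (w ^ (k + 1)))
      = γ ^ 2 / 2 * (((z * (starRingEnd ℂ) w) ^ (k + 1)).re / ((k : ℝ) + 1) +
        (bet P ξ * (z * w) ^ (k + 1)).re / ((k : ℝ) + 1)) := by
  rw [h.qq_smul, h.qq_eq, h.qq_eq, h.qq_eq]
  have hzk : ‖z ^ (k + 1)‖ = 1 := by rw [norm_pow, hz, one_pow]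
  have hwk : ‖w ^ (k + 1)‖ = 1 := by rw [norm_pow, hw, one_pow]
  have e1 : ‖z ^ (k + 1) + w ^ (k + 1)‖ ^ 2 = 2 + 2 * ((z * (starRingEnd ℂ) w) ^ (k + 1)).re := by
    rw [← Complex.normSq_eq_norm_sq, Complex.normSq_add, Complex.normSq_eq_norm_sq,
      Complex.normSq_eq_norm_sq, hzk, hwk, mul_pow, map_pow]
    ring
  rw [e1, hzk, hwk]
  rw [show bet P ξ * (z ^ (k + 1) + w ^ (k + 1)) ^ 2 = bet P ξ * (z ^ (k + 1)) ^ 2
    + bet P ξ * (w ^ (k + 1)) ^ 2 + ((2 : ℝ) : ℂ) * (bet P ξ * (z * w) ^ (k + 1)) by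
      push_cast; rw [mul_pow z w]; ring]
  rw [Complex.add_re, Complex.add_re, Complex.re_ofReal_mul]
  ring

lemma Hyp.sum_cov_le (M n i : ℕ) (hM : 1 ≤ M) (z w : ℂ) (hz : ‖z‖ = 1) (hw : ‖w‖ = 1) (γ : ℝ)
    (hi : 1 ≤ M * ‖z - w‖ * 2 ^ i) (d : ℝ) (hd : 0 < d) (hzw : d ≤ ‖1 - z * w‖) :
    ∑ k ∈ Finset.Ico M n, (qq P ξ k ((γ : ℂ) * (z ^ (k + 1) + w ^ (k + 1))) / 2
      - γ ^ 2 / 2 * (qq P ξ k (z ^ (k + 1)) + qq P ξ k (w ^ (k + 1))))
      ≤ γ ^ 2 / 2 * (i * Real.log 2 + 2 + 2 / d) := by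
  have e1 : ‖1 - z * (starRingEnd ℂ) w‖ = ‖z - w‖ := by
    have h1 : w * (starRingEnd ℂ) w = 1 := by
      rw [Complex.mul_conj, Complex.normSq_eq_norm_sq, hw]; norm_num
    have h2 : 1 - z * (starRingEnd ℂ) w = (w - z) * (starRingEnd ℂ) w := by
      rw [sub_mul, h1]
    rw [h2, norm_mul, RCLike.norm_conj, hw, mul_one, norm_sub_rev]
  have h1 := re_sum_le_log (z * (starRingEnd ℂ) w) (by rw [norm_mul, RCLike.norm_conj, hz, hw, one_mul])
    M n i hM (by rw [e1]; exact hi)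
  have h2 := re_sum_le (z * w) (bet P ξ) (by rw [norm_mul, hz, hw, one_mul]) h.norm_bet_le d hd hzw M n
  have h3 : 2 / (d * ((M : ℝ) + 1)) ≤ 2 / d := by
    apply div_le_div_of_nonneg_left (by norm_num) hd
    have : (0 : ℝ) ≤ M := Nat.cast_nonneg M
    nlinarith
  have h4 := (abs_le.mp h2).2
  rw [Finset.sum_congr rfl fun k _ => h.cov_eq k z w hz hw γ, ← Finset.mul_sum,
    Finset.sum_add_distrib]
  gcongr
  linarith

end moments

end Pool.Agent.Y977.CH
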