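import Pool.Agent.Y977.CH.Tl
import Pool.Agent.Y977.CH.Dim2

/-!
The degenerate case: infinite logarithmic moment.
-/

open MeasureTheory ProbabilityTheory Filter Topology Set
open scoped ENNReal NNReal

namespace Pool.Agent.Y977.CH

open Pool.Agent.Results.MP_ab74d4_pr.ChaosConvergence

variable {Ω : Type*} {mΩ : MeasurableSpace Ω} {P : Measure Ω} {ξ : ℕ → Ω → ℂ}

lemma Hyp.qt_smul (_h : Hyp P ξ) (k : ℕ) (t : ℝ) (u : ℂ) :
    qt P ξ k ((t : ℂ) * u) = t ^ 2 * qt P ξ k u := by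
  unfold qt
  rw [← integral_const_mul]
  congr 1
  funext ω
  rw [LL_smul]
  ring

lemma Hyp.moment_defect (h : Hyp P ξ) (γ : ℝ) (n : ℕ) (z : ℂ) (hz : ‖z‖ = 1) :
    ∫⁻ ω, ENNReal.ofReal (Real.exp (EE P ξ γ n ω z)) ∂P ≤
      ENNReal.ofReal (Real.exp (dd P ξ |γ| - γ ^ 2 / 2 * ∑ k ∈ Finset.range n,
        (qq P ξ k (z ^ (k + 1)) - qt P ξ k (z ^ (k + 1))))) := by
  have e1 : ∀ ω, ENNReal.ofReal (Real.exp (EE P ξ γ n ω z)) =
      ENNReal.ofReal (Real.exp (-∑ k ∈ Finset.range n, γ ^ 2 / 2 * qq P ξ k (z ^ (k + 1)))) *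
      ENNReal.ofReal (Real.exp (∑ k ∈ Finset.range n, LL k ((γ : ℂ) * z ^ (k + 1)) (ξ k ω))) := by
    intro ω
    rw [← ENNReal.ofReal_mul (Real.exp_pos _).le, ← Real.exp_add]
    congr 2
    unfold EE
    rw [Finset.sum_sub_distrib]
    simp only [LL_smul]
    ring
  simp only [e1]
  rw [lintegral_const_mul' _ _ ENNReal.ofReal_ne_top]
  calc _ ≤ ENNReal.ofReal (Real.exp (-∑ k ∈ Finset.range n, γ ^ 2 / 2 * qq P ξ k (z ^ (k + 1)))) *
        ENNReal.ofReal (Real.exp (∑ k ∈ Finset.range n, (qt P ξ k ((γ : ℂ) * z ^ (k + 1)) / 2 +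
          dl P ξ |γ| k))) := by
        gcongr
        apply h.lintegral_exp_sum_le'
        intro k _
        rw [norm_mul, norm_pow, hz, one_pow, mul_one, Complex.norm_real, Real.norm_eq_abs]
    _ ≤ _ := by
        rw [← ENNReal.ofReal_mul (Real.exp_pos _).le, ← Real.exp_add]
        apply ENNReal.ofReal_le_ofReal
        apply Real.exp_le_exp.mpr
        simp only [h.qt_smul]
        have h1 := h.sum_dl_le (Finset.range n) |γ|
        have e2 : ∑ k ∈ Finset.range n, (γ ^ 2 * qt P ξ k (z ^ (k + 1)) / 2 + dl P ξ |γ| k) =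
            ∑ k ∈ Finset.range n, γ ^ 2 / 2 * qt P ξ k (z ^ (k + 1)) +
              ∑ k ∈ Finset.range n, dl P ξ |γ| k := by
          rw [Finset.sum_add_distrib]
          congr 1
          apply Finset.sum_congr rfl
          intro k _
          ring
        rw [e2, Finset.mul_sum]
        simp only [mul_sub]
        rw [Finset.sum_sub_distrib]
        unfold dd
        linarith

lemma abs_re_lt_one (z : S1) (hz : z ∉ RR) : |(z : ℂ).re| < 1 := by
  have him : (z : ℂ).im ≠ 0 := hz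
  have h1 : (z : ℂ).re ^ 2 + (z : ℂ).im ^ 2 = 1 := by
    have := Complex.normSq_eq_norm_sq (z : ℂ)
    rw [Complex.normSq_apply, norm_coe] at this
    nlinarith
  rw [abs_lt]
  have h2 : 0 < (z : ℂ).im ^ 2 := by positivity
  constructor <;> nlinarith

lemma Hyp.tendsto_defect (h : Hyp P ξ) (hns : ¬ Summable (tl P ξ)) (z : S1) (hz : z ∉ RR) :
    Tendsto (fun n => ∑ k ∈ Finset.range n,
      (qq P ξ k ((z : ℂ) ^ (k + 1)) - qt P ξ k ((z : ℂ) ^ (k + 1)))) atTop atTop := by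
  have hc : 0 < 1 - |(z : ℂ).re| := by linarith [abs_re_lt_one z hz]
  have hns' : ¬ Summable (fun k => tl P ξ (k + 1)) := by
    rw [summable_nat_add_iff 1]; exact hns
  have ht : Tendsto (fun n => ∑ k ∈ Finset.range n, tl P ξ (k + 1)) atTop atTop :=
    (not_summable_iff_tendsto_nat_atTop_of_nonneg fun k => h.tl_nonneg (k + 1)).mp hns'
  set d : ℕ → ℝ := fun k => qq P ξ k ((z : ℂ) ^ (k + 1)) - qt P ξ k ((z : ℂ) ^ (k + 1)) with hd
  have hd0 : ∀ k, 0 ≤ d k := fun k => by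
    simp only [hd]
    linarith [h.qt_le_qq k ((z : ℂ) ^ (k + 1))]
  have hmono : Monotone (fun n => ∑ k ∈ Finset.range n, d k) := by
    intro a b hab
    apply Finset.sum_le_sum_of_subset_of_nonneg (Finset.range_mono hab)
    intro k _ _
    exact hd0 k
  have hbound : ∀ n, (1 - |(z : ℂ).re|) / 2 * ∑ k ∈ Finset.range n, tl P ξ (k + 1) ≤
      ∑ k ∈ Finset.range (n + 1), d k := by
    intro n
    have h1 : ∑ k ∈ Finset.range n, (1 - |(z : ℂ).re|) * tl P ξ (k + 1) ≤
        ∑ k ∈ Finset.range n, (d k + d (k + 1)) :=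
      Finset.sum_le_sum fun k _ => h.defect_ge k z (norm_coe z)
    rw [← Finset.mul_sum, Finset.sum_add_distrib] at h1
    have h2 : ∑ k ∈ Finset.range n, d k ≤ ∑ k ∈ Finset.range (n + 1), d k := hmono (Nat.le_succ n)
    have h3 : ∑ k ∈ Finset.range n, d (k + 1) ≤ ∑ k ∈ Finset.range (n + 1), d k := by
      rw [Finset.sum_range_succ']
      linarith [hd0 0]
    linarith
  have h4 : Tendsto (fun n => ∑ k ∈ Finset.range (n + 1), d k) atTop atTop :=
    tendsto_atTop_mono hbound (ht.const_mul_atTop (by linarith))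
  exact (tendsto_add_atTop_iff_nat 1).mp h4

lemma Hyp.tendsto_total (h : Hyp P ξ) (γ : ℝ) (hγ : γ ≠ 0) (hns : ¬ Summable (tl P ξ)) :
    Tendsto (fun n => ∫⁻ ω, ∫⁻ z, DD P ξ γ n ω z ∂arcLength ∂P) atTop (𝓝 0) := by
  have := h.prob
  have e1 : ∀ n, ∫⁻ ω, ∫⁻ z, DD P ξ γ n ω z ∂arcLength ∂P =
      ∫⁻ z, ∫⁻ ω, DD P ξ γ n ω z ∂P ∂arcLength := fun n =>
    lintegral_lintegral_swap (h.measurable_DD γ n).aemeasurable
  simp only [e1]
  have hz0 : ∫⁻ _z : S1, (0 : ℝ≥0∞) ∂arcLength = 0 := by simp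
  rw [← hz0]
  apply tendsto_lintegral_of_dominated_convergence (fun _ => ENNReal.ofReal (Real.exp (dd P ξ |γ|)))
  · intro n
    exact (h.measurable_DD γ n).lintegral_prod_left'
  · intro n
    apply ae_of_all
    intro z
    refine (h.moment_defect γ n z (norm_coe z)).trans ?_
    apply ENNReal.ofReal_le_ofReal
    apply Real.exp_le_exp.mpr
    have : 0 ≤ γ ^ 2 / 2 * ∑ k ∈ Finset.range n,
        (qq P ξ k ((z : ℂ) ^ (k + 1)) - qt P ξ k ((z : ℂ) ^ (k + 1))) := by
      apply mul_nonneg (by positivity)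
      apply Finset.sum_nonneg
      intro k _
      linarith [h.qt_le_qq k ((z : ℂ) ^ (k + 1))]
    linarith
  · rw [lintegral_const]
    exact ENNReal.mul_ne_top ENNReal.ofReal_ne_top (measure_ne_top _ _)
  · have hR : arcLength RR = 0 := by
      have : RR.Countable := RR_finite.countable
      rw [← biUnion_of_singleton RR]
      exact (measure_biUnion_null_iff this).mpr fun z _ => arcLength_singleton z
    have hae : ∀ᵐ z ∂arcLength, z ∉ RR := measure_eq_zero_iff_ae_notMem.mp hR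
    filter_upwards [hae] with z hz
    have hT := h.tendsto_defect hns z hz
    have hg : 0 < γ ^ 2 / 2 := by positivity
    have h2 : Tendsto (fun n => dd P ξ |γ| - γ ^ 2 / 2 * ∑ k ∈ Finset.range n,
        (qq P ξ k ((z : ℂ) ^ (k + 1)) - qt P ξ k ((z : ℂ) ^ (k + 1)))) atTop atBot := by
      have h3 := (hT.const_mul_atTop hg)
      exact tendsto_atBot_add_const_left _ _ (tendsto_neg_atTop_atBot.comp h3)
    have h4 : Tendsto (fun n => ENNReal.ofReal (Real.exp (dd P ξ |γ| - γ ^ 2 / 2 *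
        ∑ k ∈ Finset.range n, (qq P ξ k ((z : ℂ) ^ (k + 1)) - qt P ξ k ((z : ℂ) ^ (k + 1))))))
        atTop (𝓝 0) := by
      rw [← ENNReal.ofReal_zero]
      exact ENNReal.tendsto_ofReal (Real.tendsto_exp_atBot.comp h2)
    exact tendsto_of_tendsto_of_tendsto_of_le_of_le tendsto_const_nhds h4 (fun _ => zero_le)
      (fun n => h.moment_defect γ n z (norm_coe z))

/-- If the logarithmic moment is infinite the limit measure vanishes almost surely. -/
lemma Hyp.ae_zero (h : Hyp P ξ) (γ : ℝ) (hγ : γ ≠ 0) (hns : ¬ Summable (tl P ξ))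
    (μ : ℕ → Ω → FiniteMeasure S1)
    (hμ : IsChaos P ξ γ μ) (μl : Ω → FiniteMeasure S1)
    (hlim : ∀ᵐ ω ∂P, Tendsto (fun n => μ n ω) atTop (𝓝 (μl ω))) :
    ∀ᵐ ω ∂P, μl ω = 0 := by
  have hm : ∀ n, Measurable (fun ω => ∫⁻ z, DD P ξ γ n ω z ∂arcLength) := fun n =>
    (h.measurable_DD γ n).lintegral_prod_right'
  have h1 : ∫⁻ ω, liminf (fun n => ∫⁻ z, DD P ξ γ n ω z ∂arcLength) atTop ∂P = 0 := by
    apply le_antisymm _ zero_le
    refine (lintegral_liminf_le hm).trans ?_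
    exact (h.tendsto_total γ hγ hns).liminf_eq.le
  have h2 := (lintegral_eq_zero_iff (Measurable.liminf hm)).mp h1
  filter_upwards [h2, h.ae_link γ μ hμ μl hlim] with ω g1 g2
  obtain ⟨C, c, hC, hc, hU, hF⟩ := g2
  have g3 := hU univ isOpen_univ
  simp only [Measure.restrict_univ] at g3
  have g4 : liminf (fun n => ∫⁻ z, DD P ξ γ n ω z ∂arcLength) atTop = 0 := g1
  rw [g4, mul_zero] at g3
  have g5 : (μl ω : Measure S1) = 0 := Measure.measure_univ_eq_zero.mp (le_antisymm g3 zero_le)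
  apply Subtype.ext
  exact g5

end Pool.Agent.Y977.CH
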